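import Pool.Agent.H80.MR.Stm

/-!
# The mean ergodic projection of a contraction which is a finite rank perturbation of the identity
-/

set_option autoImplicit false

namespace Pool.Agent.H80.MR

open Set Filter Topology

variable {E : Type} [NormedAddCommGroup E] [NormedSpace ℝ E]

/-- Cesaro means -/
noncomputable def ces (T : E →L[ℝ] E) (n : ℕ) (x : E) : E :=
  (n : ℝ)⁻¹ • ∑ k ∈ Finset.range n, (T ^ k) x

lemma pow_le {T : E →L[ℝ] E} (hT : ∀ x, ‖T x‖ ≤ ‖x‖) (k : ℕ) (x : E) : ‖(T ^ k) x‖ ≤ ‖x‖ := by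
  induction k generalizing x with
  | zero => simp
  | succ k ih =>
    rw [pow_succ]
    exact (ih (T x)).trans (hT x)

lemma ces_add (T : E →L[ℝ] E) (n : ℕ) (x y : E) : ces T n (x + y) = ces T n x + ces T n y := by
  unfold ces
  simp only [map_add, Finset.sum_add_distrib, smul_add]

lemma ces_le {T : E →L[ℝ] E} (hT : ∀ x, ‖T x‖ ≤ ‖x‖) (n : ℕ) (x : E) : ‖ces T n x‖ ≤ ‖x‖ := by
  unfold ces
  rw [norm_smul, norm_inv, Real.norm_natCast]
  have h1 : ‖∑ k ∈ Finset.range n, (T ^ k) x‖ ≤ n * ‖x‖ := by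
    refine (norm_sum_le _ _).trans ?_
    refine (Finset.sum_le_sum fun k _ => pow_le hT k x).trans ?_
    simp
  rcases Nat.eq_zero_or_pos n with h | h
  · subst h
    simp
  · have hn : (0 : ℝ) < n := by exact_mod_cast h
    calc (n : ℝ)⁻¹ * ‖∑ k ∈ Finset.range n, (T ^ k) x‖ ≤ (n : ℝ)⁻¹ * (n * ‖x‖) := by gcongr
      _ = ‖x‖ := by field_simp

lemma ces_fix {T : E →L[ℝ] E} {x : E} (hx : T x = x) {n : ℕ} (hn : 0 < n) : ces T n x = x := by
  have h1 : ∀ k, (T ^ k) x = x := by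
    intro k
    induction k with
    | zero => simp
    | succ k ih =>
      rw [pow_succ]
      show (T ^ k) (T x) = x
      rw [hx, ih]
  unfold ces
  have hn' : (n : ℝ) ≠ 0 := by exact_mod_cast hn.ne'
  simp only [h1, Finset.sum_const, Finset.card_range]
  rw [← Nat.cast_smul_eq_nsmul ℝ, smul_smul, inv_mul_cancel₀ hn', one_smul]

lemma ces_tele {T : E →L[ℝ] E} (n : ℕ) (y : E) :
    ces T n (T y - y) = (n : ℝ)⁻¹ • ((T ^ n) y - y) := by
  unfold ces
  congr 1
  induction n with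
  | zero => simp
  | succ n ih =>
    rw [Finset.sum_range_succ, ih, map_sub]
    have h1 : (T ^ n) (T y) = (T ^ (n + 1)) y := by rw [pow_succ]; rfl
    rw [h1]
    abel

lemma ces_tend {T : E →L[ℝ] E} (hT : ∀ x, ‖T x‖ ≤ ‖x‖) (y : E) :
    Tendsto (fun n => ces T n (T y - y)) atTop (𝓝 0) := by
  have h1 : Tendsto (fun n : ℕ => (n : ℝ)⁻¹ * (2 * ‖y‖)) atTop (𝓝 0) := by
    simpa using (tendsto_inv_atTop_nhds_zero_nat (𝕜 := ℝ)).mul_const (2 * ‖y‖)
  refine squeeze_zero_norm (fun n => ?_) h1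
  rw [ces_tele, norm_smul, norm_inv, Real.norm_natCast]
  have h2 : ‖(T ^ n) y - y‖ ≤ 2 * ‖y‖ := by
    refine (norm_sub_le _ _).trans ?_
    have := pow_le hT n y
    linarith
  gcongr

/-- the mean ergodic projection -/
theorem ergodic {T : E →L[ℝ] E} (hT : ∀ x, ‖T x‖ ≤ ‖x‖)
    (hR : FiniteDimensional ℝ (LinearMap.range ((T - 1 : E →L[ℝ] E) : E →ₗ[ℝ] E))) :
    ∃ P : E →L[ℝ] E, (∀ x, P (P x) = P x) ∧ (∀ x, ‖P x‖ ≤ ‖x‖) ∧ (∀ x, T (P x) = P x) ∧
      (∀ x, T x = x → P x = x) ∧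
      FiniteDimensional ℝ (LinearMap.range ((P - 1 : E →L[ℝ] E) : E →ₗ[ℝ] E)) := by
  set N : E →ₗ[ℝ] E := ((T - 1 : E →L[ℝ] E) : E →ₗ[ℝ] E) with hN
  have hNa : ∀ x, N x = T x - x := fun x => rfl
  set R := LinearMap.range N with hRd
  have hinj0 : ∀ x ∈ R, N x = 0 → x = 0 := by
    rintro x ⟨y, rfl⟩ hx
    have h1 : T (N y) = N y := by
      rw [hNa] at hx
      exact sub_eq_zero.1 hx
    have h2 := ces_tend hT y
    rw [← hNa] at h2
    have h3 : ∀ᶠ n : ℕ in atTop, ces T n (N y) = N y := by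
      filter_upwards [eventually_gt_atTop 0] with n hn
      exact ces_fix h1 hn
    exact tendsto_nhds_unique (tendsto_const_nhds.congr' (h3.mono fun n hn => hn.symm)) h2
  let NR : R →ₗ[ℝ] R := N.restrict (p := R) (q := R) fun x _ => ⟨x, rfl⟩
  have hNR : ∀ x : R, ((NR x : R) : E) = N x := fun x => rfl
  have hinj : Function.Injective NR := by
    rw [← LinearMap.ker_eq_bot, LinearMap.ker_eq_bot']
    intro x hx
    apply Subtype.ext
    refine hinj0 _ x.2 ?_
    rw [← hNR, hx]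
    rfl
  let e : R ≃ₗ[ℝ] R := LinearEquiv.ofInjectiveEndo NR hinj
  have he : ∀ z : R, NR (e.symm z) = z := fun z => e.apply_symm_apply z
  let r : E →ₗ[ℝ] E := R.subtype ∘ₗ (e.symm : R →ₗ[ℝ] R) ∘ₗ N.rangeRestrict
  have hr1 : ∀ x, r x ∈ R := fun x => (e.symm (N.rangeRestrict x)).2
  have hr2 : ∀ x, N (r x) = N x := by
    intro x
    have h1 := congrArg Subtype.val (he (N.rangeRestrict x))
    rw [hNR] at h1
    exact h1
  let p : E →ₗ[ℝ] E := LinearMap.id - r
  have hp : ∀ x, p x = x - r x := fun x => rfl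
  have hTp : ∀ x, T (p x) = p x := by
    intro x
    have h1 : N (p x) = 0 := by rw [hp, map_sub, hr2, sub_self]
    rw [hNa] at h1
    exact sub_eq_zero.1 h1
  have hfix : ∀ x, T x = x → p x = x := by
    intro x hx
    have h1 : N x = 0 := by rw [hNa, hx, sub_self]
    have h2 : r x = 0 := hinj0 _ (hr1 x) (by rw [hr2, h1])
    rw [hp, h2, sub_zero]
  have hnorm : ∀ x, ‖p x‖ ≤ ‖x‖ := by
    intro x
    obtain ⟨y, hy⟩ := hr1 x
    have h1 := ces_tend hT y
    rw [← hNa, hy] at h1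
    have h2 : Tendsto (fun n => ces T n x) atTop (𝓝 (p x)) := by
      have h3 : Tendsto (fun n => p x + ces T n (r x)) atTop (𝓝 (p x + 0)) := h1.const_add _
      rw [add_zero] at h3
      refine h3.congr' ?_
      filter_upwards [eventually_gt_atTop 0] with n hn
      have h4 := ces_add T n (p x) (r x)
      rw [ces_fix (hTp x) hn] at h4
      rw [← h4, hp, sub_add_cancel]
    exact le_of_tendsto h2.norm (Eventually.of_forall fun n => ces_le hT n x)
  refine ⟨p.mkContinuous 1 fun x => by rw [one_mul]; exact hnorm x, fun x => hfix _ (hTp x),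
    hnorm, hTp, hfix, ?_⟩
  have hle : LinearMap.range ((p.mkContinuous 1 (fun x => by rw [one_mul]; exact hnorm x) - 1 :
      E →L[ℝ] E) : E →ₗ[ℝ] E) ≤ R := by
    rintro _ ⟨x, rfl⟩
    have h1 : ((p.mkContinuous 1 (fun x => by rw [one_mul]; exact hnorm x) - 1 :
      E →L[ℝ] E) : E →ₗ[ℝ] E) x = - r x := by
      show p x - x = - r x
      rw [hp]
      abel
    rw [h1]
    exact R.neg_mem (hr1 x)
  exact Submodule.finiteDimensional_of_le hle

/-- a contraction `T ≠ 1` with `T - 1` of finite rank gives a projection `1 - F` of norm one with a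
finite-dimensional kernel -/
theorem ker_of {T : E →L[ℝ] E} (hT : ‖T‖ ≤ 1) (h1 : T ≠ 1)
    (hR : FiniteDimensional ℝ (LinearMap.range ((T - 1 : E →L[ℝ] E) : E →ₗ[ℝ] E))) :
    ∃ F : E →L[ℝ] E, Ker F := by
  have hT' : ∀ x, ‖T x‖ ≤ ‖x‖ := fun x => by
    have h := T.le_opNorm x
    have h2 : ‖T‖ * ‖x‖ ≤ 1 * ‖x‖ := by gcongr
    linarith
  obtain ⟨P, hP1, hP2, hP3, hP4, hP5⟩ := ergodic hT' hR
  refine ⟨1 - P, ⟨fun x => ?_, fun x => ?_, ?_, ?_⟩⟩
  · show (x - P x) - P (x - P x) = x - P x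
    rw [map_sub, hP1, sub_self, sub_zero]
  · show ‖x - (x - P x)‖ ≤ ‖x‖
    rw [sub_sub_cancel]
    exact hP2 x
  · have h : LinearMap.range ((1 - P : E →L[ℝ] E) : E →ₗ[ℝ] E) =
        LinearMap.range ((P - 1 : E →L[ℝ] E) : E →ₗ[ℝ] E) := by
      apply le_antisymm
      · rintro _ ⟨x, rfl⟩
        exact ⟨-x, by
          show P (-x) - (-x) = x - P x
          rw [map_neg]; abel⟩
      · rintro _ ⟨x, rfl⟩
        exact ⟨-x, by
          show (-x) - P (-x) = P x - x
          rw [map_neg]; abel⟩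
    rw [h]
    exact hP5
  · intro h
    apply h1
    ext x
    have h2 : (1 - P : E →L[ℝ] E) x = 0 := by rw [h]; rfl
    have h3 : P x = x := by
      have : x - P x = 0 := h2
      exact (sub_eq_zero.1 this).symm
    have h4 := hP3 x
    rw [h3] at h4
    exact h4

end Pool.Agent.H80.MR
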