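import Pool.Agent.H80.MR.Stm2
import Pool.Agent.H80.MR.Erg
import Pool.Agent.H80.L.R_pool_sql_team_seeded_63374d34.Results.MP_cc72b1_an.CompactDichotomy

/-!
# Assembly of project MB
-/

set_option autoImplicit false

namespace Pool.Agent.H80.MR

open Filter Topology

/-- `E` is linearly isometric to a real Hilbert space -/
def IsHilb (E : Type) [NormedAddCommGroup E] [NormedSpace ℝ E] : Prop :=
  ∃ (H : Type) (_ : NormedAddCommGroup H) (_ : InnerProductSpace ℝ H) (_ : CompleteSpace H),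
    Nonempty (E ≃ₗᵢ[ℝ] H)

theorem para_of_isHilb {E : Type} [NormedAddCommGroup E] [NormedSpace ℝ E] (h : IsHilb E)
    (x y : E) : ‖x + y‖ ^ 2 + ‖x - y‖ ^ 2 = 2 * ‖x‖ ^ 2 + 2 * ‖y‖ ^ 2 := by
  obtain ⟨H, _, _, _, ⟨e⟩⟩ := h
  have h1 := parallelogram_law_with_norm ℝ (e x) (e y)
  rw [← map_add, ← map_sub, e.norm_map, e.norm_map, e.norm_map, e.norm_map] at h1
  nlinarith [h1]

theorem isHilb_of_para {E : Type} [NormedAddCommGroup E] [NormedSpace ℝ E] [CompleteSpace E]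
    (h : ∀ x y : E, ‖x + y‖ ^ 2 + ‖x - y‖ ^ 2 = 2 * ‖x‖ ^ 2 + 2 * ‖y‖ ^ 2) : IsHilb E :=
  ⟨E, inferInstance, InnerProductSpace.ofNorm ℝ (fun x y => by
    have := h x y
    nlinarith [this]), inferInstance, ⟨LinearIsometryEquiv.refl ℝ E⟩⟩

theorem compact_of_finrank {E : Type} [NormedAddCommGroup E] [NormedSpace ℝ E] {A : E →L[ℝ] E}
    (h : FiniteDimensional ℝ (LinearMap.range (A : E →ₗ[ℝ] E))) : IsCompactOperator A := by
  let R := LinearMap.range (A : E →ₗ[ℝ] E)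
  have hR : FiniteDimensional ℝ R := h
  have : ProperSpace R := FiniteDimensional.proper_real R
  let f : E →L[ℝ] R := A.codRestrict R fun x => ⟨x, rfl⟩
  exact (isCompactOperator_of_locallyCompactSpace_dom f).clm_comp R.subtypeL

theorem Trans.at {E : Type} [NormedAddCommGroup E] [NormedSpace ℝ E] (h : Trans E) : AT E := by
  intro x y hx hy ε hε
  obtain ⟨T, hT⟩ := h x y hx hy
  exact ⟨T, by rw [hT, sub_self, norm_zero]; exact hε⟩

/-- the equivalent inner product -/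
theorem form_of (hLIMB : S_LIMB) (hBDD : S_BDD) (hLOWB : S_LOWB)
    (E : Type) [NormedAddCommGroup E] [NormedSpace ℝ E] [CompleteSpace E]
    (hinf : ¬ FiniteDimensional ℝ E) (htr : Trans E) (hc : HasContr E) :
    ∃ (B : E →ₗ[ℝ] E →ₗ[ℝ] ℝ) (C c : ℝ), (∀ u v, B u v = B v u) ∧ 0 < c ∧
      (∀ u, B u u ≤ C * ‖u‖ ^ 2) ∧ ∀ u, c * ‖u‖ ^ 2 ≤ B u u := by
  obtain ⟨T, hT1, hT2, hT3⟩ := hc
  obtain ⟨F, hF⟩ := ker_of hT2 hT1 hT3
  obtain ⟨m, B, hm, hB, hB0⟩ := hLIMB E hinf htr F hF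
  obtain ⟨C, hC⟩ := hBDD E htr F hF m B hm hB
  obtain ⟨c, hc, hc'⟩ := hLOWB E hinf htr F hF m hm B hB hB0
  exact ⟨B, C, c, hB.symm, hc, hC, hc'⟩

/-- an infinite-dimensional space contains a sequence with infinite-dimensional span -/
theorem exists_seq (E : Type) [NormedAddCommGroup E] [NormedSpace ℝ E]
    (hinf : ¬ FiniteDimensional ℝ E) : ∃ v : ℕ → E, LinearIndependent ℝ v := by
  obtain ⟨s, hs, hlin⟩ : ∃ s : Set E, s.Infinite ∧ LinearIndependent ℝ ((↑) : s → E) := by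
    let b := Module.Free.chooseBasis ℝ E
    refine ⟨Set.range b, ?_, b.linearIndependent.linearIndepOn_id⟩
    by_contra hfin
    rw [Set.not_infinite] at hfin
    apply hinf
    have h1 : Finite (Module.Free.ChooseBasisIndex ℝ E) :=
      Set.finite_range_iff b.injective |>.1 hfin
    exact Module.Finite.of_basis b
  let f : ℕ ↪ s := hs.natEmbedding
  exact ⟨fun n => (f n : E), hlin.comp f f.injective⟩

theorem para (hLIMB : S_LIMB) (hBDD : S_BDD) (hLOWB : S_LOWB) (hHIL : S_HIL) (hSEP : S_SEP)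
    (E : Type) [NormedAddCommGroup E] [NormedSpace ℝ E] [CompleteSpace E]
    (hinf : ¬ FiniteDimensional ℝ E) (htr : Trans E) (hc : HasContr E) (x y : E) :
    ‖x + y‖ ^ 2 + ‖x - y‖ ^ 2 = 2 * ‖x‖ ^ 2 + 2 * ‖y‖ ^ 2 := by
  obtain ⟨B, C, c, hBs, hc0, hBC, hBc⟩ := form_of hLIMB hBDD hLOWB E hinf htr hc
  obtain ⟨T, hT1, hT2, hT3⟩ := hc
  obtain ⟨v, hv⟩ := exists_seq E hinf
  obtain ⟨w, hw⟩ : ∃ w, (T - 1) w ≠ 0 := by
    by_contra h
    push Not at h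
    apply hT1
    rw [← sub_eq_zero]
    exact ContinuousLinearMap.ext fun x => by rw [h x]; rfl
  let z : ℕ → E := fun n => match n with
    | 0 => x
    | 1 => y
    | 2 => w
    | n + 3 => v n
  obtain ⟨E₀, hcl, hsep, hz, hinv, hAT⟩ := hSEP E htr.at (fun _ => T - 1) z
  have hx : x ∈ E₀ := hz 0
  have hy : y ∈ E₀ := hz 1
  have hw0 : w ∈ E₀ := hz 2
  have hv0 : ∀ n, v n ∈ E₀ := fun n => hz (n + 3)
  have : CompleteSpace E₀ := hcl.completeSpace_coe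
  have hinf₀ : ¬ FiniteDimensional ℝ E₀ := by
    intro hf
    have h1 : LinearIndependent ℝ (fun n => (⟨v n, hv0 n⟩ : E₀)) := by
      refine LinearIndependent.of_comp E₀.subtype ?_
      exact hv
    exact Module.Finite.not_linearIndependent_of_infinite _ h1
  -- the form on `E₀`
  let B₀ : E₀ →ₗ[ℝ] E₀ →ₗ[ℝ] ℝ := B.compl₁₂ E₀.subtype E₀.subtype
  have hB₀ : ∀ u v : E₀, B₀ u v = B (u : E) (v : E) := fun u v => rfl
  have hH := hHIL E₀ B₀ C c (fun u v => by rw [hB₀, hB₀, hBs]) hc0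
    (fun u => by rw [hB₀]; exact hBC u) (fun u => by rw [hB₀]; exact hBc u)
  obtain ⟨hA1, hB1⟩ := Pool.Agent.Results.MP_cc72b1_an.CompactDichotomy.result E₀ hinf₀ hAT
  obtain ⟨-, hC1⟩ := hB1 (hA1 hH)
  -- the operator on `E₀`
  let A : E₀ →L[ℝ] E₀ := ((T - 1) ∘L E₀.subtypeL).codRestrict E₀
    fun u => by
      show (T - 1) (u : E) ∈ E₀
      exact hinv 0 u u.2
  have hA : ∀ u : E₀, ((A u : E₀) : E) = T u - u := fun u => rfl
  have hAcomp : IsCompactOperator A := by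
    apply compact_of_finrank
    have h1 : (LinearMap.range (A : E₀ →ₗ[ℝ] E₀)).map E₀.subtype ≤
        LinearMap.range ((T - 1 : E →L[ℝ] E) : E →ₗ[ℝ] E) := by
      rintro _ ⟨_, ⟨u, rfl⟩, rfl⟩
      exact ⟨u, rfl⟩
    have h2 : FiniteDimensional ℝ ((LinearMap.range (A : E₀ →ₗ[ℝ] E₀)).map E₀.subtype) :=
      Submodule.finiteDimensional_of_le h1
    exact LinearEquiv.finiteDimensional
      (Submodule.equivMapOfInjective E₀.subtype E₀.injective_subtype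
        (LinearMap.range (A : E₀ →ₗ[ℝ] E₀))).symm
  have hHilb : IsHilb E₀ := by
    refine hC1.2 ⟨-A, hAcomp.neg, ?_, ?_⟩
    · intro h
      apply hw
      have h1 : A ⟨w, hw0⟩ = 0 := by
        have h2 : (-A) ⟨w, hw0⟩ = 0 := by rw [h]; rfl
        have h3 : -(A ⟨w, hw0⟩) = 0 := h2
        rwa [neg_eq_zero] at h3
      have h4 := hA ⟨w, hw0⟩
      rw [h1] at h4
      exact h4.symm
    · refine ContinuousLinearMap.opNorm_le_bound _ zero_le_one fun u => ?_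
      have h1 : ((ContinuousLinearMap.id ℝ E₀ - (-A)) u : E₀) = u + A u := by
        show u - (-(A u)) = u + A u
        abel
      rw [h1]
      have h2 : ((u + A u : E₀) : E) = T u := by
        rw [Submodule.coe_add, hA]
        abel
      have h3 : ‖(u + A u : E₀)‖ = ‖T u‖ := by rw [← h2]; rfl
      rw [h3]
      refine (T.le_opNorm u).trans ?_
      have : ‖(u : E)‖ = ‖u‖ := rfl
      rw [this]
      gcongr
  have h1 := para_of_isHilb hHilb ⟨x, hx⟩ ⟨y, hy⟩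
  exact h1

/-- the uniform version -/
theorem uniform (hLIMB : S_LIMB) (hBDD : S_BDD) (hLOWB : S_LOWB) (hHIL : S_HIL) (hSEP : S_SEP)
    (hPW : S_PW) (hULTRA : S_ULTRA) (n : ℕ) (ε : ℝ) (hε : 0 < ε) :
    ∃ δ : ℝ, 0 < δ ∧ ∀ (E : Type) [NormedAddCommGroup E] [NormedSpace ℝ E] [CompleteSpace E],
      ¬ FiniteDimensional ℝ E → AT E → ∀ F : E →L[ℝ] E,
      FiniteDimensional ℝ (LinearMap.range (F : E →ₗ[ℝ] E)) →
      Module.finrank ℝ (LinearMap.range (F : E →ₗ[ℝ] E)) ≤ n →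
      ‖(1 : E →L[ℝ] E) - F‖ < 1 + δ * ‖F‖ → ∀ x y : E, ‖x‖ ≤ 1 → ‖y‖ ≤ 1 →
      |‖x + y‖ ^ 2 + ‖x - y‖ ^ 2 - 2 * ‖x‖ ^ 2 - 2 * ‖y‖ ^ 2| ≤ ε := by
  by_contra hcon
  push Not at hcon
  have h1 : ∀ j : ℕ, ∃ (E : Type) (_ : NormedAddCommGroup E) (_ : NormedSpace ℝ E)
      (_ : CompleteSpace E), ¬ FiniteDimensional ℝ E ∧ AT E ∧ ∃ F : E →L[ℝ] E,
      (FiniteDimensional ℝ (LinearMap.range (F : E →ₗ[ℝ] E)) ∧
      Module.finrank ℝ (LinearMap.range (F : E →ₗ[ℝ] E)) ≤ n) ∧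
      (1 / 8 ≤ ‖F‖ ∧ ‖F‖ ≤ 4) ∧ ‖(1 : E →L[ℝ] E) - F‖ ≤ 1 + 4 / ((j : ℝ) + 2) ∧
      ∃ x y : E, (‖x‖ ≤ 1 ∧ ‖y‖ ≤ 1) ∧
      ε < |‖x + y‖ ^ 2 + ‖x - y‖ ^ 2 - 2 * ‖x‖ ^ 2 - 2 * ‖y‖ ^ 2| := by
    intro j
    obtain ⟨E, i1, i2, i3, hinf, hAT, F, hF1, hF2, hF3, x, y, hx, hy, hxy⟩ :=
      hcon (1 / ((j : ℝ) + 2)) (by positivity)
    have hnt : Nontrivial E := by
      by_contra h
      rw [not_nontrivial_iff_subsingleton] at h
      exact hinf inferInstance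
    obtain ⟨F', g1, g2, g3, g4⟩ := hPW E F (1 / ((j : ℝ) + 2)) (by positivity)
      (by
        rw [div_le_div_iff₀ (by positivity) (by norm_num)]
        have : (0 : ℝ) ≤ j := Nat.cast_nonneg j
        linarith) hF3
    have hfd : FiniteDimensional ℝ (LinearMap.range (F' : E →ₗ[ℝ] E)) :=
      Submodule.finiteDimensional_of_le g1
    refine ⟨E, i1, i2, i3, hinf, hAT, F', ⟨hfd, (Submodule.finrank_mono g1).trans hF2⟩,
      ⟨g2, g3⟩, ?_, x, y, ⟨hx, hy⟩, hxy⟩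
    calc ‖(1 : E →L[ℝ] E) - F'‖ ≤ 1 + 4 * (1 / ((j : ℝ) + 2)) := g4
      _ = 1 + 4 / ((j : ℝ) + 2) := by ring
  choose E i1 i2 i3 hinf hAT F hF1 hF2 hF3 x y hxy hdef using h1
  obtain ⟨E', j1, j2, j3, x', y', hinf', htr', hc', t1, t2, t3, t4⟩ :=
    hULTRA E hinf hAT n F hF1 hF2 hF3 x y hxy
  have hp := para hLIMB hBDD hLOWB hHIL hSEP E' hinf' htr' hc' x' y'
  have hlim : Tendsto (fun j => |‖x j + y j‖ ^ 2 + ‖x j - y j‖ ^ 2 - 2 * ‖x j‖ ^ 2 -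
      2 * ‖y j‖ ^ 2|) (hyperfilter ℕ : Filter ℕ)
      (𝓝 |‖x' + y'‖ ^ 2 + ‖x' - y'‖ ^ 2 - 2 * ‖x'‖ ^ 2 - 2 * ‖y'‖ ^ 2|) :=
    ((((t3.pow 2).add (t4.pow 2)).sub ((t1.pow 2).const_mul 2)).sub
      ((t2.pow 2).const_mul 2)).abs
  have h0 : |‖x' + y'‖ ^ 2 + ‖x' - y'‖ ^ 2 - 2 * ‖x'‖ ^ 2 - 2 * ‖y'‖ ^ 2| = 0 := by
    rw [hp, abs_eq_zero]
    ring
  rw [h0] at hlim
  have h2 := ge_of_tendsto hlim (Eventually.of_forall fun j => (hdef j).le)
  linarith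

end Pool.Agent.H80.MR
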