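import Pool.Agent.H80.MR.LIMB

/-!
# Stub MB-BDD
-/

set_option autoImplicit false

namespace Pool.Agent.H80.MR

open Filter Topology

theorem Psd.half_sub {E : Type} [NormedAddCommGroup E] [NormedSpace ℝ E]
    {b : E →ₗ[ℝ] E →ₗ[ℝ] ℝ} (hb : Psd b) {u v : E} {C : ℝ} (hu : b u u ≤ C) (hv : b v v ≤ C) :
    b ((1 / 2 : ℝ) • (u - v)) ((1 / 2 : ℝ) • (u - v)) ≤ C := by
  have h1 := hb.add_le u (-v)
  have h2 : b (-v) (-v) = b v v := by simp
  rw [h2, ← sub_eq_add_neg] at h1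
  have h3 : b ((1 / 2 : ℝ) • (u - v)) ((1 / 2 : ℝ) • (u - v)) = 1 / 4 * b (u - v) (u - v) := by
    simp only [map_smul, LinearMap.smul_apply, smul_eq_mul]
    ring
  rw [h3]
  linarith

theorem smul_sq {E : Type} [NormedAddCommGroup E] [NormedSpace ℝ E]
    (b : E →ₗ[ℝ] E →ₗ[ℝ] ℝ) (c : ℝ) (u : E) : b (c • u) (c • u) = c ^ 2 * b u u := by
  simp only [map_smul, LinearMap.smul_apply, smul_eq_mul]
  ring

/-- Baire: a pointwise bounded family of forms is bounded on a set which is dense in the ball -/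
theorem baire_forms {E ι : Type} [NormedAddCommGroup E] [NormedSpace ℝ E] [CompleteSpace E]
    {b : ι → E →ₗ[ℝ] E →ₗ[ℝ] ℝ} (hb : ∀ i, Psd (b i)) (h : ∀ u, ∃ C : ℝ, ∀ i, b i u u ≤ C) :
    ∃ C : ℝ, 0 ≤ C ∧ ∀ y : E, ‖y‖ = 1 → ∀ η : ℝ, 0 < η →
      ∃ u, (∀ i, b i u u ≤ C) ∧ ‖u - y‖ ≤ η := by
  set S : ℕ → Set E := fun n => {u | ∀ i, b i u u ≤ n} with hS
  have hU : ⋃ n, closure (S n) = Set.univ := by
    rw [Set.eq_univ_iff_forall]
    intro u
    obtain ⟨C, hC⟩ := h u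
    obtain ⟨n, hn⟩ := exists_nat_ge C
    exact Set.mem_iUnion.2 ⟨n, subset_closure fun i => (hC i).trans hn⟩
  obtain ⟨n, x0, hx0⟩ := nonempty_interior_of_iUnion_of_closed
    (fun n => isClosed_closure (s := S n)) hU
  rw [mem_interior_iff_mem_nhds, Metric.mem_nhds_iff] at hx0
  obtain ⟨r, hr, hball⟩ := hx0
  have key : ∀ w : E, ‖w‖ < r → ∀ η : ℝ, 0 < η → ∃ u ∈ S n, ‖u - w‖ ≤ η := by
    intro w hw η hη
    have h1 : x0 + w ∈ closure (S n) := hball (by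
      rw [Metric.mem_ball, dist_eq_norm, add_sub_cancel_left]; exact hw)
    have h2 : x0 - w ∈ closure (S n) := hball (by
      rw [Metric.mem_ball, dist_eq_norm, sub_sub_cancel_left, norm_neg]; exact hw)
    obtain ⟨u1, hu1, hd1⟩ := Metric.mem_closure_iff.1 h1 η hη
    obtain ⟨u2, hu2, hd2⟩ := Metric.mem_closure_iff.1 h2 η hη
    rw [dist_eq_norm] at hd1 hd2
    refine ⟨(1 / 2 : ℝ) • (u1 - u2), fun i => (hb i).half_sub (hu1 i) (hu2 i), ?_⟩
    have h3 : (1 / 2 : ℝ) • (u1 - u2) - w = (1 / 2 : ℝ) • ((x0 - w - u2) - (x0 + w - u1)) := by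
      module
    rw [h3, norm_smul, Real.norm_eq_abs, abs_of_pos (by norm_num : (0 : ℝ) < 1 / 2)]
    have := norm_sub_le (x0 - w - u2) (x0 + w - u1)
    linarith
  refine ⟨(2 / r) ^ 2 * n, by positivity, fun y hy η hη => ?_⟩
  obtain ⟨u, hu, hd⟩ := key ((r / 2) • y) (by
    rw [norm_smul, hy, Real.norm_eq_abs, abs_of_pos (by positivity)]; linarith)
    (r / 2 * η) (by positivity)
  refine ⟨(2 / r) • u, fun i => ?_, ?_⟩
  · rw [smul_sq]
    have := hu i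
    gcongr
  · have h1 : (2 / r) • u - y = (2 / r) • (u - (r / 2) • y) := by
      rw [smul_sub, smul_smul]
      have : 2 / r * (r / 2) = 1 := by field_simp
      rw [this, one_smul]
    rw [h1, norm_smul, Real.norm_eq_abs, abs_of_pos (by positivity)]
    calc 2 / r * ‖u - (r / 2) • y‖ ≤ 2 / r * (r / 2 * η) := by gcongr
      _ = η := by field_simp

theorem bound_of_unit {E : Type} [NormedAddCommGroup E] [NormedSpace ℝ E]
    (b : E →ₗ[ℝ] E →ₗ[ℝ] ℝ) {C : ℝ} (h : ∀ u, ‖u‖ = 1 → b u u ≤ C) (u : E) :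
    b u u ≤ C * ‖u‖ ^ 2 := by
  by_cases hu : u = 0
  · rw [hu]; simp
  · have hun : ‖u‖ ≠ 0 := norm_ne_zero_iff.2 hu
    have h1 := h (‖u‖⁻¹ • u) (by rw [norm_smul, norm_inv, norm_norm, inv_mul_cancel₀ hun])
    rw [smul_sq] at h1
    have h2 : b u u = ‖u‖ ^ 2 * (‖u‖⁻¹ ^ 2 * b u u) := by field_simp
    rw [h2, mul_comm]
    gcongr

theorem small_eta (C : ℝ) (hC : 0 ≤ C) : ∃ η : ℝ, 0 < η ∧ C * η ^ 2 ≤ 1 := by
  refine ⟨1 / (C + 1), by positivity, ?_⟩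
  have h1 : 1 / (C + 1) ≤ 1 := by rw [div_le_one (by positivity)]; linarith
  have h2 : C * (1 / (C + 1)) ≤ 1 := by
    rw [mul_one_div, div_le_one (by positivity)]; linarith
  have h3 : 0 < 1 / (C + 1) := by positivity
  calc C * (1 / (C + 1)) ^ 2 = C * (1 / (C + 1)) * (1 / (C + 1)) := by ring
    _ ≤ 1 * 1 := mul_le_mul h2 h1 h3.le zero_le_one
    _ = 1 := one_mul 1

theorem bdd : S_BDD := by
  intro E _ _ _ htr F hF m B hm hB
  obtain ⟨x₁, hx₁, hx₁n⟩ := hF.unit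
  have hfin : FiniteDimensional ℝ (rg F) := hF.fin
  obtain ⟨C, hC0, hC⟩ := baire_forms (b := fun _ : Unit => B) (fun _ => hB.psd)
    (fun u => ⟨B u u, fun _ => le_rfl⟩)
  refine ⟨2 * (m * C) + 2, bound_of_unit B fun y hy => ?_⟩
  obtain ⟨g, hg⟩ := htr x₁ y hx₁n hy
  have hyk : y ∈ kr F g := mem_kr.2 ⟨x₁, hx₁, hg⟩
  obtain ⟨N', e', c', hc', hbd'⟩ := fin_bound (kr F g)
  obtain ⟨C', hC'⟩ : ∃ C' : ℝ, C' = c' * (∑ i, B (e' i) (e' i)) := ⟨_, rfl⟩
  have hC'0 : 0 ≤ C' := by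
    rw [hC']
    exact mul_nonneg hc' (Finset.sum_nonneg fun i _ => hB.nonneg _)
  obtain ⟨η, hη, hη1⟩ := small_eta (4 * C') (by positivity)
  obtain ⟨u, hu, hd⟩ := hC y hy η hη
  have h1 : ‖y - cj F g u‖ ≤ 2 * η := by
    have : y - cj F g u = -(cj F g (u - y)) := by
      rw [map_sub, cj_fix hF hyk]; abel
    rw [this, norm_neg]
    refine (cj_norm_le hF g _).trans ?_
    linarith
  have h2 : B (cj F g u) (cj F g u) ≤ m * C :=
    (hB.star g le_top u trivial).trans (mul_le_mul_of_nonneg_left (hu ()) (by linarith))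
  have h3 : B (y - cj F g u) (y - cj F g u) ≤ C' * (2 * η) ^ 2 := by
    have h4 := hbd' B hB.psd (y - cj F g u) ((kr F g).sub_mem hyk (cj_mem F g _))
    rw [← hC'] at h4
    refine h4.trans ?_
    gcongr
  have h5 := hB.psd.add_le (cj F g u) (y - cj F g u)
  rw [add_sub_cancel] at h5
  nlinarith

end Pool.Agent.H80.MR
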