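import Pool.Agent.H80.MR.UP
import Pool.Agent.H80.MR.Near

/-!
# Stub MR-CHAIN
-/

set_option autoImplicit false

namespace Pool.Agent.H80.MR

open TopologicalSpace

variable {E : Type} [NormedAddCommGroup E] [NormedSpace ℝ E]

/-- isometries which nearly fix a basis of `rg F` are near `1` on `rg F` -/
theorem basis_near (W : Submodule ℝ E) [FiniteDimensional ℝ W] :
    ∃ (ι : Type) (_ : Finite ι) (e : ι → E) (κ : ℝ), 0 < κ ∧ ∀ T : E ≃ₗᵢ[ℝ] E,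
      (∀ i, ‖T (e i) - e i‖ ≤ κ) → ∀ k ∈ W, ‖T k - k‖ ≤ ‖k‖ / 12 := by
  classical
  set b := Module.finBasis ℝ W with hb
  set N := Module.finrank ℝ W with hN
  obtain ⟨C, hC0, hC⟩ : ∃ C : ℝ, 0 < C ∧ ∀ k : W, ∀ i, |b.repr k i| ≤ C * ‖k‖ := by
    let f : W →L[ℝ] (Fin N → ℝ) := LinearMap.toContinuousLinearMap b.equivFun.toLinearMap
    refine ⟨‖f‖ + 1, by positivity, fun k i => ?_⟩
    have h1 : b.repr k i = f k i := rfl
    rw [h1]
    calc |f k i| = ‖f k i‖ := (Real.norm_eq_abs _).symm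
      _ ≤ ‖f k‖ := norm_le_pi_norm _ _
      _ ≤ ‖f‖ * ‖k‖ := f.le_opNorm k
      _ ≤ (‖f‖ + 1) * ‖k‖ := by gcongr; linarith
  refine ⟨Fin N, inferInstance, fun i => (b i : E), 1 / (12 * ((N : ℝ) * C + 1)),
    by positivity, fun T hT k hk => ?_⟩
  have h1 : (k : E) = ∑ i, b.repr ⟨k, hk⟩ i • (b i : E) := by
    have h2 := b.sum_repr ⟨k, hk⟩
    have h3 := congrArg (fun z : W => (z : E)) h2
    simp only [Submodule.coe_sum, Submodule.coe_smul] at h3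
    exact h3.symm
  have h2 : T k - k = ∑ i, b.repr ⟨k, hk⟩ i • (T (b i : E) - (b i : E)) := by
    conv_lhs => rw [h1]
    rw [map_sum, ← Finset.sum_sub_distrib]
    refine Finset.sum_congr rfl fun i _ => ?_
    rw [map_smul, smul_sub]
  rw [h2]
  refine (norm_sum_le _ _).trans ?_
  have h3 : ∀ i ∈ (Finset.univ : Finset (Fin N)),
      ‖b.repr ⟨k, hk⟩ i • (T (b i : E) - (b i : E))‖ ≤
        C * ‖k‖ * (1 / (12 * ((N : ℝ) * C + 1))) := by
    intro i _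
    rw [norm_smul, Real.norm_eq_abs]
    exact mul_le_mul (hC ⟨k, hk⟩ i) (hT i) (norm_nonneg _) (by positivity)
  refine (Finset.sum_le_sum h3).trans ?_
  rw [Finset.sum_const, Finset.card_univ, Fintype.card_fin, nsmul_eq_mul]
  have hNC : 0 ≤ (N : ℝ) * C := by positivity
  have h4 : (N : ℝ) * (C * ‖k‖ * (1 / (12 * ((N : ℝ) * C + 1)))) =
      ‖k‖ / 12 * ((N : ℝ) * C / ((N : ℝ) * C + 1)) := by
    field_simp
  rw [h4]
  refine mul_le_of_le_one_right (by positivity) ?_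
  rw [div_le_one (by positivity)]
  linarith

/-- the step -/
theorem step_near [CompleteSpace E] [SeparableSpace E] (htr : Trans E) {F : E →L[ℝ] E}
    (hF : Ker F) {x₁ : E} (hx₁ : ‖x₁‖ = 1) :
    ∃ t : ℝ, 0 < t ∧ ∀ (g : E ≃ₗᵢ[ℝ] E) (y : E), ‖y‖ = 1 → ‖y - g x₁‖ ≤ t → ∀ η : ℝ, 0 < η →
      ∃ h : E ≃ₗᵢ[ℝ] E, Near F g h ∧ ‖h x₁ - y‖ ≤ η := by
  have : FiniteDimensional ℝ (rg F) := hF.fin
  obtain ⟨ι, _, e, κ, hκ, hT⟩ := basis_near (rg F)
  obtain ⟨t, ht, ho⟩ := near_open htr e x₁ hx₁ hκ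
  refine ⟨t, ht, fun g y hy hyg η hη => ?_⟩
  obtain ⟨T, hT1, hT2⟩ := ho (g.symm y) (by rw [g.symm.norm_map, hy]) (by
    have : g.symm y - x₁ = g.symm (y - g x₁) := by rw [map_sub, g.symm_apply_apply]
    rw [this, g.symm.norm_map]; exact hyg) η hη
  refine ⟨T.trans g, fun k hk => ?_, ?_⟩
  · rw [LinearIsometryEquiv.trans_apply, ← map_sub, g.norm_map, norm_sub_rev]
    exact hT T hT2 k hk
  · rw [LinearIsometryEquiv.trans_apply]
    have : g (T x₁) - y = g (T x₁ - g.symm y) := by rw [map_sub, g.apply_symm_apply]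
    rw [this, g.norm_map]; exact hT1

/-- normalisation is Lipschitz -/
theorem normalize_lip {v w : E} (hv : v ≠ 0) (hw : w ≠ 0) :
    ‖‖v‖⁻¹ • v - ‖w‖⁻¹ • w‖ ≤ 2 * ‖v - w‖ / ‖v‖ := by
  have hv' : 0 < ‖v‖ := norm_pos_iff.2 hv
  have hw' : 0 < ‖w‖ := norm_pos_iff.2 hw
  have h1 : ‖v‖⁻¹ • v - ‖w‖⁻¹ • w = ‖v‖⁻¹ • ((v - w) + (‖w‖ - ‖v‖) • (‖w‖⁻¹ • w)) := by
    have : (‖w‖ - ‖v‖) • (‖w‖⁻¹ • w) = w - ‖v‖ • (‖w‖⁻¹ • w) := by
      rw [sub_smul, smul_smul, mul_inv_cancel₀ hw'.ne', one_smul]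
    rw [this]
    have h2 : v - w + (w - ‖v‖ • (‖w‖⁻¹ • w)) = v - ‖v‖ • (‖w‖⁻¹ • w) := by abel
    rw [h2, smul_sub, smul_smul ‖v‖⁻¹ ‖v‖, inv_mul_cancel₀ hv'.ne', one_smul]
  rw [h1, norm_smul, norm_inv, norm_norm, div_eq_inv_mul]
  refine mul_le_mul_of_nonneg_left ?_ (by positivity)
  refine (norm_add_le _ _).trans ?_
  have h3 : ‖(‖w‖ - ‖v‖) • (‖w‖⁻¹ • w)‖ ≤ ‖v - w‖ := by
    rw [norm_smul, norm_smul, norm_inv, norm_norm, inv_mul_cancel₀ hw'.ne', mul_one,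
      Real.norm_eq_abs, abs_sub_comm]
    exact abs_norm_sub_norm_le v w
  linarith

/-- the denominator -/
theorem denom {x y : E} (hx : ‖x‖ = 1) (hy : ‖y‖ = 1) (hxy : 1 ≤ ‖x + y‖) {s : ℝ} (h0 : 0 ≤ s)
    (h1 : s ≤ 1) : 1 / 4 ≤ ‖(1 - s) • x + s • y‖ := by
  have a1 : 1 - 2 * s ≤ ‖(1 - s) • x + s • y‖ := by
    have h2 : ‖(1 - s) • x‖ ≤ ‖(1 - s) • x + s • y‖ + ‖s • y‖ := by
      have : (1 - s) • x = ((1 - s) • x + s • y) - s • y := by abel
      conv_lhs => rw [this]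
      exact norm_sub_le _ _
    rw [norm_smul, norm_smul, hx, hy, Real.norm_eq_abs, Real.norm_eq_abs, abs_of_nonneg h0,
      abs_of_nonneg (by linarith : (0 : ℝ) ≤ 1 - s)] at h2
    linarith
  have a2 : 2 * s - 1 ≤ ‖(1 - s) • x + s • y‖ := by
    have h2 : ‖s • y‖ ≤ ‖(1 - s) • x + s • y‖ + ‖(1 - s) • x‖ := by
      have : s • y = ((1 - s) • x + s • y) - (1 - s) • x := by abel
      conv_lhs => rw [this]
      exact norm_sub_le _ _
    rw [norm_smul, norm_smul, hx, hy, Real.norm_eq_abs, Real.norm_eq_abs, abs_of_nonneg h0,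
      abs_of_nonneg (by linarith : (0 : ℝ) ≤ 1 - s)] at h2
    linarith
  have a3 : 1 / 2 - |1 - 2 * s| ≤ ‖(1 - s) • x + s • y‖ := by
    have h2 : (1 / 2 : ℝ) • (x + y) = ((1 - s) • x + s • y) + (s - 1 / 2) • (x - y) := by module
    have h3 : ‖(1 / 2 : ℝ) • (x + y)‖ ≤ ‖(1 - s) • x + s • y‖ + ‖(s - 1 / 2) • (x - y)‖ := by
      rw [h2]; exact norm_add_le _ _
    rw [norm_smul, norm_smul, Real.norm_eq_abs, Real.norm_eq_abs,
      abs_of_nonneg (by norm_num : (0 : ℝ) ≤ 1 / 2)] at h3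
    have h4 : ‖x - y‖ ≤ 2 := by
      refine (norm_sub_le _ _).trans ?_
      rw [hx, hy]; norm_num
    have h5 : |s - 1 / 2| * ‖x - y‖ ≤ |s - 1 / 2| * 2 :=
      mul_le_mul_of_nonneg_left h4 (abs_nonneg _)
    have h6 : |s - 1 / 2| * 2 = |1 - 2 * s| := by
      rw [abs_sub_comm s (1 / 2)]
      have : (1 : ℝ) - 2 * s = (1 / 2 - s) * 2 := by ring
      rw [this, abs_mul, abs_of_pos (by norm_num : (0 : ℝ) < 2)]
    linarith
  rcases abs_cases (1 - 2 * s) with ⟨h, _⟩ | ⟨h, _⟩ <;> rw [h] at a3 <;> linarith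

theorem chain : S_CHAIN := by
  intro E _ _ _ _ _ htr F hF x₁ _ hx₁
  obtain ⟨t, ht, hstep⟩ := step_near htr hF hx₁
  obtain ⟨n, hn⟩ : ∃ n : ℕ, 32 / t + 1 ≤ n := exists_nat_ge _
  have hn0 : (0 : ℝ) < n := by
    have : 0 < 32 / t := by positivity
    linarith
  refine ⟨n, fun y hy η hη => ?_⟩
  -- the starting point
  obtain ⟨g₀, hg₀, hxy⟩ : ∃ g₀ : E ≃ₗᵢ[ℝ] E, kr F g₀ = rg F ∧ 1 ≤ ‖g₀ x₁ + y‖ := by
    by_cases h : 1 ≤ ‖x₁ + y‖
    · refine ⟨LinearIsometryEquiv.refl ℝ E, ?_, h⟩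
      ext k
      rw [mem_kr]
      constructor
      · rintro ⟨k₀, hk₀, rfl⟩; exact hk₀
      · exact fun hk => ⟨k, hk, rfl⟩
    · refine ⟨LinearIsometryEquiv.neg ℝ, ?_, ?_⟩
      · ext k
        rw [mem_kr]
        constructor
        · rintro ⟨k₀, hk₀, rfl⟩; exact (rg F).neg_mem hk₀
        · exact fun hk => ⟨-k, (rg F).neg_mem hk, neg_neg k⟩
      · show 1 ≤ ‖-x₁ + y‖
        have h2 : ‖(2 : ℝ) • y‖ ≤ ‖-x₁ + y‖ + ‖x₁ + y‖ := by
          have : (2 : ℝ) • y = (-x₁ + y) + (x₁ + y) := by module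
          rw [this]; exact norm_add_le _ _
        rw [norm_smul, hy, Real.norm_eq_abs, abs_of_pos (by norm_num : (0 : ℝ) < 2)] at h2
        linarith
  set x : E := g₀ x₁ with hx
  have hxn : ‖x‖ = 1 := by rw [hx, g₀.norm_map, hx₁]
  set v : ℝ → E := fun s => (1 - s) • x + s • y with hv
  have hden : ∀ s : ℝ, 0 ≤ s → s ≤ 1 → 1 / 4 ≤ ‖v s‖ := fun s h0 h1 => denom hxn hy hxy h0 h1
  set z : ℕ → E := fun i => ‖v (i / n)‖⁻¹ • v (i / n) with hz
  have hin : ∀ i : ℕ, i ≤ n → (0 : ℝ) ≤ i / n ∧ (i : ℝ) / n ≤ 1 := by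
    intro i hi
    refine ⟨by positivity, ?_⟩
    rw [div_le_one hn0]
    exact_mod_cast hi
  have hz1 : ∀ i : ℕ, i ≤ n → ‖z i‖ = 1 := by
    intro i hi
    have h1 := hden _ (hin i hi).1 (hin i hi).2
    rw [hz]
    simp only
    rw [norm_smul, norm_inv, norm_norm, inv_mul_cancel₀]
    intro h; rw [h] at h1; linarith
  have hzstep : ∀ i : ℕ, i + 1 ≤ n → ‖z (i + 1) - z i‖ ≤ t / 2 := by
    intro i hi
    have h1 := hden _ (hin (i + 1) hi).1 (hin (i + 1) hi).2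
    have h2 := hden _ (hin i (by omega)).1 (hin i (by omega)).2
    have hv1 : v (((i + 1 : ℕ) : ℝ) / n) ≠ 0 := by
      intro h; rw [h, norm_zero] at h1; linarith
    have hv2 : v ((i : ℝ) / n) ≠ 0 := by
      intro h; rw [h, norm_zero] at h2; linarith
    refine (normalize_lip hv1 hv2).trans ?_
    have h3 : v (((i + 1 : ℕ) : ℝ) / n) - v ((i : ℝ) / n) = (1 / (n : ℝ)) • (y - x) := by
      rw [hv]
      simp only
      have : ((i + 1 : ℕ) : ℝ) / n = (i : ℝ) / n + 1 / n := by push_cast; ring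
      rw [this]
      module
    have h4 : ‖v (((i + 1 : ℕ) : ℝ) / n) - v ((i : ℝ) / n)‖ ≤ 1 / n * 2 := by
      rw [h3, norm_smul, Real.norm_eq_abs, abs_of_pos (by positivity)]
      refine mul_le_mul_of_nonneg_left ?_ (by positivity)
      refine (norm_sub_le _ _).trans ?_
      rw [hxn, hy]; norm_num
    rw [div_le_iff₀ (by linarith)]
    have h5 : 32 ≤ t * n := by
      have h6 : 32 / t ≤ n := by linarith
      rw [div_le_iff₀ ht] at h6
      linarith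
    have h7 : (4 : ℝ) / n ≤ t / 8 := by
      rw [div_le_iff₀ hn0]; linarith
    have h8 : t / 8 ≤ t / 2 * ‖v (((i + 1 : ℕ) : ℝ) / n)‖ := by nlinarith
    calc 2 * ‖v (((i + 1 : ℕ) : ℝ) / n) - v ((i : ℝ) / n)‖ ≤ 2 * (1 / n * 2) := by linarith
      _ = 4 / n := by ring
      _ ≤ _ := h7.trans h8
  have hind : ∀ i : ℕ, i ≤ n → ∀ η : ℝ, 0 < η →
      ∃ g : E ≃ₗᵢ[ℝ] E, Reach F i g ∧ ‖g x₁ - z i‖ ≤ η := by
    intro i
    induction i with
    | zero =>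
      intro _ η hη
      refine ⟨g₀, hg₀, ?_⟩
      have : z 0 = x := by
        rw [hz]
        simp only [Nat.cast_zero, zero_div, hv, sub_zero, one_smul, zero_smul, add_zero, hxn,
          inv_one]
      rw [this, ← hx, sub_self, norm_zero]
      exact hη.le
    | succ i ih =>
      intro hi η hη
      obtain ⟨g, hg, hgz⟩ := ih (by omega) (t / 2) (by positivity)
      obtain ⟨h, hh, hhz⟩ := hstep g (z (i + 1)) (hz1 _ hi) (by
        have h1 : z (i + 1) - g x₁ = (z (i + 1) - z i) - (g x₁ - z i) := by abel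
        rw [h1]
        refine (norm_sub_le _ _).trans ?_
        have := hzstep i hi
        linarith) η hη
      exact ⟨h, ⟨g, hg, hh⟩, hhz⟩
  obtain ⟨g, hg, hgy⟩ := hind n le_rfl η hη
  refine ⟨g, hg, ?_⟩
  have : z n = y := by
    rw [hz]
    simp only [div_self hn0.ne', hv, sub_self, zero_smul, one_smul, zero_add, hy, inv_one]
  rwa [this] at hgy

end Pool.Agent.H80.MR
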