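import Pool.Agent.H80.MR.Stm

set_option autoImplicit false

namespace Pool.Agent.H80.MR

theorem fin : S_REACH → S_FIN := by
  intro hR E _ _ F hK x₁ hx₁ hn₁ n hCh m B C c hm hS hc hBC hBc
  have hm0 : 0 < m := by linarith
  set c' : ℝ := c / (2 * m) ^ n with hc'
  have hc'p : 0 < c' := by positivity
  have hC0 : 0 ≤ C := by
    have h1 := hBC x₁
    have h2 := hS.nonneg x₁
    rw [hn₁] at h1
    linarith
  -- the bound at reached points
  have hreach : ∀ g : E ≃ₗᵢ[ℝ] E, Reach F n g → c' ≤ B (g x₁) (g x₁) := by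
    intro g hg
    obtain ⟨W, hW, hkW, h⟩ := hR E F hK m hm n g hg
    have h1 := (h ⊤ le_top B hS c hc.le).2 hBc (g x₁) (Submodule.mem_map.2 ⟨x₁, hx₁, rfl⟩)
    rw [g.norm_map, hn₁] at h1
    simpa using h1
  -- the bound on the sphere
  have hunit : ∀ y : E, ‖y‖ = 1 → c' ≤ B y y := by
    intro y hy
    have hyy := hS.nonneg y
    have key : ∀ δ : ℝ, 0 < δ → δ ≤ 1 → c' ≤ B y y + δ * (B y y + 2 * C) := by
      intro δ hδ hδ1
      obtain ⟨g, hg, hgy⟩ := hCh y hy δ hδ
      have h1 := hreach g hg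
      set w : E := g x₁ - y with hw
      have hz : g x₁ = y + w := by rw [hw]; abel
      rw [hz] at h1
      have e1 : B (y + w) (y + w) = B y y + 2 * B y w + B w w := by
        simp only [map_add, LinearMap.add_apply]
        rw [hS.symm w y]
        ring
      have e2 := hS.nonneg (δ • y - w)
      have e3 : B (δ • y - w) (δ • y - w) = δ ^ 2 * B y y - 2 * δ * B y w + B w w := by
        simp only [map_sub, LinearMap.sub_apply, map_smul, LinearMap.smul_apply, smul_eq_mul]
        rw [hS.symm w y]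
        ring
      have e4 : B w w ≤ C * δ ^ 2 := by
        refine (hBC w).trans ?_
        have : ‖w‖ ^ 2 ≤ δ ^ 2 := pow_le_pow_left₀ (norm_nonneg _) hgy 2
        exact mul_le_mul_of_nonneg_left this hC0
      rw [e1] at h1
      rw [e3] at e2
      have e5 : 2 * B y w ≤ δ * B y y + C * δ := by
        have : δ * (2 * B y w) ≤ δ * (δ * B y y + C * δ) := by nlinarith
        exact le_of_mul_le_mul_left this hδ
      have e6 : C * δ ^ 2 ≤ C * δ := by
        have : δ ^ 2 ≤ δ := by nlinarith
        exact mul_le_mul_of_nonneg_left this hC0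
      nlinarith
    refine le_of_forall_pos_le_add fun ε hε => ?_
    have hpos : 0 < B y y + 2 * C + 1 := by linarith
    have h1 := key (min 1 (ε / (B y y + 2 * C + 1))) (lt_min one_pos (by positivity))
      (min_le_left _ _)
    have h2 : min 1 (ε / (B y y + 2 * C + 1)) * (B y y + 2 * C) ≤ ε := by
      calc min 1 (ε / (B y y + 2 * C + 1)) * (B y y + 2 * C)
          ≤ (ε / (B y y + 2 * C + 1)) * (B y y + 2 * C) :=
            mul_le_mul_of_nonneg_right (min_le_right _ _) (by linarith)
        _ ≤ (ε / (B y y + 2 * C + 1)) * (B y y + 2 * C + 1) :=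
            mul_le_mul_of_nonneg_left (by linarith) (by positivity)
        _ = ε := by field_simp
    linarith
  refine ⟨c', hc'p, fun u => ?_⟩
  rcases eq_or_ne u 0 with h | h
  · subst h
    simp
  · have hn : 0 < ‖u‖ := norm_pos_iff.2 h
    have h1 := hunit (‖u‖⁻¹ • u) (by rw [norm_smul, norm_inv, norm_norm, inv_mul_cancel₀ hn.ne'])
    simp only [map_smul, LinearMap.smul_apply, smul_eq_mul] at h1
    have h2 := mul_le_mul_of_nonneg_right h1 (sq_nonneg ‖u‖)
    calc c' * ‖u‖ ^ 2 ≤ ‖u‖⁻¹ * (‖u‖⁻¹ * B u u) * ‖u‖ ^ 2 := h2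
      _ = B u u := by field_simp

end Pool.Agent.H80.MR
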