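import Pool.Agent.H80.MR.Stm

set_option autoImplicit false

namespace Pool.Agent.H80.MR

theorem form : S_JOHN → S_FORM := by
  intro hJ E _ _ F hF L hL
  haveI := hL
  obtain ⟨B, hs, hp, hB⟩ := hJ L
  obtain ⟨π, hπ⟩ := LinearMap.exists_leftInverse_of_injective L.subtype L.ker_subtype
  have hπ' : ∀ u : L, π (u : E) = u := fun u => LinearMap.congr_fun hπ u
  refine ⟨B.compl₁₂ π π, ⟨fun u v => hs _ _, ?_, ?_⟩, ?_⟩
  · intro u
    show 0 ≤ B (π u) (π u)
    by_cases h : π u = 0
    · rw [h]; simp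
    · exact (hp _ h).le
  · intro g hg u hu
    have hcj : ∀ x : E, cj F g x ∈ kr F g := by
      intro x
      refine Submodule.mem_map.2 ⟨F (g.symm x), ⟨g.symm x, rfl⟩, rfl⟩
    have hmap : ∀ x ∈ L, cj F g x ∈ L := fun x _ => hg (hcj x)
    have happ : ∀ x : E, cj F g x = g (F (g.symm x)) := fun x => rfl
    set G : L →ₗ[ℝ] L := (cj F g).restrict hmap with hG
    have hGa : ∀ x : L, ((G x : L) : E) = g (F (g.symm (x : E))) := fun x => rfl
    have h1 : ∀ x, G (G x) = G x := by
      intro x
      apply Subtype.ext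
      rw [hGa, hGa, g.symm_apply_apply, hF.idem]
    have h2 : ∀ x, ‖x - G x‖ ≤ ‖x‖ := by
      intro x
      have : ‖x - G x‖ = ‖(x : E) - g (F (g.symm (x : E)))‖ := rfl
      rw [this]
      have h3 : (x : E) - g (F (g.symm (x : E))) = g (g.symm (x : E) - F (g.symm (x : E))) := by
        rw [map_sub, g.apply_symm_apply]
      rw [h3, g.norm_map]
      refine (hF.contr _).trans ?_
      rw [g.symm.norm_map]
      exact le_rfl
    have h3 := hB G h1 h2 ⟨u, hu⟩
    have h4 : Module.finrank ℝ (LinearMap.range G) ≤ Module.finrank ℝ (rg F) := by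
      haveI : FiniteDimensional ℝ (rg F) := hF.fin
      have h5 : Module.finrank ℝ (kr F g) = Module.finrank ℝ (rg F) :=
        LinearEquiv.finrank_map_eq g.toLinearEquiv (rg F)
      rw [← h5]
      haveI : FiniteDimensional ℝ (kr F g) := by
        unfold kr
        infer_instance
      have h6 : (LinearMap.range G).map L.subtype ≤ kr F g := by
        rintro x ⟨y, ⟨z, rfl⟩, rfl⟩
        exact hcj z
      calc Module.finrank ℝ (LinearMap.range G)
          = Module.finrank ℝ ((LinearMap.range G).map L.subtype) :=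
            (LinearEquiv.finrank_eq (Submodule.equivMapOfInjective L.subtype
              L.injective_subtype (LinearMap.range G)))
        _ ≤ Module.finrank ℝ (kr F g) := Submodule.finrank_mono h6
    have h7 : π (cj F g u) = G ⟨u, hu⟩ := by
      have : cj F g u = ((G ⟨u, hu⟩ : L) : E) := rfl
      rw [this, hπ']
    have h8 : π u = ⟨u, hu⟩ := hπ' ⟨u, hu⟩
    show B (π (cj F g u)) (π (cj F g u)) ≤ 2 * (Module.finrank ℝ (rg F) : ℝ) * B (π u) (π u)
    rw [h7, h8]
    refine h3.trans ?_
    have h9 : 0 ≤ B ⟨u, hu⟩ ⟨u, hu⟩ := by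
      by_cases h : (⟨u, hu⟩ : L) = 0
      · rw [h]; simp
      · exact (hp _ h).le
    refine mul_le_mul_of_nonneg_right ?_ h9
    have : (Module.finrank ℝ (LinearMap.range G) : ℝ) ≤ Module.finrank ℝ (rg F) := by
      exact_mod_cast h4
    linarith
  · intro u hu hu0
    show 0 < B (π u) (π u)
    have h8 : π u = ⟨u, hu⟩ := hπ' ⟨u, hu⟩
    rw [h8]
    exact hp _ (fun h => hu0 (congrArg Subtype.val h))

end Pool.Agent.H80.MR
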