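import Pool.Agent.H80.MR.Stm

set_option autoImplicit false

namespace Pool.Agent.H80.MR

/-- `E` with another inner product -/
def HB (E : Type) : Type := E

section
variable {E : Type} [NormedAddCommGroup E] [NormedSpace ℝ E]

instance HB.acg : AddCommGroup (HB E) := inferInstanceAs (AddCommGroup E)

instance HB.mod : Module ℝ (HB E) := inferInstanceAs (Module ℝ E)

/-- the identity -/
def HB.e : E ≃ₗ[ℝ] HB E := LinearEquiv.refl ℝ E

/-- the inner product -/
@[reducible] def HB.core (B : E →ₗ[ℝ] E →ₗ[ℝ] ℝ) (hs : ∀ u v, B u v = B v u)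
    (hn : ∀ u, 0 ≤ B u u) (hd : ∀ u, B u u = 0 → u = 0) : InnerProductSpace.Core ℝ (HB E) where
  inner u v := B (HB.e.symm u) (HB.e.symm v)
  conj_inner_symm u v := by
    show (starRingEnd ℝ) (B (HB.e.symm v) (HB.e.symm u)) = B (HB.e.symm u) (HB.e.symm v)
    rw [hs (HB.e.symm u)]
    simp
  re_inner_nonneg u := by
    show 0 ≤ RCLike.re (B (HB.e.symm u) (HB.e.symm u))
    simpa using hn _
  add_left u v w := by
    show B (HB.e.symm (u + v)) (HB.e.symm w) =
      B (HB.e.symm u) (HB.e.symm w) + B (HB.e.symm v) (HB.e.symm w)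
    rw [map_add, map_add, LinearMap.add_apply]
  smul_left u v r := by
    show B (HB.e.symm (r • u)) (HB.e.symm v) = (starRingEnd ℝ) r * B (HB.e.symm u) (HB.e.symm v)
    rw [map_smul, map_smul, LinearMap.smul_apply]
    simp
  definite u h := by
    have : HB.e.symm u = 0 := hd _ h
    have h2 : u = HB.e (HB.e.symm u) := rfl
    rw [h2, this, map_zero]

end

theorem hil : S_HIL := by
  intro E _ _ _ B C c hs hc hC hB
  have hn : ∀ u, 0 ≤ B u u := fun u => (by positivity : 0 ≤ c * ‖u‖ ^ 2).trans (hB u)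
  have hd : ∀ u, B u u = 0 → u = 0 := by
    intro u h
    have h1 := hB u
    rw [h] at h1
    by_contra h2
    have h3 : 0 < ‖u‖ := norm_pos_iff.2 h2
    have : 0 < c * ‖u‖ ^ 2 := by positivity
    linarith
  let core := HB.core B hs hn hd
  let i1 : NormedAddCommGroup (HB E) := core.toNormedAddCommGroup
  let i2 : InnerProductSpace ℝ (HB E) := InnerProductSpace.ofCore core.toCore
  have hnorm : ∀ u : E, ‖(HB.e u : HB E)‖ ^ 2 = B u u := by
    intro u
    rw [← real_inner_self_eq_norm_sq]
    rfl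
  have hC0 : ∀ u : E, B u u ≤ |C| * ‖u‖ ^ 2 := fun u =>
    (hC u).trans (mul_le_mul_of_nonneg_right (le_abs_self C) (by positivity))
  let e : E ≃L[ℝ] HB E := LinearEquiv.toContinuousLinearEquivOfBounds HB.e (√|C|) (√c⁻¹)
    (by
      intro u
      refine le_of_sq_le_sq ?_ (by positivity)
      rw [hnorm, mul_pow, Real.sq_sqrt (abs_nonneg C)]
      exact hC0 u)
    (by
      intro v
      obtain ⟨u, rfl⟩ := HB.e.surjective v
      rw [LinearEquiv.symm_apply_apply]
      refine le_of_sq_le_sq ?_ (by positivity)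
      rw [mul_pow, Real.sq_sqrt (by positivity), hnorm]
      rw [inv_mul_eq_div, le_div_iff₀ hc, mul_comm]
      exact hB u)
  refine ⟨HB E, i1, i2, ?_, ⟨e⟩⟩
  exact (completeSpace_congr (e := e.toEquiv) e.isUniformEmbedding).1 inferInstance

end Pool.Agent.H80.MR
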