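import Pool.Agent.H80.MR.Stm

/-!
# Stub MR-UP (and basic facts about `cj`, `kr`)
-/

set_option autoImplicit false

namespace Pool.Agent.H80.MR

variable {E : Type} [NormedAddCommGroup E] [NormedSpace ℝ E]

theorem cj_apply (F : E →L[ℝ] E) (g : E ≃ₗᵢ[ℝ] E) (x : E) : cj F g x = g (F (g.symm x)) := rfl

theorem mem_rg {F : E →L[ℝ] E} {k : E} : k ∈ rg F ↔ ∃ x, F x = k := Iff.rfl

theorem mem_kr {F : E →L[ℝ] E} {g : E ≃ₗᵢ[ℝ] E} {k : E} : k ∈ kr F g ↔ ∃ k₀ ∈ rg F, g k₀ = k :=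
  Iff.rfl

theorem cj_mem (F : E →L[ℝ] E) (g : E ≃ₗᵢ[ℝ] E) (x : E) : cj F g x ∈ kr F g :=
  mem_kr.2 ⟨F (g.symm x), mem_rg.2 ⟨_, rfl⟩, rfl⟩

theorem Ker.fix {F : E →L[ℝ] E} (hF : Ker F) {k : E} (hk : k ∈ rg F) : F k = k := by
  obtain ⟨x, rfl⟩ := mem_rg.1 hk
  exact hF.idem x

theorem Ker.norm_le {F : E →L[ℝ] E} (hF : Ker F) (x : E) : ‖F x‖ ≤ 2 * ‖x‖ := by
  have h1 : F x = x - (x - F x) := by abel
  rw [h1]
  refine (norm_sub_le _ _).trans ?_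
  have := hF.contr x
  linarith

theorem cj_norm_le {F : E →L[ℝ] E} (hF : Ker F) (g : E ≃ₗᵢ[ℝ] E) (x : E) :
    ‖cj F g x‖ ≤ 2 * ‖x‖ := by
  rw [cj_apply, g.norm_map]
  refine (hF.norm_le _).trans ?_
  rw [g.symm.norm_map]

theorem cj_fix {F : E →L[ℝ] E} (hF : Ker F) {g : E ≃ₗᵢ[ℝ] E} {k : E} (hk : k ∈ kr F g) :
    cj F g k = k := by
  obtain ⟨k₀, hk₀, rfl⟩ := mem_kr.1 hk
  rw [cj_apply, g.symm_apply_apply, hF.fix hk₀]

theorem Near.symm {F : E →L[ℝ] E} {g h : E ≃ₗᵢ[ℝ] E} (hn : Near F g h) : Near F h g := by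
  intro k hk
  rw [norm_sub_rev]
  exact hn k hk

theorem near_cj {F : E →L[ℝ] E} (hF : Ker F) {g h : E ≃ₗᵢ[ℝ] E} (hn : Near F g h) {k : E}
    (hk : k ∈ kr F g) : ‖cj F h k - k‖ ≤ ‖k‖ / 4 := by
  obtain ⟨k₀, hk₀, rfl⟩ := mem_kr.1 hk
  obtain ⟨d, hd⟩ : ∃ d : E, d = h.symm (g k₀) - k₀ := ⟨_, rfl⟩
  have hdn : ‖d‖ ≤ ‖k₀‖ / 12 := by
    have h1 : h d = g k₀ - h k₀ := by rw [hd, map_sub, h.apply_symm_apply]
    rw [← h.norm_map, h1]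
    exact hn k₀ hk₀
  have h2 : cj F h (g k₀) - g k₀ = (h k₀ - g k₀) + h (F d) := by
    rw [cj_apply]
    have h3 : h.symm (g k₀) = k₀ + d := by rw [hd]; abel
    rw [h3, map_add F, hF.fix hk₀, map_add]
    abel
  rw [h2, g.norm_map]
  refine (norm_add_le _ _).trans ?_
  rw [h.norm_map]
  have h4 := hF.norm_le d
  have h5 : ‖h k₀ - g k₀‖ ≤ ‖k₀‖ / 12 := by rw [norm_sub_rev]; exact hn k₀ hk₀
  linarith

theorem near_low {F : E →L[ℝ] E} (hF : Ker F) {g h : E ≃ₗᵢ[ℝ] E} (hn : Near F g h) {k : E}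
    (hk : k ∈ kr F g) : 3 / 4 * ‖k‖ ≤ ‖cj F h k‖ := by
  have h1 := near_cj hF hn hk
  have h2 : ‖k‖ ≤ ‖cj F h k‖ + ‖cj F h k - k‖ := by
    have h3 : k = cj F h k - (cj F h k - k) := by abel
    conv_lhs => rw [h3]
    exact norm_sub_le _ _
  linarith

instance kr_fin {F : E →L[ℝ] E} [FiniteDimensional ℝ (rg F)] (g : E ≃ₗᵢ[ℝ] E) :
    FiniteDimensional ℝ (kr F g) := by
  unfold kr
  infer_instance

theorem kr_finrank (F : E →L[ℝ] E) (g : E ≃ₗᵢ[ℝ] E) :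
    Module.finrank ℝ (kr F g) = Module.finrank ℝ (rg F) :=
  LinearEquiv.finrank_map_eq g.toLinearEquiv (rg F)

theorem near_surj {F : E →L[ℝ] E} (hF : Ker F) {g h : E ≃ₗᵢ[ℝ] E} (hn : Near F g h) {k' : E}
    (hk' : k' ∈ kr F h) : ∃ k ∈ kr F g, cj F h k = k' := by
  have : FiniteDimensional ℝ (rg F) := hF.fin
  let f : kr F g →ₗ[ℝ] kr F h :=
    ((cj F h).comp (kr F g).subtype).codRestrict (kr F h) (fun x => cj_mem F h _)
  have hf : ∀ x : kr F g, (f x : E) = cj F h (x : E) := fun x => rfl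
  have hinj : Function.Injective f := by
    rw [← LinearMap.ker_eq_bot, LinearMap.ker_eq_bot']
    intro x hx
    have h1 := near_low hF hn x.2
    rw [← hf, hx] at h1
    simp only [ZeroMemClass.coe_zero, norm_zero] at h1
    have h2 : ‖(x : E)‖ = 0 := le_antisymm (by linarith) (norm_nonneg _)
    exact Subtype.ext (norm_eq_zero.1 h2)
  have hsurj := (LinearMap.injective_iff_surjective_of_finrank_eq_finrank
    ((kr_finrank F g).trans (kr_finrank F h).symm) (f := f)).1 hinj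
  obtain ⟨x, hx⟩ := hsurj ⟨k', hk'⟩
  exact ⟨x, x.2, by rw [← hf, hx]⟩

theorem up : S_UP := by
  intro E _ _ F hF m L b hm hb g h hn hg hh c hc hup k' hk'
  obtain ⟨k, hk, rfl⟩ := near_surj hF hn hk'
  have h1 := near_low hF hn hk
  have h2 := hb.star h hh k (hg hk)
  have h3 := hup k hk
  have h4 : ‖k‖ ^ 2 ≤ 2 * ‖cj F h k‖ ^ 2 := by
    have h5 : (3 / 4 * ‖k‖) ^ 2 ≤ ‖cj F h k‖ ^ 2 := by gcongr
    nlinarith [sq_nonneg ‖cj F h k‖]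
  calc b (cj F h k) (cj F h k) ≤ m * b k k := h2
    _ ≤ m * (c * ‖k‖ ^ 2) := by gcongr
    _ ≤ m * (c * (2 * ‖cj F h k‖ ^ 2)) := by gcongr
    _ = 2 * m * c * ‖cj F h k‖ ^ 2 := by ring

end Pool.Agent.H80.MR
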