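import Pool.Agent.H80.MR.Stm2
import Pool.Agent.H80.MR.UP
import Pool.Agent.H80.MR.CHAIN

/-!
# Stub MB-IRR: the conjugates of `F` have no common invariant subspace
-/

set_option autoImplicit false

namespace Pool.Agent.H80.MR

variable {E : Type} [NormedAddCommGroup E] [NormedSpace ℝ E]

/-- invariant subspaces -/
def Inv (F : E →L[ℝ] E) (A : Submodule ℝ E) : Prop := ∀ g : E ≃ₗᵢ[ℝ] E, ∀ u ∈ A, cj F g u ∈ A

/-- the smallest invariant subspace containing `u` -/
def gen (F : E →L[ℝ] E) (u : E) : Submodule ℝ E := sInf {A | Inv F A ∧ u ∈ A}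

theorem gen_le {F : E →L[ℝ] E} {A : Submodule ℝ E} {u : E} (hA : Inv F A) (hu : u ∈ A) :
    gen F u ≤ A := sInf_le ⟨hA, hu⟩

theorem mem_gen (F : E →L[ℝ] E) (u : E) : u ∈ gen F u := by
  unfold gen
  rw [Submodule.mem_sInf]
  exact fun A hA => hA.2

theorem inv_gen (F : E →L[ℝ] E) (u : E) : Inv F (gen F u) := by
  intro g v hv
  unfold gen at hv ⊢
  rw [Submodule.mem_sInf] at hv ⊢
  exact fun A hA => hA.1 g v (hv A hA)

theorem gen_smul (F : E →L[ℝ] E) {c : ℝ} (hc : c ≠ 0) (u : E) : gen F (c • u) = gen F u := by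
  refine le_antisymm (gen_le (inv_gen F u) (Submodule.smul_mem _ _ (mem_gen F u)))
    (gen_le (inv_gen F _) ?_)
  have h := Submodule.smul_mem (gen F (c • u)) c⁻¹ (mem_gen F (c • u))
  rwa [smul_smul, inv_mul_cancel₀ hc, one_smul] at h

theorem gen_neg (F : E →L[ℝ] E) (u : E) : gen F (-u) = gen F u := by
  rw [← gen_smul F (c := -1) (by norm_num) u, neg_one_smul]

theorem inv_map {F : E →L[ℝ] E} {A : Submodule ℝ E} (hA : Inv F A) (h : E ≃ₗᵢ[ℝ] E) :
    Inv F (A.map (h.toLinearEquiv : E →ₗ[ℝ] E)) := by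
  rintro g _ ⟨a, ha, rfl⟩
  refine ⟨cj F (g.trans h.symm) a, hA _ a ha, ?_⟩
  show h (h.symm (g (F (g.symm (h.symm.symm a))))) = g (F (g.symm (h a)))
  rw [h.apply_symm_apply, h.symm_symm]

theorem gen_map_le (F : E →L[ℝ] E) (h : E ≃ₗᵢ[ℝ] E) (u : E) :
    gen F (h u) ≤ (gen F u).map (h.toLinearEquiv : E →ₗ[ℝ] E) :=
  gen_le (inv_map (inv_gen F u) h) ⟨u, mem_gen F u, rfl⟩

theorem gen_map (F : E →L[ℝ] E) (h : E ≃ₗᵢ[ℝ] E) (u : E) :
    gen F (h u) = (gen F u).map (h.toLinearEquiv : E →ₗ[ℝ] E) := by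
  refine le_antisymm (gen_map_le F h u) ?_
  rintro _ ⟨a, ha, rfl⟩
  have h1 := gen_map_le F h.symm (h u)
  rw [h.symm_apply_apply] at h1
  obtain ⟨b, hb, hb2⟩ := h1 ha
  have h2 : h a = b := by
    rw [← hb2]
    show h (h.symm b) = b
    exact h.apply_symm_apply b
  show h a ∈ gen F (h u)
  rw [h2]
  exact hb

theorem kr_trans (F : E →L[ℝ] E) (g h : E ≃ₗᵢ[ℝ] E) :
    kr F (g.trans h) = (kr F g).map (h.toLinearEquiv : E →ₗ[ℝ] E) := by
  unfold kr
  rw [← Submodule.map_comp]
  rfl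

theorem exists_kr {F : E →L[ℝ] E} (htr : Trans E) {x₁ : E} (h1 : x₁ ∈ rg F) (hn : ‖x₁‖ = 1)
    {u : E} (hu : ‖u‖ = 1) : ∃ g : E ≃ₗᵢ[ℝ] E, u ∈ kr F g := by
  obtain ⟨T, hT⟩ := htr x₁ u hn hu
  exact ⟨T, x₁, h1, hT⟩

theorem irr : S_IRR := by
  intro E _ _ hinf htr F hF E₀ hE₀ hinv
  have hfin : FiniteDimensional ℝ (rg F) := hF.fin
  obtain ⟨x₁, hx₁, hn₁⟩ : ∃ x ∈ rg F, ‖x‖ = 1 := by
    obtain ⟨v, hv⟩ : ∃ v, F v ≠ 0 := by
      by_contra h
      push Not at h
      exact hF.ne (ContinuousLinearMap.ext fun x => by rw [h x]; rfl)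
    have hn : ‖F v‖ ≠ 0 := norm_ne_zero_iff.2 hv
    refine ⟨‖F v‖⁻¹ • F v, ?_, ?_⟩
    · exact Submodule.smul_mem _ _ ⟨v, rfl⟩
    · rw [norm_smul, norm_inv, norm_norm, inv_mul_cancel₀ hn]
  -- the minimal dimension
  classical
  let P : ℕ → Prop := fun j => ∃ (u : E) (g : E ≃ₗᵢ[ℝ] E), ‖u‖ = 1 ∧ u ∈ kr F g ∧
    Module.finrank ℝ (gen F u ⊓ kr F g : Submodule ℝ E) = j
  have hP : ∃ j, P j := by
    obtain ⟨g, hg⟩ := exists_kr htr hx₁ hn₁ hn₁
    exact ⟨_, x₁, g, hn₁, hg, rfl⟩
  obtain ⟨j, hj⟩ : ∃ j, j = Nat.find hP := ⟨_, rfl⟩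
  have hmin : ∀ (u : E) (g : E ≃ₗᵢ[ℝ] E), ‖u‖ = 1 → u ∈ kr F g →
      j ≤ Module.finrank ℝ (gen F u ⊓ kr F g : Submodule ℝ E) := by
    intro u g hu hg
    rw [hj]
    exact Nat.find_min' hP ⟨u, g, hu, hg, rfl⟩
  have hatt : ∀ u : E, ‖u‖ = 1 → ∃ g : E ≃ₗᵢ[ℝ] E, u ∈ kr F g ∧
      Module.finrank ℝ (gen F u ⊓ kr F g : Submodule ℝ E) = j := by
    intro u hu
    obtain ⟨u₀, g₀, hu₀, hg₀, h0⟩ := Nat.find_spec hP
    obtain ⟨T, hT⟩ := htr u₀ u hu₀ hu
    refine ⟨g₀.trans T, ?_, ?_⟩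
    · rw [kr_trans]
      exact ⟨u₀, hg₀, hT⟩
    · rw [← hT, gen_map, kr_trans, ← Submodule.map_inf _ T.toLinearEquiv.injective]
      rw [hj, ← h0]
      exact LinearEquiv.finrank_map_eq T.toLinearEquiv _
  -- (1)
  have s1 : ∀ u w : E, ‖u‖ = 1 → w ∈ gen F u → ‖w - u‖ < 1 / 2 → gen F w = gen F u := by
    intro u w hu hw hwu
    obtain ⟨g, hg, hgj⟩ := hatt u hu
    have hw1 : cj F g w ∈ gen F w := inv_gen F w g w (mem_gen F w)
    have hw2 : cj F g w ∈ kr F g := cj_mem F g w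
    have hle : gen F w ≤ gen F u := gen_le (inv_gen F u) hw
    have hle' : gen F (cj F g w) ≤ gen F w := gen_le (inv_gen F w) hw1
    have hne : cj F g w ≠ 0 := by
      intro h0
      have h1 := cj_norm_le hF g (w - u)
      rw [map_sub, h0, cj_fix hF hg, zero_sub, norm_neg, hu] at h1
      linarith
    have hnn : ‖cj F g w‖ ≠ 0 := norm_ne_zero_iff.2 hne
    have h2 : gen F (‖cj F g w‖⁻¹ • cj F g w) = gen F (cj F g w) :=
      gen_smul F (inv_ne_zero hnn) _
    have h3 := hmin (‖cj F g w‖⁻¹ • cj F g w) g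
      (by rw [norm_smul, norm_inv, norm_norm, inv_mul_cancel₀ hnn])
      (Submodule.smul_mem _ _ hw2)
    rw [h2] at h3
    have h4 : (gen F (cj F g w) ⊓ kr F g : Submodule ℝ E) ≤ gen F u ⊓ kr F g :=
      inf_le_inf_right _ (hle'.trans hle)
    have h5 : (gen F (cj F g w) ⊓ kr F g : Submodule ℝ E) = gen F u ⊓ kr F g :=
      Submodule.eq_of_le_of_finrank_le h4 (by rw [hgj]; exact h3)
    have h6 : u ∈ (gen F (cj F g w) ⊓ kr F g : Submodule ℝ E) := by
      rw [h5]
      exact ⟨mem_gen F u, hg⟩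
    exact le_antisymm hle ((gen_le (inv_gen F _) h6.1).trans hle')
  -- (2)
  have s2 : ∀ u w : E, ‖u‖ = 1 → ‖w‖ = 1 → w ∈ gen F u → 1 ≤ ‖u + w‖ →
      gen F w = gen F u := by
    intro u w hu hw hwu huw
    let z : ℕ → E := fun i => (1 - (i : ℝ) / 33) • u + ((i : ℝ) / 33) • w
    have hz : ∀ i : ℕ, i ≤ 33 → 1 / 4 ≤ ‖z i‖ := by
      intro i hi
      have hi' : (i : ℝ) ≤ 33 := by exact_mod_cast hi
      exact denom hu hw huw (by positivity) (by rw [div_le_one (by norm_num)]; exact hi')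
    have hz0 : ∀ i : ℕ, i ≤ 33 → z i ≠ 0 := by
      intro i hi h0
      have := hz i hi
      rw [h0, norm_zero] at this
      norm_num at this
    have hzg : ∀ i : ℕ, z i ∈ gen F u := fun i =>
      Submodule.add_mem _ (Submodule.smul_mem _ _ (mem_gen F u)) (Submodule.smul_mem _ _ hwu)
    have hstep : ∀ i : ℕ, i ≤ 33 → gen F (z i) = gen F u := by
      intro i
      induction i with
      | zero =>
        intro _
        have : z 0 = u := by simp [z]
        rw [this]
      | succ i ih =>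
        intro hi
        have ih' := ih (by omega)
        have a1 : z i ≠ 0 := hz0 i (by omega)
        have a2 : z (i + 1) ≠ 0 := hz0 (i + 1) hi
        have b1 : ‖z i‖ ≠ 0 := norm_ne_zero_iff.2 a1
        have b2 : ‖z (i + 1)‖ ≠ 0 := norm_ne_zero_iff.2 a2
        have c1 := s1 (‖z i‖⁻¹ • z i) (‖z (i + 1)‖⁻¹ • z (i + 1))
          (by rw [norm_smul, norm_inv, norm_norm, inv_mul_cancel₀ b1])
          (by
            rw [gen_smul F (inv_ne_zero b1), ih']
            exact Submodule.smul_mem _ _ (hzg _))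
          (by
            refine (normalize_lip a2 a1).trans_lt ?_
            have d1 : z (i + 1) - z i = (1 / 33 : ℝ) • (w - u) := by
              simp only [z]
              push_cast
              module
            have d2 : ‖z (i + 1) - z i‖ ≤ 2 / 33 := by
              rw [d1, norm_smul, Real.norm_eq_abs, abs_of_pos (by norm_num)]
              have := norm_sub_le w u
              rw [hw, hu] at this
              linarith
            have d3 := hz (i + 1) hi
            rw [div_lt_iff₀ (by linarith)]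
            linarith)
        rw [gen_smul F (inv_ne_zero b1), gen_smul F (inv_ne_zero b2), ih'] at c1
        exact c1
    have h33 : z 33 = w := by
      simp only [z]
      push_cast
      norm_num
    rw [← h33]
    exact hstep 33 le_rfl
  have s3 : ∀ u w : E, u ≠ 0 → w ≠ 0 → w ∈ gen F u → gen F w = gen F u := by
    intro u w hu hw hwu
    have b1 : ‖u‖ ≠ 0 := norm_ne_zero_iff.2 hu
    have b2 : ‖w‖ ≠ 0 := norm_ne_zero_iff.2 hw
    obtain ⟨u', hu'⟩ : ∃ u', u' = ‖u‖⁻¹ • u := ⟨_, rfl⟩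
    obtain ⟨w', hw'⟩ : ∃ w', w' = ‖w‖⁻¹ • w := ⟨_, rfl⟩
    have nu : ‖u'‖ = 1 := by rw [hu', norm_smul, norm_inv, norm_norm, inv_mul_cancel₀ b1]
    have nw : ‖w'‖ = 1 := by rw [hw', norm_smul, norm_inv, norm_norm, inv_mul_cancel₀ b2]
    have gu : gen F u' = gen F u := by rw [hu', gen_smul F (inv_ne_zero b1)]
    have gw : gen F w' = gen F w := by rw [hw', gen_smul F (inv_ne_zero b2)]
    have hmem : w' ∈ gen F u' := by
      rw [gu, hw']
      exact Submodule.smul_mem _ _ hwu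
    rw [← gu, ← gw]
    rcases le_or_gt 1 ‖u' + w'‖ with h | h
    · exact s2 u' w' nu nw hmem h
    · have h2 : 1 ≤ ‖u' + -w'‖ := by
        have h3 : (2 : ℝ) • u' = (u' + w') + (u' + -w') := by module
        have h4 : ‖(2 : ℝ) • u'‖ ≤ ‖u' + w'‖ + ‖u' + -w'‖ := by rw [h3]; exact norm_add_le _ _
        rw [norm_smul, nu, Real.norm_eq_abs, abs_of_pos (by norm_num : (0 : ℝ) < 2)] at h4
        linarith
      have h5 := s2 u' (-w') nu (by rw [norm_neg, nw]) (Submodule.neg_mem _ hmem) h2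
      rwa [gen_neg] at h5
  -- (3)
  have s4 : ∀ v : E, ‖v‖ = 1 → gen F v = ⊤ := by
    intro v hv
    have hv0 : v ≠ 0 := by
      intro h
      rw [h, norm_zero] at hv
      norm_num at hv
    obtain ⟨g, hg⟩ := exists_kr htr hx₁ hn₁ hv
    have hcov : ∀ x : E, x ∈ gen F v ∨ x ∈ kr F g := by
      intro x
      by_cases hx : x ∈ gen F v
      · exact Or.inl hx
      · right
        have hx0 : x ≠ 0 := fun h => hx (h ▸ Submodule.zero_mem _)
        have hvx : v ∉ gen F x := by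
          intro h
          rw [s3 x v hx0 hv0 h] at hx
          exact hx (mem_gen F x)
        have hw0 : v + x ≠ 0 := by
          intro h
          apply hx
          have : x = -v := by
            rw [eq_neg_iff_add_eq_zero, add_comm]
            exact h
          rw [this]
          exact Submodule.neg_mem _ (mem_gen F v)
        have hzero : x - cj F g x = 0 := by
          by_contra hne
          have h1 : x - cj F g x ∈ gen F x :=
            Submodule.sub_mem _ (mem_gen F x) (inv_gen F x g x (mem_gen F x))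
          have h2 : x - cj F g x ∈ gen F (v + x) := by
            have h3 : x - cj F g x = (v + x) - cj F g (v + x) := by
              rw [map_add, cj_fix hF hg]
              abel
            rw [h3]
            exact Submodule.sub_mem _ (mem_gen F _) (inv_gen F _ g _ (mem_gen F _))
          have h4 := s3 x _ hx0 hne h1
          have h5 := s3 (v + x) _ hw0 hne h2
          have h6 : v + x ∈ gen F x := by
            rw [← h4, h5]
            exact mem_gen F _
          apply hvx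
          have h7 := Submodule.sub_mem _ h6 (mem_gen F x)
          rwa [add_sub_cancel_right] at h7
        rw [sub_eq_zero] at hzero
        rw [hzero]
        exact cj_mem F g x
    by_contra hne
    obtain ⟨a, ha⟩ : ∃ a, a ∉ gen F v := by
      by_contra h
      push Not at h
      exact hne (eq_top_iff.2 fun x _ => h x)
    have hk : kr F g ≠ ⊤ := by
      intro h
      apply hinf
      have h1 : FiniteDimensional ℝ (kr F g) := kr_fin g
      rw [h] at h1
      exact Module.Finite.equiv (Submodule.topEquiv : (⊤ : Submodule ℝ E) ≃ₗ[ℝ] E)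
    obtain ⟨b, hb⟩ : ∃ b, b ∉ kr F g := by
      by_contra h
      push Not at h
      exact hk (eq_top_iff.2 fun x _ => h x)
    have ha' : a ∈ kr F g := (hcov a).resolve_left ha
    have hb' : b ∈ gen F v := (hcov b).resolve_right hb
    rcases hcov (a + b) with h | h
    · apply ha
      have := Submodule.sub_mem _ h hb'
      rwa [add_sub_cancel_right] at this
    · apply hb
      have := Submodule.sub_mem _ h ha'
      rwa [add_sub_cancel_left] at this
  obtain ⟨v, hv, hv0⟩ := Submodule.exists_mem_ne_zero_of_ne_bot hE₀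
  have b1 : ‖v‖ ≠ 0 := norm_ne_zero_iff.2 hv0
  have h1 := s4 (‖v‖⁻¹ • v) (by rw [norm_smul, norm_inv, norm_norm, inv_mul_cancel₀ b1])
  rw [gen_smul F (inv_ne_zero b1)] at h1
  have h2 : gen F v ≤ E₀ := gen_le hinv hv
  rw [h1] at h2
  exact top_le_iff.1 h2

end Pool.Agent.H80.MR
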