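import Pool.Agent.H80.MR.Stm

/-! MR-JOHN (helper63): a form of maximal determinant below the square of the norm -/

set_option autoImplicit false

namespace Pool.Agent.H80.MR

namespace John

open Matrix

variable {N : ℕ}

open scoped MatrixOrder in
theorem psd_fact {A : Matrix (Fin N) (Fin N) ℝ} (hA : A.PosSemidef) :
    ∃ R : Matrix (Fin N) (Fin N) ℝ, A = Rᵀ * R := by
  obtain ⟨B, hB⟩ := CStarAlgebra.nonneg_iff_eq_star_mul_self.mp hA.nonneg
  refine ⟨B, ?_⟩
  rw [hB, star_eq_conjTranspose, conjTranspose_eq_transpose_of_trivial]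

theorem dot_mulVec_self (A : Matrix (Fin N) (Fin N) ℝ) (x : Fin N → ℝ) :
    A *ᵥ x ⬝ᵥ A *ᵥ x = x ⬝ᵥ (Aᵀ * A) *ᵥ x := by
  rw [← mulVec_mulVec, dotProduct_mulVec x, vecMul_transpose]

theorem dot_self_nonneg (x : Fin N → ℝ) : 0 ≤ x ⬝ᵥ x :=
  Finset.sum_nonneg fun _ _ => mul_self_nonneg _

theorem dot_self_pos {x : Fin N → ℝ} (h : x ≠ 0) : 0 < x ⬝ᵥ x := by
  refine lt_of_le_of_ne (dot_self_nonneg x) fun h0 => h ?_
  exact dotProduct_self_eq_zero.1 h0.symm

theorem frob (Q : Matrix (Fin N) (Fin N) ℝ) (v : Fin N → ℝ) :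
    Q *ᵥ v ⬝ᵥ Q *ᵥ v ≤ (Qᵀ * Q).trace * (v ⬝ᵥ v) := by
  have h1 : (Qᵀ * Q).trace = ∑ i, ∑ j, Q i j ^ 2 := by
    rw [trace, Finset.sum_comm]
    refine Finset.sum_congr rfl fun j _ => ?_
    rw [diag_apply, mul_apply]
    refine Finset.sum_congr rfl fun i _ => ?_
    rw [transpose_apply, sq]
  have h2 : v ⬝ᵥ v = ∑ j, v j ^ 2 := Finset.sum_congr rfl fun j _ => (sq _).symm
  rw [h1, h2, Finset.sum_mul]
  refine Finset.sum_le_sum fun i _ => ?_
  rw [← sq]
  exact Finset.sum_mul_sq_le_sq_mul_sq Finset.univ (fun j => Q i j) v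

/-- if `det ((1 - t) + t C) ≤ 1` for `0 < t ≤ 1`, then `tr C ≤ N` -/
theorem trace_le (C : Matrix (Fin N) (Fin N) ℝ)
    (h : ∀ t : ℝ, 0 < t → t ≤ 1 → (1 + t • (C - 1)).det ≤ 1) : C.trace ≤ N := by
  by_contra hc
  push Not at hc
  set q : ℝ → ℝ := fun t => (det (1 + (Polynomial.X : Polynomial ℝ) •
    (C - 1).map Polynomial.C)).divX.divX.eval t with hq
  have hqc : Continuous q := Polynomial.continuous _
  have htr : 0 < (C - 1).trace := by
    rw [trace_sub, trace_one, Fintype.card_fin]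
    linarith
  have h1 : Filter.Tendsto (fun t : ℝ => (C - 1).trace + q t * t) (nhds 0) (nhds (C - 1).trace) := by
    have : Continuous fun t : ℝ => (C - 1).trace + q t * t := by fun_prop
    have h2 := this.tendsto 0
    simpa using h2
  have h2 : ∀ᶠ t : ℝ in nhds 0, 0 < (C - 1).trace + q t * t := h1.eventually (lt_mem_nhds htr)
  obtain ⟨ε, hε, h3⟩ := Metric.eventually_nhds_iff.1 h2
  set t : ℝ := min (ε / 2) 1 with ht
  have ht0 : 0 < t := by positivity
  have ht1 : t ≤ 1 := min_le_right _ _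
  have ht2 : t ≤ ε / 2 := min_le_left _ _
  have h4 := h3 (y := t) (by
    rw [Real.dist_eq, sub_zero, abs_of_pos ht0]
    linarith)
  have h5 := h t ht0 ht1
  rw [det_one_add_smul] at h5
  have h6 : 0 < t * ((C - 1).trace + q t * t) := mul_pos ht0 h4
  rw [hq] at h6
  simp only at h6
  nlinarith

end John

open John Matrix

theorem john : S_JOHN := by
  intro L _ _ _
  set N := Module.finrank ℝ L with hN
  let b : Module.Basis (Fin N) ℝ L := Module.finBasis ℝ L
  let e : (Fin N → ℝ) ≃ₗ[ℝ] L := b.equivFun.symm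
  have hecont : Continuous e := LinearMap.continuous_of_finiteDimensional (e : (Fin N → ℝ) →ₗ[ℝ] L)
  -- the set of matrices
  let S : Set (Matrix (Fin N) (Fin N) ℝ) := {R | ∀ x : Fin N → ℝ, R *ᵥ x ⬝ᵥ R *ᵥ x ≤ ‖e x‖ ^ 2}
  have hSclosed : IsClosed S := by
    have : S = ⋂ x : Fin N → ℝ, {R : Matrix (Fin N) (Fin N) ℝ | R *ᵥ x ⬝ᵥ R *ᵥ x ≤ ‖e x‖ ^ 2} := by
      ext R
      simp [S]
    rw [this]
    refine isClosed_iInter fun x => isClosed_le ?_ continuous_const
    have h1 : Continuous fun R : Matrix (Fin N) (Fin N) ℝ => R *ᵥ x :=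
      Continuous.matrix_mulVec continuous_id continuous_const
    exact Continuous.dotProduct h1 h1
  obtain ⟨c, hc⟩ : ∃ c : ℝ, ∀ j : Fin N, ‖e (Pi.single j 1)‖ ≤ c :=
    ⟨∑ j, ‖e (Pi.single j 1)‖, fun j =>
      Finset.single_le_sum (f := fun j => ‖e (Pi.single j 1)‖) (fun _ _ => norm_nonneg _)
        (Finset.mem_univ j)⟩
  have hScomp : IsCompact S := by
    have hbox : IsCompact (Set.univ.pi fun _ : Fin N => Set.univ.pi fun _ : Fin N => Set.Icc (-c) c :
        Set (Fin N → Fin N → ℝ)) :=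
      isCompact_univ_pi fun _ => isCompact_univ_pi fun _ => isCompact_Icc
    refine IsCompact.of_isClosed_subset (X := Matrix (Fin N) (Fin N) ℝ) hbox hSclosed ?_
    intro R hR i _ j _
    have h1 := hR (Pi.single j 1)
    have h2 : R i j ^ 2 ≤ R *ᵥ (Pi.single j 1) ⬝ᵥ R *ᵥ (Pi.single j 1) := by
      rw [mulVec_single_one]
      have : R i j ^ 2 = R.col j i * R.col j i := by
        rw [col_apply, sq]
      rw [this]
      exact Finset.single_le_sum (f := fun i => R.col j i * R.col j i)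
        (fun _ _ => mul_self_nonneg _) (Finset.mem_univ i)
    have h3 : R i j ^ 2 ≤ ‖e (Pi.single j 1)‖ ^ 2 := h2.trans h1
    have h4 := abs_le_of_sq_le_sq h3 (norm_nonneg _)
    have h5 := hc j
    have h6 := abs_le.1 h4
    exact ⟨by linarith [h6.1], by linarith [h6.2]⟩
  -- a member with nonzero determinant
  obtain ⟨K, hK0, hK⟩ : ∃ K : ℝ, 0 < K ∧ ∀ x : Fin N → ℝ, x ⬝ᵥ x ≤ K * ‖e x‖ ^ 2 := by
    have hc1 : Continuous (e.symm : L →ₗ[ℝ] (Fin N → ℝ)) :=
      LinearMap.continuous_of_finiteDimensional _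
    let es : L →L[ℝ] (Fin N → ℝ) := ⟨(e.symm : L →ₗ[ℝ] (Fin N → ℝ)), hc1⟩
    refine ⟨N * ‖es‖ ^ 2 + 1, by positivity, fun x => ?_⟩
    have h1 : ‖x‖ ≤ ‖es‖ * ‖e x‖ := by
      have := es.le_opNorm (e x)
      have h2 : es (e x) = x := e.symm_apply_apply x
      rwa [h2] at this
    have h2 : x ⬝ᵥ x ≤ N * ‖x‖ ^ 2 := by
      have : x ⬝ᵥ x ≤ ∑ _i : Fin N, ‖x‖ ^ 2 := by
        refine Finset.sum_le_sum fun i _ => ?_
        have h3 := norm_le_pi_norm x i
        rw [Real.norm_eq_abs] at h3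
        rw [← sq, ← sq_abs]
        exact pow_le_pow_left₀ (abs_nonneg _) h3 2
      rw [Finset.sum_const, Finset.card_univ, Fintype.card_fin, nsmul_eq_mul] at this
      exact this
    have h3 : ‖x‖ ^ 2 ≤ (‖es‖ * ‖e x‖) ^ 2 := pow_le_pow_left₀ (norm_nonneg _) h1 2
    have h4 : (N : ℝ) * ‖x‖ ^ 2 ≤ N * (‖es‖ * ‖e x‖) ^ 2 :=
      mul_le_mul_of_nonneg_left h3 (Nat.cast_nonneg _)
    nlinarith [sq_nonneg ‖e x‖]
  have hS1 : (Real.sqrt K)⁻¹ • (1 : Matrix (Fin N) (Fin N) ℝ) ∈ S := by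
    intro x
    rw [smul_mulVec, one_mulVec, smul_dotProduct, dotProduct_smul, smul_eq_mul, smul_eq_mul,
      ← mul_assoc, ← mul_inv, Real.mul_self_sqrt hK0.le, inv_mul_le_iff₀ hK0]
    exact hK x
  obtain ⟨R₀, hR₀, hmax⟩ := hScomp.exists_isMaxOn ⟨_, hS1⟩
    (f := fun R : Matrix (Fin N) (Fin N) ℝ => R.det ^ 2)
    ((Continuous.matrix_det continuous_id).pow 2).continuousOn
  have hdet : R₀.det ≠ 0 := by
    intro h0
    have h1 : ((Real.sqrt K)⁻¹ • (1 : Matrix (Fin N) (Fin N) ℝ)).det ^ 2 ≤ R₀.det ^ 2 := hmax hS1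
    rw [h0, det_smul, det_one, mul_one] at h1
    have h2 : 0 < ((Real.sqrt K)⁻¹ ^ Fintype.card (Fin N)) ^ 2 := by
      have : 0 < Real.sqrt K := Real.sqrt_pos.2 hK0
      positivity
    linarith
  have hunit : IsUnit R₀.det := isUnit_iff_ne_zero.2 hdet
  have hinv1 : R₀ * R₀⁻¹ = 1 := mul_nonsing_inv _ hunit
  have hinv2 : R₀⁻¹ * R₀ = 1 := nonsing_inv_mul _ hunit
  refine ⟨LinearMap.mk₂ ℝ (fun u v => (R₀ *ᵥ e.symm u) ⬝ᵥ (R₀ *ᵥ e.symm v)) ?_ ?_ ?_ ?_, ?_, ?_, ?_⟩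
  · intro u u' v
    rw [map_add, mulVec_add, add_dotProduct]
  · intro r u v
    rw [map_smul, mulVec_smul, smul_dotProduct, smul_eq_mul]
  · intro u v v'
    rw [map_add, mulVec_add, dotProduct_add]
  · intro r u v
    rw [map_smul, mulVec_smul, dotProduct_smul, smul_eq_mul]
  · intro u v
    simp only [LinearMap.mk₂_apply]
    exact dotProduct_comm _ _
  · intro u hu
    simp only [LinearMap.mk₂_apply]
    apply dot_self_pos
    intro h0
    apply hu
    have h1 : R₀⁻¹ *ᵥ (R₀ *ᵥ e.symm u) = 0 := by rw [h0, mulVec_zero]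
    rw [mulVec_mulVec, hinv2, one_mulVec] at h1
    exact (map_eq_zero_iff e.symm e.symm.injective).1 h1
  · intro F hF hFc u
    simp only [LinearMap.mk₂_apply]
    -- the matrix of `F`
    set Fm : Matrix (Fin N) (Fin N) ℝ :=
      LinearMap.toMatrix' ((e.symm : L →ₗ[ℝ] (Fin N → ℝ)) ∘ₗ F ∘ₗ (e : (Fin N → ℝ) →ₗ[ℝ] L)) with hFm
    have hFmv : ∀ x, Fm *ᵥ x = e.symm (F (e x)) := by
      intro x
      rw [hFm, LinearMap.toMatrix'_mulVec]
      rfl
    set Q : Matrix (Fin N) (Fin N) ℝ := R₀ * Fm * R₀⁻¹ with hQ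
    set M : Matrix (Fin N) (Fin N) ℝ := 1 - Q with hM
    set C : Matrix (Fin N) (Fin N) ℝ := Mᵀ * M with hC
    have hMR : M * R₀ = R₀ * (1 - Fm) := by
      rw [hM, hQ, sub_mul, one_mul, mul_assoc, hinv2, mul_one, mul_sub, mul_one]
    have htrC : C.trace ≤ N := by
      apply trace_le
      intro t ht0 ht1
      have hD : (1 + t • (C - 1)) = (1 - t) • (1 : Matrix (Fin N) (Fin N) ℝ) + t • C := by
        rw [smul_sub, sub_smul, one_smul]
        abel
      rw [hD]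
      have hpsd : ((1 - t) • (1 : Matrix (Fin N) (Fin N) ℝ) + t • C).PosSemidef := by
        refine PosSemidef.add (PosSemidef.one.smul (by linarith)) (PosSemidef.smul ?_ ht0.le)
        rw [hC, ← conjTranspose_eq_transpose_of_trivial]
        exact posSemidef_conjTranspose_mul_self M
      obtain ⟨R, hR⟩ := psd_fact hpsd
      have hRS : R * R₀ ∈ S := by
        intro x
        have h1 : (R * R₀) *ᵥ x ⬝ᵥ (R * R₀) *ᵥ x =
            (1 - t) * (R₀ *ᵥ x ⬝ᵥ R₀ *ᵥ x) + t * (R₀ *ᵥ ((1 - Fm) *ᵥ x) ⬝ᵥ R₀ *ᵥ ((1 - Fm) *ᵥ x)) := by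
          rw [← mulVec_mulVec, dot_mulVec_self R, ← hR, add_mulVec, smul_mulVec, smul_mulVec,
            one_mulVec, dotProduct_add, dotProduct_smul, dotProduct_smul, hC, ← dot_mulVec_self M,
            mulVec_mulVec, hMR, ← mulVec_mulVec, smul_eq_mul, smul_eq_mul]
        rw [h1]
        have h2 := hR₀ x
        have h3 := hR₀ ((1 - Fm) *ᵥ x)
        have h4 : ‖e ((1 - Fm) *ᵥ x)‖ ≤ ‖e x‖ := by
          rw [sub_mulVec, one_mulVec, hFmv, map_sub, e.apply_symm_apply]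
          exact hFc _
        have h5 : ‖e ((1 - Fm) *ᵥ x)‖ ^ 2 ≤ ‖e x‖ ^ 2 := pow_le_pow_left₀ (norm_nonneg _) h4 2
        have h6 := mul_le_mul_of_nonneg_left h2 (by linarith : 0 ≤ 1 - t)
        have h7 := mul_le_mul_of_nonneg_left (h3.trans h5) ht0.le
        linarith
      have h1 : (R * R₀).det ^ 2 ≤ R₀.det ^ 2 := hmax hRS
      rw [det_mul, mul_pow] at h1
      have h2 : 0 < R₀.det ^ 2 := by positivity
      have h3 : R.det ^ 2 ≤ 1 := by
        by_contra h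
        push Not at h
        nlinarith
      rw [hR, det_mul, det_transpose, ← sq]
      exact h3
    have htrQ : Q.trace = (Module.finrank ℝ (LinearMap.range F) : ℝ) := by
      rw [hQ, trace_mul_comm, ← mul_assoc, hinv2, one_mul, hFm]
      have h1 : LinearMap.trace ℝ (Fin N → ℝ)
          ((e.symm : L →ₗ[ℝ] (Fin N → ℝ)) ∘ₗ F ∘ₗ (e : (Fin N → ℝ) →ₗ[ℝ] L)) =
            LinearMap.trace ℝ L F := by
        have := LinearMap.trace_conj' F e.symm
        rw [← this]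
        rfl
      have h2 : LinearMap.trace ℝ L F = (Module.finrank ℝ (LinearMap.range F) : ℝ) := by
        have hid : IsIdempotentElem F := LinearMap.ext hF
        exact (LinearMap.IsIdempotentElem.isProj_range F hid).trace
      rw [← h2, ← h1, LinearMap.trace_eq_matrix_trace ℝ (Pi.basisFun ℝ (Fin N)),
        ← LinearMap.toMatrix_eq_toMatrix']
    have htr : (Qᵀ * Q).trace ≤ 2 * (Module.finrank ℝ (LinearMap.range F) : ℝ) := by
      have h1 : C.trace = N - 2 * Q.trace + (Qᵀ * Q).trace := by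
        rw [hC, hM, transpose_sub, transpose_one, sub_mul, one_mul, mul_sub, mul_one, trace_sub,
          trace_sub, trace_sub, trace_one, Fintype.card_fin, trace_transpose]
        ring
      rw [h1, htrQ] at htrC
      linarith
    have h1 : R₀ *ᵥ e.symm (F u) = Q *ᵥ (R₀ *ᵥ e.symm u) := by
      have h2 : e.symm (F u) = Fm *ᵥ e.symm u := by
        rw [hFmv, e.apply_symm_apply]
      rw [h2, mulVec_mulVec, mulVec_mulVec, hQ, mul_assoc, mul_assoc, hinv2, mul_one]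
    rw [h1]
    refine (frob Q _).trans ?_
    exact mul_le_mul_of_nonneg_right htr (dot_self_nonneg _)

end Pool.Agent.H80.MR
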