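import Pool.Agent.H80.MR.UP

/-!
# Stub MR-LIM
-/

set_option autoImplicit false

namespace Pool.Agent.H80.MR

open Filter Topology

variable {E : Type} [NormedAddCommGroup E] [NormedSpace ℝ E]

/-- positive semidefinite symmetric forms -/
structure Psd (b : E →ₗ[ℝ] E →ₗ[ℝ] ℝ) : Prop where
  symm : ∀ u v, b u v = b v u
  nonneg : ∀ u, 0 ≤ b u u

theorem Psd.add_le {b : E →ₗ[ℝ] E →ₗ[ℝ] ℝ} (hb : Psd b) (u v : E) :
    b (u + v) (u + v) ≤ 2 * b u u + 2 * b v v := by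
  have h1 := hb.nonneg (u - v)
  have h2 := hb.symm v u
  simp only [map_add, map_sub, LinearMap.add_apply, LinearMap.sub_apply] at h1 ⊢
  linarith

theorem Psd.abs_le {b : E →ₗ[ℝ] E →ₗ[ℝ] ℝ} (hb : Psd b) (u v : E) :
    |b u v| ≤ (b u u + b v v) / 2 := by
  have h1 := hb.nonneg (u - v)
  have h3 := hb.nonneg (u + v)
  have h2 := hb.symm v u
  simp only [map_add, map_sub, LinearMap.add_apply, LinearMap.sub_apply] at h1 h3
  rw [_root_.abs_le]
  constructor <;> linarith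

theorem Star.psd {F : E →L[ℝ] E} {m : ℝ} {L : Submodule ℝ E} {b : E →ₗ[ℝ] E →ₗ[ℝ] ℝ}
    (hb : Star F m L b) : Psd b := ⟨hb.symm, hb.nonneg⟩

/-- forms on finite-dimensional spaces are bounded -/
theorem fin_bound (W : Submodule ℝ E) [FiniteDimensional ℝ W] :
    ∃ (N : ℕ) (e : Fin N → E) (c : ℝ), 0 ≤ c ∧ ∀ b : E →ₗ[ℝ] E →ₗ[ℝ] ℝ, Psd b →
      ∀ k ∈ W, b k k ≤ c * (∑ i, b (e i) (e i)) * ‖k‖ ^ 2 := by
  classical
  set β := Module.finBasis ℝ W with hβ
  set N := Module.finrank ℝ W with hN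
  obtain ⟨C, hC0, hC⟩ : ∃ C : ℝ, 0 < C ∧ ∀ k : W, ∀ i, |β.repr k i| ≤ C * ‖k‖ := by
    let f : W →L[ℝ] (Fin N → ℝ) := LinearMap.toContinuousLinearMap β.equivFun.toLinearMap
    refine ⟨‖f‖ + 1, by positivity, fun k i => ?_⟩
    have h1 : β.repr k i = f k i := rfl
    rw [h1]
    calc |f k i| = ‖f k i‖ := (Real.norm_eq_abs _).symm
      _ ≤ ‖f k‖ := norm_le_pi_norm _ _
      _ ≤ ‖f‖ * ‖k‖ := f.le_opNorm k
      _ ≤ (‖f‖ + 1) * ‖k‖ := by gcongr; linarith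
  refine ⟨N, fun i => (β i : E), (N : ℝ) * (N * C ^ 2), by positivity, fun b hb k hk => ?_⟩
  obtain ⟨S, hS⟩ : ∃ S : ℝ, S = ∑ i, b (β i : E) (β i : E) := ⟨_, rfl⟩
  have hbi : ∀ i, b (β i : E) (β i : E) ≤ S := by
    intro i
    rw [hS]
    exact Finset.single_le_sum (f := fun i => b (β i : E) (β i : E))
      (fun i _ => hb.nonneg _) (Finset.mem_univ i)
  have hS0 : 0 ≤ S := by
    rw [hS]; exact Finset.sum_nonneg fun i _ => hb.nonneg _
  have h1 : (k : E) = ∑ i, β.repr ⟨k, hk⟩ i • (β i : E) := by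
    have h2 := β.sum_repr ⟨k, hk⟩
    have h3 := congrArg (fun z : W => (z : E)) h2
    simp only [Submodule.coe_sum, Submodule.coe_smul] at h3
    exact h3.symm
  have h2 : b k k = ∑ i, ∑ j, β.repr ⟨k, hk⟩ i * (β.repr ⟨k, hk⟩ j * b (β i : E) (β j : E)) := by
    conv_lhs => rw [h1]
    rw [map_sum b, LinearMap.sum_apply]
    refine Finset.sum_congr rfl fun i _ => ?_
    rw [map_smul b, LinearMap.smul_apply, map_sum, smul_eq_mul, Finset.mul_sum]
    refine Finset.sum_congr rfl fun j _ => ?_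
    rw [map_smul, smul_eq_mul]
  rw [h2, ← hS]
  have h3 : ∀ i j, β.repr ⟨k, hk⟩ i * (β.repr ⟨k, hk⟩ j * b (β i : E) (β j : E)) ≤
      (C * ‖k‖) * ((C * ‖k‖) * S) := by
    intro i j
    refine (le_abs_self _).trans ?_
    rw [abs_mul, abs_mul]
    have h4 : |b (β i : E) (β j : E)| ≤ S := by
      refine (hb.abs_le _ _).trans ?_
      have := hbi i
      have := hbi j
      linarith
    have h5 := hC ⟨k, hk⟩ i
    have h6 := hC ⟨k, hk⟩ j
    refine mul_le_mul h5 (mul_le_mul h6 h4 (abs_nonneg _) (by positivity)) (by positivity)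
      (by positivity)
  calc ∑ i, ∑ j, β.repr ⟨k, hk⟩ i * (β.repr ⟨k, hk⟩ j * b (β i : E) (β j : E))
      ≤ ∑ _i : Fin N, ∑ _j : Fin N, (C * ‖k‖) * ((C * ‖k‖) * S) :=
        Finset.sum_le_sum fun i _ => Finset.sum_le_sum fun j _ => h3 i j
    _ = (N : ℝ) * (N * C ^ 2) * S * ‖k‖ ^ 2 := by
        simp only [Finset.sum_const, Finset.card_univ, Fintype.card_fin, nsmul_eq_mul]
        ring

/-- bounded functions converge along an ultrafilter -/
theorem ultra_lim {α : Type} (𝒰 : Ultrafilter α) (f : α → ℝ) (C : ℝ)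
    (h : ∀ᶠ s in (𝒰 : Filter α), |f s| ≤ C) : ∃ l : ℝ, Tendsto f 𝒰 (𝓝 l) := by
  have h1 : Set.Icc (-C) C ∈ 𝒰.map f := by
    rw [Ultrafilter.mem_map]
    filter_upwards [h] with s hs
    exact abs_le.1 hs
  obtain ⟨l, -, hl⟩ := isCompact_Icc.ultrafilter_le_nhds' (𝒰.map f) h1
  exact ⟨l, hl⟩

theorem lim : S_FORM → S_REACH → S_LIM := by
  intro hFORM hREACH E _ _ htr F hF x₁ hx₁ hx₁n n hch
  classical
  have hfin : FiniteDimensional ℝ (rg F) := hF.fin
  have hx₁0 : x₁ ≠ 0 := by intro h; rw [h, norm_zero] at hx₁n; exact zero_ne_one hx₁n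
  obtain ⟨m, hmdef⟩ : ∃ m : ℝ, m = 2 * (Module.finrank ℝ (rg F) : ℝ) := ⟨_, rfl⟩
  have hfr : 0 < Module.finrank ℝ (rg F) := by
    have : Nontrivial (rg F) := ⟨⟨x₁, hx₁⟩, 0, fun h => hx₁0 (congrArg Subtype.val h)⟩
    exact Module.finrank_pos
  have hm : 1 ≤ m := by
    have : (1 : ℝ) ≤ Module.finrank ℝ (rg F) := by exact_mod_cast hfr
    linarith
  obtain ⟨N, e, c₀, hc₀, hbd⟩ := fin_bound (rg F)
  let L : Finset E → Submodule ℝ E := fun s => Submodule.span ℝ (s : Set E) ⊔ rg F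
  have hLfin : ∀ s, FiniteDimensional ℝ (L s) := by
    intro s
    have : FiniteDimensional ℝ (Submodule.span ℝ (s : Set E)) :=
      FiniteDimensional.span_of_finite ℝ s.finite_toSet
    exact Submodule.finiteDimensional_sup _ _
  have hex : ∀ s : Finset E, ∃ b : E →ₗ[ℝ] E →ₗ[ℝ] ℝ, Star F m (L s) b ∧
      ∑ i, b (e i) (e i) = 1 := by
    intro s
    obtain ⟨b, hb, hpos⟩ := hFORM E F hF (L s) (hLfin s)
    rw [← hmdef] at hb
    have h1 := hbd b hb.psd x₁ hx₁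
    have h2 := hpos x₁ (le_sup_right (a := Submodule.span ℝ (s : Set E)) hx₁) hx₁0
    obtain ⟨S, hS⟩ : ∃ S : ℝ, S = ∑ i, b (e i) (e i) := ⟨_, rfl⟩
    rw [← hS] at h1
    have hS0 : 0 ≤ S := by rw [hS]; exact Finset.sum_nonneg fun i _ => hb.nonneg _
    have hSpos : 0 < S := by
      rcases hS0.lt_or_eq with h | h
      · exact h
      · rw [← h, mul_zero, zero_mul] at h1
        exact absurd h2 (not_lt.2 h1)
    refine ⟨S⁻¹ • b, ⟨fun u v => ?_, fun u => ?_, fun g hg u hu => ?_⟩, ?_⟩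
    · simp only [LinearMap.smul_apply, hb.symm u v]
    · simp only [LinearMap.smul_apply, smul_eq_mul]
      exact mul_nonneg (by positivity) (hb.nonneg u)
    · simp only [LinearMap.smul_apply, smul_eq_mul]
      have h3 := hb.star g hg u hu
      calc S⁻¹ * b (cj F g u) (cj F g u) ≤ S⁻¹ * (m * b u u) := by gcongr
        _ = m * (S⁻¹ * b u u) := by ring
    · simp only [LinearMap.smul_apply, smul_eq_mul]
      rw [← Finset.mul_sum, ← hS, inv_mul_cancel₀ hSpos.ne']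
  choose b hb hb1 using hex
  have hpsd : ∀ s, Psd (b s) := fun s => (hb s).psd
  -- the bound on `rg F`
  have hrg : ∀ s, ∀ k ∈ rg F, b s k k ≤ c₀ * ‖k‖ ^ 2 := by
    intro s k hk
    have h1 := hbd (b s) (hpsd s) k hk
    rwa [hb1, mul_one] at h1
  set 𝒰 : Ultrafilter (Finset E) := Ultrafilter.of atTop with h𝒰
  have h𝒰le : (𝒰 : Filter (Finset E)) ≤ atTop := Ultrafilter.of_le _
  have hev : ∀ W : Submodule ℝ E, FiniteDimensional ℝ W → ∀ᶠ s in (𝒰 : Filter (Finset E)),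
      W ≤ L s := by
    intro W hW
    obtain ⟨t, ht⟩ := (Submodule.fg_iff_finiteDimensional W).2 hW
    refine h𝒰le ?_
    filter_upwards [eventually_ge_atTop t] with s hs
    rw [← ht]
    exact (Submodule.span_mono (by exact_mod_cast hs)).trans le_sup_left
  have hevk : ∀ g : E ≃ₗᵢ[ℝ] E, ∀ᶠ s in (𝒰 : Filter (Finset E)), kr F g ≤ L s :=
    fun g => hev _ inferInstance
  have hevu : ∀ u : E, ∀ᶠ s in (𝒰 : Filter (Finset E)), u ∈ L s := by
    intro u
    filter_upwards [hev (Submodule.span ℝ {u}) inferInstance] with s hs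
    exact hs (Submodule.mem_span_singleton_self u)
  have hstar : ∀ (g : E ≃ₗᵢ[ℝ] E) (u : E), ∀ᶠ s in (𝒰 : Filter (Finset E)),
      b s (cj F g u) (cj F g u) ≤ m * b s u u := by
    intro g u
    filter_upwards [hevk g, hevu u] with s h1 h2
    exact (hb s).star g h1 u h2
  -- reached spaces
  have hreach : ∀ h : E ≃ₗᵢ[ℝ] E, Reach F n h → ∀ k ∈ kr F h,
      ∀ᶠ s in (𝒰 : Filter (Finset E)), b s k k ≤ (2 * m) ^ n * c₀ * ‖k‖ ^ 2 := by
    intro h hh k hk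
    obtain ⟨W, hW, -, hL⟩ := hREACH E F hF m hm n h hh
    filter_upwards [hev W hW] with s hs
    exact (hL (L s) hs (b s) (hb s) c₀ hc₀).1 (hrg s) k hk
  -- the subspace where the forms are bounded
  let E₀ : Submodule ℝ E :=
    { carrier := {u | ∃ C : ℝ, ∀ᶠ s in (𝒰 : Filter (Finset E)), b s u u ≤ C}
      add_mem' := by
        rintro u v ⟨C, hC⟩ ⟨C', hC'⟩
        refine ⟨2 * C + 2 * C', ?_⟩
        filter_upwards [hC, hC'] with s h1 h2
        have := (hpsd s).add_le u v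
        linarith
      zero_mem' := ⟨0, by simp⟩
      smul_mem' := by
        rintro c u ⟨C, hC⟩
        refine ⟨c * (c * C), ?_⟩
        filter_upwards [hC] with s h1
        simp only [map_smul, LinearMap.smul_apply, smul_eq_mul]
        nlinarith [mul_self_nonneg c] }
  have hE₀ : ∀ u, u ∈ E₀ ↔ ∃ C : ℝ, ∀ᶠ s in (𝒰 : Filter (Finset E)), b s u u ≤ C :=
    fun u => Iff.rfl
  have hE₀cj : ∀ (g : E ≃ₗᵢ[ℝ] E) (u : E), u ∈ E₀ → cj F g u ∈ E₀ := by
    rintro g u ⟨C, hC⟩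
    refine ⟨m * C, ?_⟩
    filter_upwards [hC, hstar g u] with s h1 h2
    refine h2.trans ?_
    gcongr
  have hE₀r : ∀ h : E ≃ₗᵢ[ℝ] E, Reach F n h → h x₁ ∈ E₀ := fun h hh =>
    ⟨_, hreach h hh (h x₁) (mem_kr.2 ⟨x₁, hx₁, rfl⟩)⟩
  have hunit : ∀ u : E, ‖u‖ = 1 → ∃ g : E ≃ₗᵢ[ℝ] E, u ∈ kr F g := by
    intro u hu
    obtain ⟨g, hg⟩ := htr x₁ u hx₁n hu
    exact ⟨g, mem_kr.2 ⟨x₁, hx₁, hg⟩⟩
  have happr : ∀ (g : E ≃ₗᵢ[ℝ] E) (k : E), k ∈ kr F g → ‖k‖ = 1 → ∀ η : ℝ, 0 < η →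
      ∃ h : E ≃ₗᵢ[ℝ] E, Reach F n h ∧ ‖k - cj F g (h x₁)‖ ≤ 2 * η := by
    intro g k hk hkn η hη
    obtain ⟨h, hh, hhk⟩ := hch k hkn η hη
    refine ⟨h, hh, ?_⟩
    have h1 : k - cj F g (h x₁) = -(cj F g (h x₁ - k)) := by
      rw [map_sub, cj_fix hF hk]; abel
    rw [h1, norm_neg]
    refine (cj_norm_le hF g _).trans ?_
    linarith
  have hE₀u : ∀ u : E, ‖u‖ = 1 → u ∈ E₀ := by
    intro u hu
    obtain ⟨g, hg⟩ := hunit u hu
    have : FiniteDimensional ℝ (E₀ ⊓ kr F g : Submodule ℝ E) :=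
      Submodule.finiteDimensional_inf_right _ _
    have hcl : IsClosed ((E₀ ⊓ kr F g : Submodule ℝ E) : Set E) :=
      Submodule.closed_of_finiteDimensional _
    have hmem : u ∈ ((E₀ ⊓ kr F g : Submodule ℝ E) : Set E) := by
      rw [← hcl.closure_eq, Metric.mem_closure_iff]
      intro ε hε
      obtain ⟨h, hh, h1⟩ := happr g u hg hu (ε / 4) (by positivity)
      refine ⟨cj F g (h x₁), ⟨hE₀cj g _ (hE₀r h hh), cj_mem F g _⟩, ?_⟩
      rw [dist_eq_norm]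
      linarith
    exact hmem.1
  have hE₀top : ∀ u : E, u ∈ E₀ := by
    intro u
    by_cases hu : u = 0
    · rw [hu]; exact E₀.zero_mem
    · have hun : ‖u‖ ≠ 0 := norm_ne_zero_iff.2 hu
      have h1 := hE₀u (‖u‖⁻¹ • u) (by rw [norm_smul, norm_inv, norm_norm, inv_mul_cancel₀ hun])
      have h2 := E₀.smul_mem ‖u‖ h1
      rwa [smul_smul, mul_inv_cancel₀ hun, one_smul] at h2
  -- the limit
  have hlim : ∀ u v : E, ∃ l : ℝ, Tendsto (fun s => b s u v) (𝒰 : Filter (Finset E)) (𝓝 l) := by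
    intro u v
    obtain ⟨C, hC⟩ := hE₀top u
    obtain ⟨C', hC'⟩ := hE₀top v
    refine ultra_lim 𝒰 _ ((C + C') / 2) ?_
    filter_upwards [hC, hC'] with s h1 h2
    have := (hpsd s).abs_le u v
    linarith
  choose β hβ using hlim
  have huniq : ∀ (u v : E) (l : ℝ), Tendsto (fun s => b s u v) (𝒰 : Filter (Finset E)) (𝓝 l) →
      β u v = l := fun u v l h => tendsto_nhds_unique (hβ u v) h
  let B : E →ₗ[ℝ] E →ₗ[ℝ] ℝ := LinearMap.mk₂ ℝ β
    (fun u u' v => huniq _ _ _ (by simpa using (hβ u v).add (hβ u' v)))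
    (fun c u v => huniq _ _ _ (by simpa using (hβ u v).const_mul c))
    (fun u v v' => huniq _ _ _ (by simpa using (hβ u v).add (hβ u v')))
    (fun c u v => huniq _ _ _ (by simpa using (hβ u v).const_mul c))
  have hB : ∀ u v, Tendsto (fun s => b s u v) (𝒰 : Filter (Finset E)) (𝓝 (B u v)) := hβ
  have hBstar : Star F m ⊤ B := by
    refine ⟨fun u v => ?_, fun u => ?_, fun g _ u _ => ?_⟩
    · refine huniq u v _ ?_
      have h1 := hB v u
      refine h1.congr fun s => ?_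
      exact (hpsd s).symm v u
    · exact ge_of_tendsto (hB u u) (Eventually.of_forall fun s => (hpsd s).nonneg u)
    · exact le_of_tendsto_of_tendsto (hB _ _) ((hB u u).const_mul m) (hstar g u)
  have hBpos : ∃ u, 0 < B u u := by
    by_contra hcon
    push Not at hcon
    have h1 : Tendsto (fun s => ∑ i, b s (e i) (e i)) (𝒰 : Filter (Finset E))
        (𝓝 (∑ i, B (e i) (e i))) := tendsto_finsetSum _ fun i _ => hB _ _
    have h2 : (∑ i, B (e i) (e i)) = 1 := by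
      refine tendsto_nhds_unique h1 ?_
      simp only [hb1]
      exact tendsto_const_nhds
    have h3 : (∑ i, B (e i) (e i)) ≤ 0 := Finset.sum_nonpos fun i _ => hcon _
    linarith
  obtain ⟨M, hM⟩ : ∃ M : ℝ, M = m * ((2 * m) ^ n * c₀) := ⟨_, rfl⟩
  have hBr : ∀ h : E ≃ₗᵢ[ℝ] E, Reach F n h → B (h x₁) (h x₁) ≤ (2 * m) ^ n * c₀ := by
    intro h hh
    refine le_of_tendsto (hB _ _) ?_
    filter_upwards [hreach h hh (h x₁) (mem_kr.2 ⟨x₁, hx₁, rfl⟩)] with s hs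
    rw [h.norm_map, hx₁n] at hs
    simpa using hs
  have hBu : ∀ u : E, ‖u‖ = 1 → B u u ≤ 2 * M + 1 := by
    intro u hu
    obtain ⟨g, hg⟩ := hunit u hu
    obtain ⟨N', e', c', hc', hbd'⟩ := fin_bound (kr F g)
    obtain ⟨C', hC'⟩ : ∃ C' : ℝ, C' = c' * (∑ i, B (e' i) (e' i)) := ⟨_, rfl⟩
    have hC'0 : 0 ≤ C' := by
      rw [hC']
      exact mul_nonneg hc' (Finset.sum_nonneg fun i _ => hBstar.nonneg _)
    obtain ⟨η, hη, hη1, hη2⟩ : ∃ η : ℝ, 0 < η ∧ η ≤ 1 ∧ 8 * C' * η ≤ 1 := by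
      refine ⟨1 / (8 * C' + 1), by positivity, ?_, ?_⟩
      · rw [div_le_one (by positivity)]; linarith
      · rw [mul_one_div, div_le_one (by positivity)]; linarith
    obtain ⟨h, hh, h1⟩ := happr g u hg hu η hη
    have h2 : B (cj F g (h x₁)) (cj F g (h x₁)) ≤ M := by
      refine (hBstar.star g le_top _ trivial).trans ?_
      rw [hM]
      exact mul_le_mul_of_nonneg_left (hBr h hh) (by linarith)
    have h3 : B (u - cj F g (h x₁)) (u - cj F g (h x₁)) ≤ C' * (2 * η) ^ 2 := by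
      have h4 := hbd' B hBstar.psd (u - cj F g (h x₁)) ((kr F g).sub_mem hg (cj_mem F g _))
      rw [← hC'] at h4
      refine h4.trans ?_
      gcongr
    have h5 := hBstar.psd.add_le (cj F g (h x₁)) (u - cj F g (h x₁))
    rw [add_sub_cancel] at h5
    have h6 : C' * (2 * η) ^ 2 * 2 ≤ 1 := by
      calc C' * (2 * η) ^ 2 * 2 = 8 * C' * η * η := by ring
        _ ≤ 1 * 1 := mul_le_mul hη2 hη1 hη.le zero_le_one
        _ = 1 := one_mul 1
    linarith
  refine ⟨m, B, 2 * M + 1, hm, hBstar, hBpos, fun u => ?_⟩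
  by_cases hu : u = 0
  · rw [hu]; simp
  · have hun : ‖u‖ ≠ 0 := norm_ne_zero_iff.2 hu
    have h1 := hBu (‖u‖⁻¹ • u) (by rw [norm_smul, norm_inv, norm_norm, inv_mul_cancel₀ hun])
    simp only [map_smul, LinearMap.smul_apply, smul_eq_mul] at h1
    have h2 : B u u = ‖u‖ ^ 2 * (‖u‖⁻¹ * (‖u‖⁻¹ * B u u)) := by field_simp
    rw [h2, mul_comm]
    gcongr

end Pool.Agent.H80.MR
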