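import Pool.Agent.H80.MR.ULIM

/-!
# Stub MB-LIMB
-/

set_option autoImplicit false

namespace Pool.Agent.H80.MR

open Filter Topology

theorem Ker.unit {E : Type} [NormedAddCommGroup E] [NormedSpace ℝ E] {F : E →L[ℝ] E}
    (hF : Ker F) : ∃ x ∈ rg F, ‖x‖ = 1 := by
  obtain ⟨z, hz⟩ : ∃ z, F z ≠ 0 := by
    by_contra hcon
    push Not at hcon
    exact hF.ne (by ext z; simpa using hcon z)
  have hn : ‖F z‖ ≠ 0 := norm_ne_zero_iff.2 hz
  refine ⟨‖F z‖⁻¹ • F z, (rg F).smul_mem _ (mem_rg.2 ⟨z, rfl⟩), ?_⟩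
  rw [norm_smul, norm_inv, norm_norm, inv_mul_cancel₀ hn]

/-- the subspace where the forms are bounded along a filter -/
def bddSub {E ι : Type} [NormedAddCommGroup E] [NormedSpace ℝ E]
    {b : ι → E →ₗ[ℝ] E →ₗ[ℝ] ℝ} (hb : ∀ i, Psd (b i)) (l : Filter ι) : Submodule ℝ E where
  carrier := {u | ∃ C : ℝ, ∀ᶠ s in l, b s u u ≤ C}
  add_mem' := by
    rintro u v ⟨C, hC⟩ ⟨C', hC'⟩
    refine ⟨2 * C + 2 * C', ?_⟩
    filter_upwards [hC, hC'] with s h1 h2
    have := (hb s).add_le u v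
    linarith
  zero_mem' := ⟨0, by simp⟩
  smul_mem' := by
    rintro c u ⟨C, hC⟩
    refine ⟨c * (c * C), ?_⟩
    filter_upwards [hC] with s h1
    simp only [map_smul, LinearMap.smul_apply, smul_eq_mul]
    nlinarith [mul_self_nonneg c]

theorem limb : S_FORM → S_IRR → S_ULIM → S_LIMB := by
  intro hFORM hIRR hULIM E _ _ hinf htr F hF
  classical
  obtain ⟨x₁, hx₁, hx₁n⟩ := hF.unit
  have hfin : FiniteDimensional ℝ (rg F) := hF.fin
  have hx₁0 : x₁ ≠ 0 := by intro h; rw [h, norm_zero] at hx₁n; exact zero_ne_one hx₁n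
  obtain ⟨m, hmdef⟩ : ∃ m : ℝ, m = 2 * (Module.finrank ℝ (rg F) : ℝ) := ⟨_, rfl⟩
  have hfr : 0 < Module.finrank ℝ (rg F) := by
    have : Nontrivial (rg F) := ⟨⟨x₁, hx₁⟩, 0, fun h => hx₁0 (congrArg Subtype.val h)⟩
    exact Module.finrank_pos
  have hm : 1 ≤ m := by
    have : (1 : ℝ) ≤ Module.finrank ℝ (rg F) := by exact_mod_cast hfr
    linarith
  obtain ⟨N, e, c₀, hc₀, hbd⟩ := fin_bound (rg F)
  let L : Finset E → Submodule ℝ E := fun s => Submodule.span ℝ (s : Set E) ⊔ rg F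
  have hLfin : ∀ s, FiniteDimensional ℝ (L s) := by
    intro s
    have : FiniteDimensional ℝ (Submodule.span ℝ (s : Set E)) :=
      FiniteDimensional.span_of_finite ℝ s.finite_toSet
    exact Submodule.finiteDimensional_sup _ _
  have hex : ∀ s : Finset E, ∃ b : E →ₗ[ℝ] E →ₗ[ℝ] ℝ, Star F m (L s) b ∧
      ∑ i, b (e i) (e i) = 1 := by
    intro s
    obtain ⟨b, hb, hpos⟩ := hFORM E F hF (L s) (hLfin s)
    rw [← hmdef] at hb
    have h1 := hbd b hb.psd x₁ hx₁
    have h2 := hpos x₁ (le_sup_right (a := Submodule.span ℝ (s : Set E)) hx₁) hx₁0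
    obtain ⟨S, hS⟩ : ∃ S : ℝ, S = ∑ i, b (e i) (e i) := ⟨_, rfl⟩
    rw [← hS] at h1
    have hS0 : 0 ≤ S := by rw [hS]; exact Finset.sum_nonneg fun i _ => hb.nonneg _
    have hSpos : 0 < S := by
      rcases hS0.lt_or_eq with h | h
      · exact h
      · rw [← h, mul_zero, zero_mul] at h1
        exact absurd h2 (not_lt.2 h1)
    refine ⟨S⁻¹ • b, ⟨fun u v => ?_, fun u => ?_, fun g hg u hu => ?_⟩, ?_⟩
    · simp only [LinearMap.smul_apply, hb.symm u v]
    · simp only [LinearMap.smul_apply, smul_eq_mul]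
      exact mul_nonneg (by positivity) (hb.nonneg u)
    · simp only [LinearMap.smul_apply, smul_eq_mul]
      have h3 := hb.star g hg u hu
      calc S⁻¹ * b (cj F g u) (cj F g u) ≤ S⁻¹ * (m * b u u) := by gcongr
        _ = m * (S⁻¹ * b u u) := by ring
    · simp only [LinearMap.smul_apply, smul_eq_mul]
      rw [← Finset.mul_sum, ← hS, inv_mul_cancel₀ hSpos.ne']
  choose b hb hb1 using hex
  have hpsd : ∀ s, Psd (b s) := fun s => (hb s).psd
  have hrg : ∀ s, ∀ k ∈ rg F, b s k k ≤ c₀ * ‖k‖ ^ 2 := by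
    intro s k hk
    have h1 := hbd (b s) (hpsd s) k hk
    rwa [hb1, mul_one] at h1
  set 𝒰 : Ultrafilter (Finset E) := Ultrafilter.of atTop with h𝒰
  have h𝒰le : (𝒰 : Filter (Finset E)) ≤ atTop := Ultrafilter.of_le _
  have hevu : ∀ u : E, ∀ᶠ s in (𝒰 : Filter (Finset E)), u ∈ L s := by
    intro u
    refine h𝒰le ?_
    filter_upwards [eventually_ge_atTop ({u} : Finset E)] with s hs
    exact Submodule.mem_sup_left (Submodule.subset_span (hs (Finset.mem_singleton_self u)))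
  have hstar : ∀ (g : E ≃ₗᵢ[ℝ] E) (u : E), ∀ᶠ s in (𝒰 : Filter (Finset E)),
      b s (cj F g u) (cj F g u) ≤ m * b s u u := by
    intro g u
    filter_upwards [ev_le hevu (kr F g) inferInstance, hevu u] with s h1 h2
    exact (hb s).star g h1 u h2
  have htop : bddSub hpsd (𝒰 : Filter (Finset E)) = ⊤ := by
    refine hIRR E hinf htr F hF _ ?_ ?_
    · intro h
      have h1 : x₁ ∈ bddSub hpsd (𝒰 : Filter (Finset E)) :=
        ⟨_, Eventually.of_forall fun s => hrg s x₁ hx₁⟩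
      rw [h] at h1
      exact hx₁0 h1
    · rintro g u ⟨C, hC⟩
      refine ⟨m * C, ?_⟩
      filter_upwards [hC, hstar g u] with s h1 h2
      refine h2.trans ?_
      gcongr
  obtain ⟨B, hB, hlim⟩ := hULIM E F hF m (Finset E) 𝒰 L b hb hevu (fun u => by
    have : u ∈ bddSub hpsd (𝒰 : Filter (Finset E)) := by rw [htop]; trivial
    exact this)
  refine ⟨m, B, hm, hB, ?_⟩
  by_contra hcon
  push Not at hcon
  have h1 : Tendsto (fun s => ∑ i, b s (e i) (e i)) (𝒰 : Filter (Finset E))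
      (𝓝 (∑ i, B (e i) (e i))) := tendsto_finsetSum _ fun i _ => hlim _ _
  have h2 : (∑ i, B (e i) (e i)) = 1 := by
    refine tendsto_nhds_unique h1 ?_
    simp only [hb1]
    exact tendsto_const_nhds
  have h3 : (∑ i, B (e i) (e i)) ≤ 0 := Finset.sum_nonpos fun i _ => hcon _
  linarith

end Pool.Agent.H80.MR
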