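import Pool.Agent.H80.MR.UP

/-!
# Stub MR-LOW
-/

set_option autoImplicit false

namespace Pool.Agent.H80.MR

theorem low : S_LOW := by
  intro E _ _ F hF m L b hm hb g h hn hg hh c hc hlow k' hk'
  have h1 := near_low hF hn.symm hk'
  have h2 := hb.star g hg k' (hh hk')
  have h3 := hlow _ (cj_mem F g k')
  have h4 : ‖k'‖ ^ 2 ≤ 2 * ‖cj F g k'‖ ^ 2 := by
    have h5 : (3 / 4 * ‖k'‖) ^ 2 ≤ ‖cj F g k'‖ ^ 2 := by gcongr
    nlinarith [sq_nonneg ‖cj F g k'‖]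
  have h6 : c * ‖k'‖ ^ 2 ≤ 2 * m * b k' k' := by
    calc c * ‖k'‖ ^ 2 ≤ c * (2 * ‖cj F g k'‖ ^ 2) := by gcongr
      _ = 2 * (c * ‖cj F g k'‖ ^ 2) := by ring
      _ ≤ 2 * (m * b k' k') := by linarith
      _ = 2 * m * b k' k' := by ring
  rw [div_mul_eq_mul_div, div_le_iff₀ (by linarith)]
  linarith

end Pool.Agent.H80.MR
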