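import Pool.Agent.H80.MR.BDD

/-!
# Stub MB-LOWA
-/

set_option autoImplicit false

namespace Pool.Agent.H80.MR

open Filter Topology

theorem cj_trans {E : Type} [NormedAddCommGroup E] [NormedSpace ℝ E] (F : E →L[ℝ] E)
    (g h : E ≃ₗᵢ[ℝ] E) (u : E) : g (cj F h u) = cj F (h.trans g) (g u) := by
  rw [cj_apply, cj_apply]
  show g (h (F (h.symm u))) = g (h (F (h.symm (g.symm (g u)))))
  rw [g.symm_apply_apply]

/-- the translate of a form -/
noncomputable def tr {E : Type} [NormedAddCommGroup E] [NormedSpace ℝ E]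
    (B : E →ₗ[ℝ] E →ₗ[ℝ] ℝ) (g : E ≃ₗᵢ[ℝ] E) : E →ₗ[ℝ] E →ₗ[ℝ] ℝ :=
  B.compl₁₂ (g.toLinearEquiv : E →ₗ[ℝ] E) (g.toLinearEquiv : E →ₗ[ℝ] E)

theorem tr_apply {E : Type} [NormedAddCommGroup E] [NormedSpace ℝ E]
    (B : E →ₗ[ℝ] E →ₗ[ℝ] ℝ) (g : E ≃ₗᵢ[ℝ] E) (u v : E) : tr B g u v = B (g u) (g v) := rfl

theorem Star.tr_smul {E : Type} [NormedAddCommGroup E] [NormedSpace ℝ E] {F : E →L[ℝ] E} {m : ℝ}
    {B : E →ₗ[ℝ] E →ₗ[ℝ] ℝ} (hB : Star F m ⊤ B) (g : E ≃ₗᵢ[ℝ] E) {c : ℝ} (hc : 0 ≤ c) :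
    Star F m ⊤ (c • tr B g) := by
  refine ⟨fun u v => ?_, fun u => ?_, fun h _ u _ => ?_⟩
  · simp only [LinearMap.smul_apply, tr_apply, hB.symm (g u) (g v)]
  · simp only [LinearMap.smul_apply, tr_apply, smul_eq_mul]
    exact mul_nonneg hc (hB.nonneg _)
  · simp only [LinearMap.smul_apply, tr_apply, smul_eq_mul, cj_trans]
    have h1 := hB.star (h.trans g) le_top (g u) trivial
    calc c * B (cj F (h.trans g) (g u)) (cj F (h.trans g) (g u)) ≤ c * (m * B (g u) (g u)) := by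
          gcongr
      _ = m * (c * B (g u) (g u)) := by ring

theorem lowa : S_IRR → S_SEQ → S_LOWA := by
  intro _ hSEQ E _ _ _ hinf htr F hF m hm B hB hpos
  by_contra hcon
  push Not at hcon
  have h1 : ∀ i : ℕ, ∃ g : E ≃ₗᵢ[ℝ] E, ∀ k ∈ kr F g, ‖k‖ = 1 → B k k < 1 / ((i : ℝ) + 1) :=
    fun i => hcon (1 / ((i : ℝ) + 1)) (by positivity)
  choose g hg using h1
  obtain ⟨C, hC⟩ := hSEQ E hinf htr F hF m hm (fun i => ((i : ℝ) + 1) • tr B (g i))
    (fun i => hB.tr_smul (g i) (by positivity)) (fun i k hk => by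
      by_cases hk0 : k = 0
      · rw [hk0]; simp
      · have hkn : ‖k‖ ≠ 0 := norm_ne_zero_iff.2 hk0
        have h2 := hg i (g i (‖k‖⁻¹ • k)) (mem_kr.2 ⟨_, (rg F).smul_mem _ hk, rfl⟩) (by
          rw [(g i).norm_map, norm_smul, norm_inv, norm_norm, inv_mul_cancel₀ hkn])
        rw [map_smul, smul_sq] at h2
        simp only [LinearMap.smul_apply, tr_apply, smul_eq_mul]
        rw [lt_div_iff₀ (by positivity)] at h2
        have h3 : ((i : ℝ) + 1) * B (g i k) (g i k) =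
            ‖k‖ ^ 2 * (‖k‖⁻¹ ^ 2 * B (g i k) (g i k) * ((i : ℝ) + 1)) := by field_simp
        rw [h3]
        refine (mul_le_mul_of_nonneg_left h2.le (by positivity)).trans ?_
        rw [mul_one])
  obtain ⟨u, hu⟩ := hpos
  have h4 : ∀ i : ℕ, ((i : ℝ) + 1) * B u u ≤ C * ‖u‖ ^ 2 := by
    intro i
    have h5 := hC i ((g i).symm u)
    simp only [LinearMap.smul_apply, tr_apply, smul_eq_mul, LinearIsometryEquiv.apply_symm_apply,
      LinearIsometryEquiv.norm_map] at h5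
    exact h5
  obtain ⟨i, hi⟩ := exists_nat_gt (C * ‖u‖ ^ 2 / B u u)
  have h6 := h4 i
  rw [div_lt_iff₀ hu] at hi
  nlinarith

end Pool.Agent.H80.MR
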