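import Pool.Agent.H80.MR.Stm2

/-!
# MB-LOWB: the form is bounded below
-/

set_option autoImplicit false

namespace Pool.Agent.H80.MR

open Filter Topology

namespace LowbH

variable {E : Type} [NormedAddCommGroup E] [NormedSpace ℝ E]

theorem par {b : E →ₗ[ℝ] E →ₗ[ℝ] ℝ} (h : ∀ u, 0 ≤ b u u) (u v : E) :
    b (u + v) (u + v) ≤ 2 * b u u + 2 * b v v := by
  have h1 := h (u - v)
  simp only [map_add, map_sub, LinearMap.add_apply, LinearMap.sub_apply] at h1 ⊢
  linarith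

/-- the null space of a positive semidefinite form -/
def nul (b : E →ₗ[ℝ] E →ₗ[ℝ] ℝ) (h : ∀ u, 0 ≤ b u u) : Submodule ℝ E where
  carrier := {u | b u u = 0}
  zero_mem' := by simp
  add_mem' := by
    intro u v hu hv
    have h1 := par h u v
    have hu' : b u u = 0 := hu
    have hv' : b v v = 0 := hv
    rw [hu', hv'] at h1
    exact le_antisymm (by linarith) (h _)
  smul_mem' := by
    intro c u hu
    have hu' : b u u = 0 := hu
    show b (c • u) (c • u) = 0
    simp [hu']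

theorem cj_trans (F : E →L[ℝ] E) (g h : E ≃ₗᵢ[ℝ] E) (u : E) :
    h (cj F g u) = cj F (g.trans h) (h u) := by
  show h (g (F (g.symm u))) = h (g (F (g.symm (h.symm (h u)))))
  rw [h.symm_apply_apply]

end LowbH

open LowbH in
theorem lowb : S_IRR → S_BDD → S_ULIM → S_LOWA → S_LOWB := by
  intro hIRR hBDD hULIM hLOWA E _ _ _ hinf hT F hF m hm B hB hBpos
  obtain ⟨C, hC⟩ := hBDD E hT F hF m B hm hB
  obtain ⟨c, hc, hlow⟩ := hLOWA E hinf hT F hF m hm B hB hBpos
  by_contra hcon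
  push Not at hcon
  -- a unit vector of the range
  obtain ⟨e, he1, he2⟩ : ∃ e ∈ rg F, ‖e‖ = 1 := by
    obtain ⟨x, hx⟩ : ∃ x, F x ≠ 0 := by
      by_contra h
      push Not at h
      exact hF.ne (ContinuousLinearMap.ext h)
    refine ⟨‖F x‖⁻¹ • F x, ?_, ?_⟩
    · exact (rg F).smul_mem _ ⟨x, rfl⟩
    · rw [norm_smul, norm_inv, norm_norm, inv_mul_cancel₀ (norm_ne_zero_iff.2 hx)]
  have he0 : e ≠ 0 := by
    rintro rfl
    simp at he2
  have hex : ∀ i : ℕ, ∃ g : E ≃ₗᵢ[ℝ] E, B (g e) (g e) < 1 / ((i : ℝ) + 1) := by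
    intro i
    obtain ⟨u, hu⟩ := hcon (1 / ((i : ℝ) + 1)) (by positivity)
    have hu0 : u ≠ 0 := by
      rintro rfl
      simp at hu
    have hun : 0 < ‖u‖ := norm_pos_iff.2 hu0
    obtain ⟨g, hg⟩ := hT e (‖u‖⁻¹ • u) he2
      (by rw [norm_smul, norm_inv, norm_norm, inv_mul_cancel₀ hun.ne'])
    refine ⟨g, ?_⟩
    rw [hg]
    simp only [map_smul, LinearMap.smul_apply, smul_eq_mul]
    have h1 : ‖u‖⁻¹ * (‖u‖⁻¹ * B u u) < ‖u‖⁻¹ * (‖u‖⁻¹ * (1 / ((i : ℝ) + 1) * ‖u‖ ^ 2)) := by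
      have := inv_pos.2 hun
      gcongr
    refine lt_of_lt_of_eq h1 ?_
    field_simp
  choose g hg using hex
  obtain ⟨b, hb⟩ : ∃ b : ℕ → E →ₗ[ℝ] E →ₗ[ℝ] ℝ, b = fun i =>
    B.compl₁₂ ((g i).toLinearEquiv : E →ₗ[ℝ] E) ((g i).toLinearEquiv : E →ₗ[ℝ] E) := ⟨_, rfl⟩
  have hbv : ∀ i u v, b i u v = B (g i u) (g i v) := by
    intro i u v
    rw [hb]
    rfl
  have hS : ∀ i, Star F m ⊤ (b i) := by
    intro i
    refine ⟨fun u v => ?_, fun u => ?_, fun h _ u _ => ?_⟩
    · rw [hbv, hbv]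
      exact hB.symm _ _
    · rw [hbv]
      exact hB.nonneg _
    · rw [hbv, hbv, cj_trans]
      exact hB.star (h.trans (g i)) le_top _ (Submodule.mem_top)
  have hbC : ∀ i u, b i u u ≤ C * ‖u‖ ^ 2 := by
    intro i u
    rw [hbv]
    have := hC (g i u)
    rwa [(g i).norm_map] at this
  obtain ⟨b', hS', hlim⟩ := hULIM E F hF m ℕ (hyperfilter ℕ) (fun _ => ⊤) b hS
    (fun u => Eventually.of_forall fun _ => Submodule.mem_top)
    (fun u => ⟨C * ‖u‖ ^ 2, Eventually.of_forall fun i => hbC i u⟩)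
  -- the limit form vanishes at `e`
  have hle : (hyperfilter ℕ : Filter ℕ) ≤ atTop := by
    rw [← Nat.cofinite_eq_atTop]
    exact hyperfilter_le_cofinite
  have hbe : b' e e = 0 := by
    have h1 : Tendsto (fun i : ℕ => 1 / ((i : ℝ) + 1)) (hyperfilter ℕ : Filter ℕ) (𝓝 0) :=
      tendsto_one_div_add_atTop_nhds_zero_nat.mono_left hle
    have h2 : Tendsto (fun i => b i e e) (hyperfilter ℕ : Filter ℕ) (𝓝 0) := by
      refine squeeze_zero (fun i => (hS i).nonneg e) (fun i => ?_) h1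
      rw [hbv]
      exact (hg i).le
    exact tendsto_nhds_unique (hlim e e) h2
  -- unit vectors with large values
  have hk : ∀ i, ∃ k : rg F, ‖k‖ = 1 ∧ c ≤ b i k k := by
    intro i
    obtain ⟨k, hk1, hk2, hk3⟩ := hlow (g i)
    obtain ⟨k₀, hk₀, rfl⟩ := hk1
    refine ⟨⟨k₀, hk₀⟩, ?_, ?_⟩
    · have : ‖g i k₀‖ = 1 := hk2
      rwa [(g i).norm_map] at this
    · rw [hbv]
      exact hk3
  choose κ hκ1 hκ2 using hk
  have hfin : FiniteDimensional ℝ (rg F) := hF.fin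
  have hprop : ProperSpace (rg F) := FiniteDimensional.proper ℝ (rg F)
  obtain ⟨k, hk1, hk2⟩ := (isCompact_sphere (0 : rg F) 1).ultrafilter_le_nhds
    ((hyperfilter ℕ).map κ) (by
      rw [le_principal_iff]
      show κ ⁻¹' _ ∈ (hyperfilter ℕ : Filter ℕ)
      refine Filter.mem_of_superset univ_mem fun i _ => ?_
      show κ i ∈ Metric.sphere (0 : rg F) 1
      rw [mem_sphere_zero_iff_norm]
      exact hκ1 i)
  have hκlim : Tendsto κ (hyperfilter ℕ : Filter ℕ) (𝓝 k) := hk2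
  have hκn : Tendsto (fun i => ‖κ i - k‖ ^ 2) (hyperfilter ℕ : Filter ℕ) (𝓝 0) := by
    have h1 : Tendsto (fun i => ‖κ i - k‖) (hyperfilter ℕ : Filter ℕ) (𝓝 0) := by
      rw [← tendsto_iff_norm_sub_tendsto_zero]
      exact hκlim
    have := h1.pow 2
    simpa using this
  have hbk : c ≤ 2 * b' k k := by
    have h1 : Tendsto (fun i => 2 * b i k k + 2 * (C * ‖κ i - k‖ ^ 2))
        (hyperfilter ℕ : Filter ℕ) (𝓝 (2 * b' k k + 2 * (C * 0))) :=
      ((hlim k k).const_mul 2).add ((hκn.const_mul C).const_mul 2)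
    rw [mul_zero, mul_zero, add_zero] at h1
    refine ge_of_tendsto h1 (Eventually.of_forall fun i => ?_)
    have h2 := par (hS i).nonneg (k : E) ((κ i : E) - k)
    rw [add_sub_cancel] at h2
    have h3 := hbC i ((κ i : E) - k)
    have h4 : ‖(κ i : E) - k‖ = ‖κ i - k‖ := rfl
    rw [h4] at h3
    have h5 := hκ2 i
    linarith
  have htop := hIRR E hinf hT F hF (nul b' hS'.nonneg) (by
      intro h
      have : e ∈ nul b' hS'.nonneg := hbe
      rw [h, Submodule.mem_bot] at this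
      exact he0 this)
    (by
      intro h u hu
      have hu' : b' u u = 0 := hu
      have h1 := hS'.star h le_top u Submodule.mem_top
      rw [hu', mul_zero] at h1
      exact le_antisymm h1 (hS'.nonneg _))
  have : (k : E) ∈ nul b' hS'.nonneg := by
    rw [htop]
    exact Submodule.mem_top
  have h0 : b' k k = 0 := this
  rw [h0] at hbk
  linarith

end Pool.Agent.H80.MR
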