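import Pool.Agent.H80.MR.Stm

set_option autoImplicit false

namespace Pool.Agent.H80.MR

variable {E : Type} [NormedAddCommGroup E] [NormedSpace ℝ E]

theorem pos_bound (B : E →ₗ[ℝ] E →ₗ[ℝ] ℝ) (C : ℝ) (hs : ∀ u v, B u v = B v u)
    (hn : ∀ u, 0 ≤ B u u) (hC : ∀ u, B u u ≤ C * ‖u‖ ^ 2) (u v : E) :
    ‖B u v‖ ≤ |C| * ‖u‖ * ‖v‖ := by
  have hC' : ∀ u, B u u ≤ |C| * ‖u‖ ^ 2 := fun u =>
    (hC u).trans (mul_le_mul_of_nonneg_right (le_abs_self C) (by positivity))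
  have key : ∀ v : E, B u v ≤ |C| * ‖u‖ * ‖v‖ := by
    intro v
    rcases eq_or_ne u 0 with rfl | hu
    · simp
    rcases eq_or_ne v 0 with rfl | hv
    · simp
    have hu' : 0 < ‖u‖ := norm_pos_iff.2 hu
    have hv' : 0 < ‖v‖ := norm_pos_iff.2 hv
    have h1 : B (‖v‖ • u + ‖u‖ • v) (‖v‖ • u + ‖u‖ • v) -
        B (‖v‖ • u - ‖u‖ • v) (‖v‖ • u - ‖u‖ • v) = 4 * (‖u‖ * ‖v‖) * B u v := by
      simp only [map_add, map_sub, map_smul, LinearMap.add_apply, LinearMap.sub_apply,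
        LinearMap.smul_apply, smul_eq_mul, hs v u]
      ring
    have h2 := hn (‖v‖ • u - ‖u‖ • v)
    have h3 := hC' (‖v‖ • u + ‖u‖ • v)
    have h4 : ‖‖v‖ • u + ‖u‖ • v‖ ≤ 2 * (‖u‖ * ‖v‖) := by
      refine (norm_add_le _ _).trans ?_
      rw [norm_smul, norm_smul, norm_norm, norm_norm]
      linarith [mul_comm ‖u‖ ‖v‖]
    have h5 : ‖‖v‖ • u + ‖u‖ • v‖ ^ 2 ≤ (2 * (‖u‖ * ‖v‖)) ^ 2 :=
      pow_le_pow_left₀ (norm_nonneg _) h4 2
    have h6 : |C| * ‖‖v‖ • u + ‖u‖ • v‖ ^ 2 ≤ |C| * (2 * (‖u‖ * ‖v‖)) ^ 2 :=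
      mul_le_mul_of_nonneg_left h5 (abs_nonneg C)
    have h7 : (4 * (‖u‖ * ‖v‖)) * B u v ≤ (4 * (‖u‖ * ‖v‖)) * (|C| * ‖u‖ * ‖v‖) := by
      calc (4 * (‖u‖ * ‖v‖)) * B u v ≤ |C| * (2 * (‖u‖ * ‖v‖)) ^ 2 := by linarith
        _ = _ := by ring
    exact le_of_mul_le_mul_left h7 (by positivity)
  rw [Real.norm_eq_abs, abs_le]
  constructor
  · have := key (-v)
    rw [map_neg, norm_neg] at this
    linarith
  · exact key v

theorem pos_cont (B : E →ₗ[ℝ] E →ₗ[ℝ] ℝ) (C : ℝ) (hs : ∀ u v, B u v = B v u)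
    (hn : ∀ u, 0 ≤ B u u) (hC : ∀ u, B u u ≤ C * ‖u‖ ^ 2) : Continuous fun u => B u u := by
  have h : (fun u => B u u) = fun u =>
      (LinearMap.mkContinuous₂ B |C| (pos_bound B C hs hn hC)) u u := by
    ext u
    rfl
  rw [h]
  exact (ContinuousLinearMap.continuous _).clm_apply continuous_id

/-- the form `B (T u) (T v)` -/
noncomputable def tr (B : E →ₗ[ℝ] E →ₗ[ℝ] ℝ) (T : E ≃ₗᵢ[ℝ] E) : E →ₗ[ℝ] E →ₗ[ℝ] ℝ :=
  B.compl₁₂ (T.toLinearEquiv : E →ₗ[ℝ] E) (T.toLinearEquiv : E →ₗ[ℝ] E)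

theorem tr_apply (B : E →ₗ[ℝ] E →ₗ[ℝ] ℝ) (T : E ≃ₗᵢ[ℝ] E) (u v : E) :
    tr B T u v = B (T u) (T v) := rfl

theorem tr_star {F : E →L[ℝ] E} {m : ℝ} {B : E →ₗ[ℝ] E →ₗ[ℝ] ℝ} (hB : Star F m ⊤ B)
    (T : E ≃ₗᵢ[ℝ] E) : Star F m ⊤ (tr B T) where
  symm u v := by rw [tr_apply, tr_apply, hB.symm]
  nonneg u := by rw [tr_apply]; exact hB.nonneg _
  star g _ u _ := by
    rw [tr_apply, tr_apply]
    have h1 : T (cj F g u) = cj F (g.trans T) (T u) := by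
      show T (g (F (g.symm u))) = T (g (F (g.symm (T.symm (T u)))))
      rw [T.symm_apply_apply]
    rw [h1]
    exact hB.star _ le_top _ trivial

theorem pos : S_POS := by
  intro E _ _ hTr F hF m B C hB hex hC
  obtain ⟨u0, hu0⟩ := hex
  have hcont := pos_cont B C hB.symm hB.nonneg hC
  have hu0ne : u0 ≠ 0 := by
    rintro rfl
    simp at hu0
  have hu0n : 0 < ‖u0‖ := norm_pos_iff.2 hu0ne
  set w : E := ‖u0‖⁻¹ • u0 with hw
  have hwn : ‖w‖ = 1 := by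
    rw [hw, norm_smul, norm_inv, norm_norm, inv_mul_cancel₀ hu0n.ne']
  have hBw : 0 < B w w := by
    rw [hw, map_smul, map_smul, LinearMap.smul_apply, smul_eq_mul, smul_eq_mul]
    positivity
  haveI : FiniteDimensional ℝ (rg F) := hF.fin
  set K1 : Set E := (rg F : Set E) ∩ Metric.sphere 0 1 with hK1
  have hK1c : IsCompact K1 := by
    have h1 : K1 = (Subtype.val : rg F → E) '' Metric.sphere (0 : rg F) 1 := by
      ext x
      constructor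
      · rintro ⟨hx1, hx2⟩
        refine ⟨⟨x, hx1⟩, ?_, rfl⟩
        rw [mem_sphere_zero_iff_norm] at hx2 ⊢
        exact hx2
      · rintro ⟨y, hy, rfl⟩
        refine ⟨y.2, ?_⟩
        rw [mem_sphere_zero_iff_norm] at hy ⊢
        exact hy
    rw [h1]
    haveI : ProperSpace (rg F) := FiniteDimensional.proper_real (rg F)
    exact (isCompact_sphere (0 : rg F) 1).image continuous_subtype_val
  have hT : ∀ k ∈ K1, ∃ T : E ≃ₗᵢ[ℝ] E, 0 < B (T k) (T k) := by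
    intro k hk
    obtain ⟨T, hT⟩ := hTr k w (mem_sphere_zero_iff_norm.1 hk.2) hwn
    exact ⟨T, by rw [hT]; exact hBw⟩
  choose! T hT using hT
  obtain ⟨t, htK, ht⟩ := hK1c.elim_nhds_subcover (fun k => {x | 0 < B (T k x) (T k x)}) (by
    intro k hk
    refine IsOpen.mem_nhds ?_ (hT k hk)
    exact isOpen_lt continuous_const (hcont.comp (T k).continuous))
  set B' : E →ₗ[ℝ] E →ₗ[ℝ] ℝ := ∑ k ∈ t, tr B (T k) with hB'
  have hB'a : ∀ u v, B' u v = ∑ k ∈ t, B (T k u) (T k v) := by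
    intro u v
    rw [hB', LinearMap.sum_apply, LinearMap.sum_apply]
    rfl
  have hStar : Star F m ⊤ B' := by
    refine ⟨fun u v => ?_, fun u => ?_, fun g hg u hu => ?_⟩
    · rw [hB'a, hB'a]
      exact Finset.sum_congr rfl fun k _ => hB.symm _ _
    · rw [hB'a]
      exact Finset.sum_nonneg fun k _ => hB.nonneg _
    · rw [hB'a, hB'a, Finset.mul_sum]
      exact Finset.sum_le_sum fun k _ => (tr_star hB (T k)).star g hg u hu
  have hC' : ∀ u, B' u u ≤ (t.card * C) * ‖u‖ ^ 2 := by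
    intro u
    rw [hB'a]
    calc ∑ k ∈ t, B (T k u) (T k u) ≤ ∑ k ∈ t, C * ‖u‖ ^ 2 := by
          refine Finset.sum_le_sum fun k _ => ?_
          have := hC (T k u)
          rwa [(T k).norm_map] at this
      _ = (t.card * C) * ‖u‖ ^ 2 := by
          rw [Finset.sum_const, nsmul_eq_mul]; ring
  have hposK : ∀ x ∈ K1, 0 < B' x x := by
    intro x hx
    rw [hB'a]
    obtain ⟨k, hk⟩ := Set.mem_iUnion.1 (ht hx)
    obtain ⟨hkt, hk2⟩ := Set.mem_iUnion.1 hk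
    exact Finset.sum_pos' (fun i _ => hB.nonneg _) ⟨k, hkt, hk2⟩
  have hcont' := pos_cont B' (t.card * C) hStar.symm hStar.nonneg hC'
  obtain ⟨c, hc, hcK⟩ : ∃ c : ℝ, 0 < c ∧ ∀ x ∈ K1, c ≤ B' x x := by
    rcases K1.eq_empty_or_nonempty with h | h
    · exact ⟨1, one_pos, fun x hx => by rw [h] at hx; exact hx.elim⟩
    · obtain ⟨x0, hx0, hmin⟩ := hK1c.exists_isMinOn h hcont'.continuousOn
      exact ⟨B' x0 x0, hposK x0 hx0, fun x hx => hmin hx⟩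
  refine ⟨B', t.card * C, c, hStar, hc, hC', fun k hk => ?_⟩
  rcases eq_or_ne k 0 with rfl | hk0
  · simp
  have hkn : 0 < ‖k‖ := norm_pos_iff.2 hk0
  have h1 : ‖k‖⁻¹ • k ∈ K1 := by
    refine ⟨(rg F).smul_mem _ hk, ?_⟩
    rw [mem_sphere_zero_iff_norm, norm_smul, norm_inv, norm_norm, inv_mul_cancel₀ hkn.ne']
  have h2 := hcK _ h1
  rw [map_smul, map_smul, LinearMap.smul_apply, smul_eq_mul, smul_eq_mul] at h2
  have h3 : c * ‖k‖ ^ 2 ≤ (‖k‖⁻¹ * (‖k‖⁻¹ * B' k k)) * ‖k‖ ^ 2 :=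
    mul_le_mul_of_nonneg_right h2 (by positivity)
  calc c * ‖k‖ ^ 2 ≤ (‖k‖⁻¹ * (‖k‖⁻¹ * B' k k)) * ‖k‖ ^ 2 := h3
    _ = B' k k := by field_simp

end Pool.Agent.H80.MR
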