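import Pool.Agent.H80.MR.Stm2

/-!
# Stub MB-PW
-/

set_option autoImplicit false

namespace Pool.Agent.H80.MR

open Filter Topology

theorem PW.approx {E : Type} [NormedAddCommGroup E] [NormedSpace ℝ E] (F : E →L[ℝ] E) (N : ℕ) :
    N * ‖F‖ ≤ 1 / 2 → ‖(1 - (1 - F) ^ N) - (N : ℝ) • F‖ ≤ (N * ‖F‖) ^ 2 := by
  induction N with
  | zero => intro _; simp
  | succ N ih =>
    intro h
    push_cast at h ⊢
    have hF := norm_nonneg F
    have hN : (0 : ℝ) ≤ N := by positivity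
    have h1 : (N : ℝ) * ‖F‖ ≤ 1 / 2 := by nlinarith
    have h2 := ih h1
    have h3 : (1 - (1 - F) ^ (N + 1)) - ((N : ℝ) + 1) • F =
        ((1 - (1 - F) ^ N) - (N : ℝ) • F) - (1 - (1 - F) ^ N) * F := by
      rw [pow_succ, add_smul, one_smul]
      noncomm_ring
    have h4 : ‖1 - (1 - F) ^ N‖ ≤ 3 / 2 * (N * ‖F‖) := by
      have h5 : 1 - (1 - F) ^ N = ((1 - (1 - F) ^ N) - (N : ℝ) • F) + (N : ℝ) • F := by abel
      rw [h5]
      refine (norm_add_le _ _).trans ?_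
      rw [norm_smul, Real.norm_eq_abs, abs_of_nonneg hN]
      have : 0 ≤ (N : ℝ) * ‖F‖ := by positivity
      nlinarith
    rw [h3]
    refine (norm_sub_le _ _).trans ?_
    have h6 : ‖(1 - (1 - F) ^ N) * F‖ ≤ 3 / 2 * (N * ‖F‖) * ‖F‖ :=
      (norm_mul_le _ _).trans (mul_le_mul_of_nonneg_right h4 hF)
    have h7 : 0 ≤ (N : ℝ) * ‖F‖ * ‖F‖ := by positivity
    nlinarith [sq_nonneg ‖F‖]

theorem pw : S_PW := by
  intro E _ _ _ F ε hε hε2 hF
  have hF0 : 0 < ‖F‖ := by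
    rcases (norm_nonneg F).lt_or_eq with h | h
    · exact h
    · have h1 : F = 0 := norm_eq_zero.1 h.symm
      rw [h1] at hF
      simp at hF
  have hF4 : ‖F‖ ≤ 4 := by
    have h1 : ‖F‖ ≤ ‖(1 : E →L[ℝ] E)‖ + ‖(1 : E →L[ℝ] E) - F‖ := by
      have : F = 1 - (1 - F) := by abel
      conv_lhs => rw [this]
      exact norm_sub_le _ _
    rw [norm_one] at h1
    nlinarith
  by_cases hc : 1 / 4 ≤ ‖F‖
  · exact ⟨F, le_rfl, by linarith, hF4, by nlinarith⟩
  · push Not at hc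
    obtain ⟨N, hN⟩ : ∃ N : ℕ, N = ⌊1 / (2 * ‖F‖)⌋₊ := ⟨_, rfl⟩
    have hN1 : (N : ℝ) ≤ 1 / (2 * ‖F‖) := by rw [hN]; exact Nat.floor_le (by positivity)
    have hN2 : 1 / (2 * ‖F‖) < N + 1 := by rw [hN]; exact Nat.lt_floor_add_one _
    rw [le_div_iff₀ (by positivity)] at hN1
    rw [div_lt_iff₀ (by positivity)] at hN2
    obtain ⟨s, hs⟩ : ∃ s : ℝ, s = N * ‖F‖ := ⟨_, rfl⟩
    have hs1 : s ≤ 1 / 2 := by rw [hs]; linarith
    have hs2 : 1 / 4 ≤ s := by rw [hs]; nlinarith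
    have h1 := PW.approx F N (by rw [← hs]; exact hs1)
    rw [← hs] at h1
    have hNF : ‖(N : ℝ) • F‖ = s := by
      rw [norm_smul, Real.norm_eq_abs, abs_of_nonneg (by positivity), hs]
    refine ⟨1 - (1 - F) ^ N, ?_, ?_, ?_, ?_⟩
    · have h2 : 1 - (1 - F) ^ N = F * ∑ i ∈ Finset.range N, (1 - F) ^ i := by
        have h3 := mul_neg_geom_sum (1 - F) N
        rw [sub_sub_cancel] at h3
        exact h3.symm
      rw [h2]
      rintro _ ⟨x, rfl⟩
      exact ⟨(∑ i ∈ Finset.range N, (1 - F) ^ i) x, rfl⟩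
    · have h2 : ‖(N : ℝ) • F‖ ≤ ‖1 - (1 - F) ^ N‖ + ‖(1 - (1 - F) ^ N) - (N : ℝ) • F‖ := by
        have : (N : ℝ) • F = (1 - (1 - F) ^ N) - ((1 - (1 - F) ^ N) - (N : ℝ) • F) := by abel
        conv_lhs => rw [this]
        exact norm_sub_le _ _
      rw [hNF] at h2
      nlinarith
    · have h2 : ‖1 - (1 - F) ^ N‖ ≤ ‖(1 - (1 - F) ^ N) - (N : ℝ) • F‖ + ‖(N : ℝ) • F‖ := by
        have : 1 - (1 - F) ^ N = ((1 - (1 - F) ^ N) - (N : ℝ) • F) + (N : ℝ) • F := by abel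
        conv_lhs => rw [this]
        exact norm_add_le _ _
      rw [hNF] at h2
      nlinarith
    · rw [sub_sub_cancel]
      calc ‖(1 - F) ^ N‖ ≤ ‖1 - F‖ ^ N := norm_pow_le _ _
        _ ≤ (1 + ε * ‖F‖) ^ N := by gcongr
        _ ≤ (Real.exp (ε * ‖F‖)) ^ N := by
            gcongr
            linarith [Real.add_one_le_exp (ε * ‖F‖)]
        _ = Real.exp (ε * s) := by rw [← Real.exp_nat_mul, hs]; congr 1; ring
        _ ≤ 1 + 4 * ε := by
            have h2 : |Real.exp (ε * s) - 1| ≤ 2 * |ε * s| := by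
              refine Real.abs_exp_sub_one_le ?_
              rw [abs_of_nonneg (by positivity)]
              nlinarith
            rw [abs_of_nonneg (by positivity : (0:ℝ) ≤ ε * s)] at h2
            have h3 := (abs_le.1 h2).2
            nlinarith

end Pool.Agent.H80.MR
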