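import Pool.Agent.H80.MR.UP

/-!
# Stub MR-REACH
-/

set_option autoImplicit false

namespace Pool.Agent.H80.MR

theorem reach : S_UP → S_LOW → S_REACH := by
  intro hUP hLOW E _ _ F hF m hm n
  have : FiniteDimensional ℝ (rg F) := hF.fin
  induction n with
  | zero =>
    intro g hg
    have hg' : kr F g = rg F := hg
    refine ⟨rg F, this, hg'.le, fun L _ b _ c _ => ⟨fun h k hk => ?_, fun h k hk => ?_⟩⟩
    · rw [hg'] at hk; simpa using h k hk
    · rw [hg'] at hk; simpa using h k hk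
  | succ n ih =>
    rintro h ⟨g, hg, hn⟩
    obtain ⟨W, hW, hgW, hL⟩ := ih g hg
    refine ⟨W ⊔ kr F h, inferInstance, le_sup_right, fun L hWL b hb c hc => ?_⟩
    obtain ⟨h1, h2⟩ := hL L (le_sup_left.trans hWL) b hb c hc
    have hgL : kr F g ≤ L := hgW.trans (le_sup_left.trans hWL)
    have hhL : kr F h ≤ L := le_sup_right.trans hWL
    constructor
    · intro h3 k hk
      have h4 := hUP E F hF m L b hm hb g h hn hgL hhL ((2 * m) ^ n * c) (by positivity)
        (h1 h3) k hk
      calc b k k ≤ 2 * m * ((2 * m) ^ n * c) * ‖k‖ ^ 2 := h4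
        _ = (2 * m) ^ (n + 1) * c * ‖k‖ ^ 2 := by ring
    · intro h3 k hk
      have h4 := hLOW E F hF m L b hm hb g h hn hgL hhL (c / (2 * m) ^ n) (by positivity)
        (h2 h3) k hk
      calc c / (2 * m) ^ (n + 1) * ‖k‖ ^ 2 = c / (2 * m) ^ n / (2 * m) * ‖k‖ ^ 2 := by
            rw [div_div, pow_succ]
        _ ≤ b k k := h4

end Pool.Agent.H80.MR
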