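import Pool.Agent.H80.MR.Stm2

/-!
# MB-SEP: separable almost transitive subspaces
-/

set_option autoImplicit false

namespace Pool.Agent.H80.MR

open Filter Topology

namespace SepH

/-- terms -/
inductive Tm : Type
  | z : ℕ → Tm
  | add : Tm → Tm → Tm
  | smul : ℚ → Tm → Tm
  | nrm : Tm → Tm
  | F : ℕ → Tm → Tm
  | t : Tm → Tm → ℕ → Tm → Tm
  | ti : Tm → Tm → ℕ → Tm → Tm
  deriving Countable

section

variable {E : Type} [NormedAddCommGroup E] [NormedSpace ℝ E]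

noncomputable def ev (τ : E → E → ℕ → E ≃ₗᵢ[ℝ] E) (F : ℕ → E →L[ℝ] E) (z : ℕ → E) : Tm → E
  | .z j => z j
  | .add a b => ev τ F z a + ev τ F z b
  | .smul q a => (q : ℝ) • ev τ F z a
  | .nrm a => ‖ev τ F z a‖⁻¹ • ev τ F z a
  | .F j a => F j (ev τ F z a)
  | .t a b n c => τ (ev τ F z a) (ev τ F z b) n (ev τ F z c)
  | .ti a b n c => (τ (ev τ F z a) (ev τ F z b) n).symm (ev τ F z c)

/-- the closure of a countable set closed under the operations -/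
noncomputable def E0 (τ : E → E → ℕ → E ≃ₗᵢ[ℝ] E) (F : ℕ → E →L[ℝ] E) (z : ℕ → E) :
    Submodule ℝ E where
  carrier := closure (Set.range (ev τ F z))
  zero_mem' := by
    apply subset_closure
    exact ⟨.smul 0 (.z 0), by simp [ev]⟩
  add_mem' := by
    intro a b ha hb
    refine map_mem_closure₂ continuous_add ha hb ?_
    rintro _ ⟨x, rfl⟩ _ ⟨y, rfl⟩
    exact ⟨.add x y, rfl⟩
  smul_mem' := by
    intro c x hx
    have hc : c ∈ closure (Set.range ((↑) : ℚ → ℝ)) := Rat.isDenseEmbedding_coe_real.dense c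
    refine map_mem_closure₂ continuous_smul hc hx ?_
    rintro _ ⟨q, rfl⟩ _ ⟨y, rfl⟩
    exact ⟨.smul q y, rfl⟩

/-- restriction of an isometry -/
noncomputable def rst (T : E ≃ₗᵢ[ℝ] E) (p : Submodule ℝ E) (h1 : ∀ u ∈ p, T u ∈ p)
    (h2 : ∀ u ∈ p, T.symm u ∈ p) : p ≃ₗᵢ[ℝ] p where
  toFun u := ⟨T u, h1 u u.2⟩
  invFun u := ⟨T.symm u, h2 u u.2⟩
  left_inv u := by
    apply Subtype.ext
    exact T.symm_apply_apply u
  right_inv u := by
    apply Subtype.ext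
    exact T.apply_symm_apply u
  map_add' u v := by
    apply Subtype.ext
    exact T.map_add u v
  map_smul' c u := by
    apply Subtype.ext
    exact T.map_smul c u
  norm_map' u := T.norm_map u

/-- normalising a near vector -/
theorem near_unit {x d : E} (hx : ‖x‖ = 1) {ε : ℝ} (hd : ‖d - x‖ < ε) (hε : ε ≤ 1 / 2) :
    d ≠ 0 ∧ ‖‖d‖⁻¹ • d - x‖ < 2 * ε := by
  have h1 := abs_norm_sub_norm_le d x
  rw [hx] at h1
  have h2 : |‖d‖ - 1| < ε := lt_of_le_of_lt h1 hd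
  obtain ⟨h3, h4⟩ := abs_lt.1 h2
  have hpos : 0 < ‖d‖ := by linarith
  refine ⟨norm_pos_iff.1 hpos, ?_⟩
  have h5 : ‖‖d‖⁻¹ • d - d‖ = |1 - ‖d‖| := by
    have e : ‖d‖⁻¹ • d - d = (‖d‖⁻¹ - 1) • d := by rw [sub_smul, one_smul]
    rw [e, norm_smul, Real.norm_eq_abs]
    have : |‖d‖⁻¹ - 1| * ‖d‖ = |(‖d‖⁻¹ - 1) * ‖d‖| := by rw [abs_mul, abs_norm]
    rw [this, sub_mul, inv_mul_cancel₀ hpos.ne', one_mul]
  calc ‖‖d‖⁻¹ • d - x‖ = ‖(‖d‖⁻¹ • d - d) + (d - x)‖ := by congr 1; abel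
    _ ≤ ‖‖d‖⁻¹ • d - d‖ + ‖d - x‖ := norm_add_le _ _
    _ < ε + ε := by
        rw [h5, abs_sub_comm]
        exact add_lt_add h2 hd
    _ = 2 * ε := by ring

end

end SepH

open SepH in
theorem sep : S_SEP := by
  intro E _ _ hAT F z
  classical
  have hch : ∀ (x y : E) (n : ℕ), ∃ T : E ≃ₗᵢ[ℝ] E, ‖x‖ = 1 → ‖y‖ = 1 →
      ‖T x - y‖ < 1 / ((n : ℝ) + 1) := by
    intro x y n
    by_cases h : ‖x‖ = 1 ∧ ‖y‖ = 1
    · obtain ⟨T, hT⟩ := hAT x y h.1 h.2 (1 / ((n : ℝ) + 1)) (by positivity)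
      exact ⟨T, fun _ _ => hT⟩
    · exact ⟨LinearIsometryEquiv.refl ℝ E, fun h1 h2 => absurd ⟨h1, h2⟩ h⟩
  choose τ hτ using hch
  have hcount : (Set.range (ev τ F z)).Countable := Set.countable_range _
  refine ⟨E0 τ F z, isClosed_closure, ?_, ?_, ?_, ?_⟩
  · have h1 : TopologicalSpace.IsSeparable (closure (Set.range (ev τ F z))) :=
      hcount.isSeparable.closure
    exact h1.separableSpace
  · intro j
    exact subset_closure ⟨.z j, rfl⟩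
  · intro j u hu
    refine map_mem_closure (F j).continuous hu ?_
    rintro _ ⟨x, rfl⟩
    exact ⟨.F j x, rfl⟩
  · intro x y hx hy ε hε
    have hx' : ‖(x : E)‖ = 1 := hx
    have hy' : ‖(y : E)‖ = 1 := hy
    obtain ⟨ρ, hρ⟩ : ∃ ρ, ρ = min (1 / 2) (ε / 8) := ⟨_, rfl⟩
    have hρ0 : 0 < ρ := by
      rw [hρ]
      exact lt_min (by norm_num) (by linarith)
    have hρ1 : ρ ≤ 1 / 2 := by rw [hρ]; exact min_le_left _ _
    have hρ2 : ρ ≤ ε / 8 := by rw [hρ]; exact min_le_right _ _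
    have hap : ∀ v : E, v ∈ E0 τ F z → ‖v‖ = 1 → ∃ a : Tm, ‖ev τ F z a‖ = 1 ∧
        ‖ev τ F z a - v‖ < 2 * ρ := by
      intro v hv hv1
      obtain ⟨_, ⟨d, rfl⟩, hd⟩ := Metric.mem_closure_iff.1 hv ρ hρ0
      rw [dist_eq_norm, norm_sub_rev] at hd
      obtain ⟨h1, h2⟩ := near_unit hv1 hd hρ1
      refine ⟨.nrm d, ?_, h2⟩
      show ‖‖ev τ F z d‖⁻¹ • ev τ F z d‖ = 1
      rw [norm_smul, norm_inv, norm_norm, inv_mul_cancel₀ (norm_ne_zero_iff.2 h1)]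
    obtain ⟨a, ha1, ha2⟩ := hap x x.2 hx'
    obtain ⟨b, hb1, hb2⟩ := hap y y.2 hy'
    obtain ⟨n, hn⟩ := exists_nat_one_div_lt (show (0 : ℝ) < ε / 4 by linarith)
    obtain ⟨T, hT⟩ : ∃ T, T = τ (ev τ F z a) (ev τ F z b) n := ⟨_, rfl⟩
    have h1 : ∀ u ∈ E0 τ F z, T u ∈ E0 τ F z := by
      intro u hu
      refine map_mem_closure T.continuous hu ?_
      rintro _ ⟨c, rfl⟩
      exact ⟨.t a b n c, by rw [hT]; rfl⟩
    have h2 : ∀ u ∈ E0 τ F z, T.symm u ∈ E0 τ F z := by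
      intro u hu
      refine map_mem_closure T.symm.continuous hu ?_
      rintro _ ⟨c, rfl⟩
      exact ⟨.ti a b n c, by rw [hT]; rfl⟩
    refine ⟨rst T (E0 τ F z) h1 h2, ?_⟩
    show ‖T x - y‖ < ε
    have h3 := hτ (ev τ F z a) (ev τ F z b) n ha1 hb1
    rw [← hT] at h3
    have h4 : ‖T x - T (ev τ F z a)‖ < 2 * ρ := by
      rw [← map_sub, T.norm_map, norm_sub_rev]
      exact ha2
    calc ‖T x - (y : E)‖ = ‖(T x - T (ev τ F z a)) + (T (ev τ F z a) - ev τ F z b) +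
          (ev τ F z b - y)‖ := by congr 1; abel
      _ ≤ ‖(T x - T (ev τ F z a)) + (T (ev τ F z a) - ev τ F z b)‖ + ‖ev τ F z b - y‖ :=
          norm_add_le _ _
      _ ≤ ‖T x - T (ev τ F z a)‖ + ‖T (ev τ F z a) - ev τ F z b‖ + ‖ev τ F z b - y‖ := by
          gcongr
          exact norm_add_le _ _
      _ < ε := by linarith

end Pool.Agent.H80.MR
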