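import Pool.Agent.H80.MR.BDD

/-!
# Stub MB-SEQ
-/

set_option autoImplicit false

namespace Pool.Agent.H80.MR

open Filter Topology

theorem seq : S_IRR → S_BDD → S_SEQ := by
  intro hIRR hBDD E _ _ _ hinf htr F hF m hm b hb hrg
  obtain ⟨x₁, hx₁, hx₁n⟩ := hF.unit
  have hx₁0 : x₁ ≠ 0 := by intro h; rw [h, norm_zero] at hx₁n; exact zero_ne_one hx₁n
  have hpsd : ∀ i, Psd (b i) := fun i => (hb i).psd
  have hpt : ∀ u, ∃ C : ℝ, ∀ i, b i u u ≤ C := by
    by_contra hcon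
    push Not at hcon
    obtain ⟨u, hu⟩ := hcon
    choose φ hφ using fun n : ℕ => hu n
    have htop : bddSub (fun n => hpsd (φ n)) (hyperfilter ℕ : Filter ℕ) = ⊤ := by
      refine hIRR E hinf htr F hF _ ?_ ?_
      · intro h
        have h1 : x₁ ∈ bddSub (fun n => hpsd (φ n)) (hyperfilter ℕ : Filter ℕ) :=
          ⟨_, Eventually.of_forall fun n => hrg (φ n) x₁ hx₁⟩
        rw [h] at h1
        exact hx₁0 h1
      · rintro g v ⟨C, hC⟩
        refine ⟨m * C, ?_⟩
        filter_upwards [hC] with n h1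
        refine ((hb (φ n)).star g le_top v trivial).trans ?_
        gcongr
    have hmem : u ∈ bddSub (fun n => hpsd (φ n)) (hyperfilter ℕ : Filter ℕ) := by
      rw [htop]; trivial
    obtain ⟨C, hC⟩ := hmem
    obtain ⟨M, hM⟩ := exists_nat_ge C
    have h2 : ∀ᶠ n in (hyperfilter ℕ : Filter ℕ), M ≤ n :=
      Nat.hyperfilter_le_atTop (eventually_ge_atTop M)
    obtain ⟨n, hn1, hn2⟩ := (hC.and h2).exists
    have h3 := hφ n
    have h4 : (M : ℝ) ≤ n := by exact_mod_cast hn2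
    linarith
  obtain ⟨C, hC0, hC⟩ := baire_forms hpsd hpt
  refine ⟨2 * C + 2, fun i => bound_of_unit (b i) fun y hy => ?_⟩
  obtain ⟨Ci, hCi⟩ := hBDD E htr F hF m (b i) hm (hb i)
  obtain ⟨η, hη, hη1⟩ := small_eta |Ci| (abs_nonneg _)
  obtain ⟨u, hu, hd⟩ := hC y hy η hη
  have h5 := (hpsd i).add_le u (y - u)
  rw [add_sub_cancel] at h5
  have h6 : b i (y - u) (y - u) ≤ |Ci| * η ^ 2 := by
    refine (hCi (y - u)).trans ?_
    rw [norm_sub_rev]
    refine mul_le_mul (le_abs_self _) ?_ (by positivity) (abs_nonneg _)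
    gcongr
  have h7 := hu i
  linarith

end Pool.Agent.H80.MR
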