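import Mathlib

/-!
# Project MR: Mazur's rotation problem, one contraction `1 - F` with `F` of finite rank

THEOREM. A separable infinite-dimensional real Banach space `E` with transitive norm is isometric to a
Hilbert space if some linear contraction `T ≠ 1` has `T - 1` of finite rank.  (In the library: only for
`E` isomorphic to a Hilbert space.)

Proof. Let `P = 1 - F` be a norm-one projection with kernel `K` of finite dimension `r` (mean ergodic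
projection of `T`), `F_g = g F g⁻¹`, `K_g = g K`.
(JOHN) Let `B` be a positive definite form on a finite-dimensional normed space `L`, dominated by the
square of the norm, of maximal determinant.  For a contraction `T` of `L` all `(1 - t) B + t T^* B` are
dominated as well, so `det ((1 - t) + t M^T M) ≤ 1`, `M` = matrix of `T` in a `B`-orthonormal basis,
hence (derivative at `t = 0`) `tr M^T M ≤ dim L`.  For `T = 1 - F`, `F` idempotent of rank `r`, this says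
`tr F^T F ≤ 2 r`; so `B (F u, F u) ≤ 2 r B (u, u)`, whatever the dimension of `L` is.
(UP, LOW) If `g`, `h` are near each other on `K` then `F_h : K_g → K_h` and `F_g : K_h → K_g` are near the
identity, so upper and lower bounds of a form with this property (`Star`) pass from `K_g` to `K_h`.
(CHAIN) Baire category (`near_open`): all points of the sphere are (almost) reached by chains
of bounded length of isometries which are near to each other on `K`.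
(LIM) So the forms `B_L`, normalised on `K`, converge along an ultrafilter to a form on `E`, bounded,
nonzero, with `Star` for ALL `g`.
(POS) A finite sum of its translates is positive definite on `K`. (FIN) So it is an equivalent inner
product.  (HIL) `E` is isomorphic to a Hilbert space, and the library applies.
-/

set_option autoImplicit false

namespace Pool.Agent.H80.MR

variable {E : Type} [NormedAddCommGroup E] [NormedSpace ℝ E]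

/-- `F` is idempotent, of finite rank, different from `0`, and `1 - F` is a contraction -/
structure Ker (F : E →L[ℝ] E) : Prop where
  idem : ∀ x, F (F x) = F x
  contr : ∀ x, ‖x - F x‖ ≤ ‖x‖
  fin : FiniteDimensional ℝ (LinearMap.range (F : E →ₗ[ℝ] E))
  ne : F ≠ 0

/-- the range `K` of `F` -/
def rg (F : E →L[ℝ] E) : Submodule ℝ E := LinearMap.range (F : E →ₗ[ℝ] E)

/-- the range `g K` of `g F g⁻¹` -/
def kr (F : E →L[ℝ] E) (g : E ≃ₗᵢ[ℝ] E) : Submodule ℝ E :=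
  (rg F).map (g.toLinearEquiv : E →ₗ[ℝ] E)

/-- `g F g⁻¹` -/
noncomputable def cj (F : E →L[ℝ] E) (g : E ≃ₗᵢ[ℝ] E) : E →ₗ[ℝ] E :=
  (g.toLinearEquiv : E →ₗ[ℝ] E) ∘ₗ (F : E →ₗ[ℝ] E) ∘ₗ (g.symm.toLinearEquiv : E →ₗ[ℝ] E)

/-- a positive semidefinite symmetric form for which all `g F g⁻¹` with range in `L` are bounded
on `L` by the constant `m` -/
structure Star (F : E →L[ℝ] E) (m : ℝ) (L : Submodule ℝ E) (b : E →ₗ[ℝ] E →ₗ[ℝ] ℝ) : Prop where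
  symm : ∀ u v, b u v = b v u
  nonneg : ∀ u, 0 ≤ b u u
  star : ∀ g : E ≃ₗᵢ[ℝ] E, kr F g ≤ L → ∀ u ∈ L, b (cj F g u) (cj F g u) ≤ m * b u u

/-- `g` and `h` are near each other on the range of `F` -/
def Near (F : E →L[ℝ] E) (g h : E ≃ₗᵢ[ℝ] E) : Prop := ∀ k ∈ rg F, ‖g k - h k‖ ≤ ‖k‖ / 12

/-- `g` is reached by a chain of length `n` from an isometry (for example `1` or `-1`) which preserves
the range of `F` -/
def Reach (F : E →L[ℝ] E) : ℕ → (E ≃ₗᵢ[ℝ] E) → Prop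
  | 0, g => kr F g = rg F
  | n + 1, h => ∃ g, Reach F n g ∧ Near F g h

/-- the norm is transitive -/
def Trans (E : Type) [NormedAddCommGroup E] [NormedSpace ℝ E] : Prop :=
  ∀ x y : E, ‖x‖ = 1 → ‖y‖ = 1 → ∃ T : E ≃ₗᵢ[ℝ] E, T x = y

/-- chains of bounded length almost reach all points of the sphere -/
def Chains (F : E →L[ℝ] E) (x₁ : E) (n : ℕ) : Prop :=
  ∀ y : E, ‖y‖ = 1 → ∀ η : ℝ, 0 < η → ∃ g : E ≃ₗᵢ[ℝ] E, Reach F n g ∧ ‖g x₁ - y‖ ≤ η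

/-! ## Stubs -/

/-- JOHN (100-150 lines).  Let `N = dim L`.  Consider the linear maps `A : L → ℝ^N` (`EuclideanSpace`)
with `‖A u‖ ≤ ‖u‖` for all `u`: a compact set; `|det|` (in a fixed basis of `L`) has a maximum `A₀`, which
is invertible (some small multiple of a basis isomorphism belongs to the set).  `B (u, v) = ⟪A₀ u, A₀ v⟫`.
Let `T = 1 - F`, `M = A₀ T A₀⁻¹`, `C = Mᵀ M ≥ 0`.  For `0 ≤ t ≤ 1` the matrix `(1 - t) + t C` is positive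
semidefinite, `= Rᵀ R` (square root), `|R A₀ u|² = (1 - t) |A₀ u|² + t |A₀ T u|² ≤ ‖u‖²`, so `R A₀` belongs to
the set and `(det R)² = det ((1 - t) + t C) ≤ 1`; the derivative at `t = 0` is `tr C - N ≤ 0`.
With `Q = A₀ F A₀⁻¹`, `M = 1 - Q`: `tr C = N - 2 tr Q + tr Qᵀ Q`, `tr Q = rank F` (`Q` is idempotent:
`LinearMap.IsIdempotentElem`/`LinearMap.trace_eq_finrank...`/`IsProj.trace`), so `tr Qᵀ Q ≤ 2 rank F`, and
`|Q v|² ≤ tr (Qᵀ Q) |v|²` (Cauchy-Schwarz). -/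
def S_JOHN : Prop :=
  ∀ (L : Type) [NormedAddCommGroup L] [NormedSpace ℝ L] [FiniteDimensional ℝ L],
    ∃ B : L →ₗ[ℝ] L →ₗ[ℝ] ℝ, (∀ u v, B u v = B v u) ∧ (∀ u, u ≠ 0 → 0 < B u u) ∧
      ∀ F : L →ₗ[ℝ] L, (∀ u, F (F u) = F u) → (∀ u, ‖u - F u‖ ≤ ‖u‖) →
        ∀ u, B (F u) (F u) ≤ 2 * (Module.finrank ℝ (LinearMap.range F) : ℝ) * B u u

/-- FORM (60-90 lines, uses JOHN).  `L` with the form of JOHN, composed with a linear projection of `E` onto `L`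
(`Submodule.exists_isCompl`, `Submodule.linearProjOfIsCompl`, or `Submodule.ClosedComplemented`).
If `kr F g ≤ L` then `cj F g` maps `L` into `L`, its restriction to `L` is idempotent, its range in `L` has
`finrank ≤ finrank (rg F)` (equality), and `1 -` it is a contraction. -/
def S_FORM : Prop :=
  ∀ (E : Type) [NormedAddCommGroup E] [NormedSpace ℝ E] (F : E →L[ℝ] E), Ker F →
    ∀ L : Submodule ℝ E, FiniteDimensional ℝ L →
      ∃ b : E →ₗ[ℝ] E →ₗ[ℝ] ℝ, Star F (2 * (Module.finrank ℝ (rg F) : ℝ)) L b ∧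
        ∀ u ∈ L, u ≠ 0 → 0 < b u u

/-- UP (60-90 lines).  For `k ∈ kr F g`, `‖cj F h k - k‖ ≤ ‖k‖ / 4`: `k = g k₀`, `cj F h k = h F h⁻¹ g k₀`,
`‖h⁻¹ g k₀ - k₀‖ = ‖g k₀ - h k₀‖ ≤ ‖k₀‖ / 12`, `F k₀ = k₀`, `‖F‖ ≤ 2`.  So `cj F h : kr F g → kr F h` is
injective, hence surjective (same finrank); for `k' ∈ kr F h` choose `k ∈ kr F g` with `cj F h k = k'`,
`‖k‖ ≤ 4/3 ‖k'‖`; `b k' k' ≤ m b k k ≤ m c 16/9 ‖k'‖²`. -/
def S_UP : Prop :=
  ∀ (E : Type) [NormedAddCommGroup E] [NormedSpace ℝ E] (F : E →L[ℝ] E), Ker F →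
    ∀ (m : ℝ) (L : Submodule ℝ E) (b : E →ₗ[ℝ] E →ₗ[ℝ] ℝ), 1 ≤ m → Star F m L b →
      ∀ g h : E ≃ₗᵢ[ℝ] E, Near F g h → kr F g ≤ L → kr F h ≤ L → ∀ c : ℝ, 0 ≤ c →
        (∀ k ∈ kr F g, b k k ≤ c * ‖k‖ ^ 2) → ∀ k ∈ kr F h, b k k ≤ (2 * m) * c * ‖k‖ ^ 2

/-- LOW (40-60 lines).  As UP: for `k' ∈ kr F h`, `k = cj F g k' ∈ kr F g`, `‖k‖ ≥ 3/4 ‖k'‖`, and
`c ‖k‖² ≤ b k k ≤ m b k' k'`. -/
def S_LOW : Prop :=
  ∀ (E : Type) [NormedAddCommGroup E] [NormedSpace ℝ E] (F : E →L[ℝ] E), Ker F →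
    ∀ (m : ℝ) (L : Submodule ℝ E) (b : E →ₗ[ℝ] E →ₗ[ℝ] ℝ), 1 ≤ m → Star F m L b →
      ∀ g h : E ≃ₗᵢ[ℝ] E, Near F g h → kr F g ≤ L → kr F h ≤ L → ∀ c : ℝ, 0 ≤ c →
        (∀ k ∈ kr F g, c * ‖k‖ ^ 2 ≤ b k k) → ∀ k ∈ kr F h, c / (2 * m) * ‖k‖ ^ 2 ≤ b k k

/-- CHAIN (100-150 lines).  `Pool.Agent.H80.MR.near_open` (file `Near.lean`, proved) with `e` = a basis of `rg F`
(coordinates are bounded on the finite-dimensional space `rg F`, so `‖T e_i - e_i‖ ≤ κ` for small `κ` gives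
`‖T k - k‖ ≤ ‖k‖ / 12` on `rg F`) gives `t > 0`: for every `g` and every unit `y`, `‖y - g x₁‖ ≤ t`, `η > 0` there is
`T` near `1` on `rg F` with `‖g T x₁ - y‖ ≤ η`; then `Near F g (g T)`.
For a unit vector `y` with `‖x₁ + y‖ ≥ 1` the path `z s = ((1 - s) x₁ + s y) / ‖(1 - s) x₁ + s y‖`, `0 ≤ s ≤ 1`, has
denominator `≥ 1/4` and is Lipschitz with constant `16`; follow it in `n = ⌈32 / t⌉` steps (from a point
`g x₁` with `‖g x₁ - z_i‖ ≤ t / 2` to `g T x₁` with `‖g T x₁ - z_{i+1}‖ ≤ t / 2`, in the last step `≤ η`).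
If `‖x₁ + y‖ < 1` then `‖-x₁ + y‖ ≥ 1`: start with `g = -1` (`LinearIsometryEquiv.neg ℝ`), which maps `x₁` to
`-x₁` and has `kr F g = rg F`.  (`φ s = ‖(1 - s) x + s y‖ ≥ |1 - 2 s|` and `≥ φ (1/2) - 2 |s - 1/2|`, so `2 φ s ≥ 1/2`;
`‖v/‖v‖ - w/‖w‖‖ ≤ 2 ‖v - w‖ / ‖v‖`.) -/
def S_CHAIN : Prop :=
  ∀ (E : Type) [NormedAddCommGroup E] [NormedSpace ℝ E] [CompleteSpace E]
    [TopologicalSpace.SeparableSpace E], ¬ FiniteDimensional ℝ E → Trans E →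
    ∀ F : E →L[ℝ] E, Ker F → ∀ x₁ ∈ rg F, ‖x₁‖ = 1 → ∃ n : ℕ, Chains F x₁ n

/-- REACH (40-60 lines, uses UP and LOW).  Induction on `n`; `W` is the sum of the `kr F g_i` of the chain. -/
def S_REACH : Prop :=
  ∀ (E : Type) [NormedAddCommGroup E] [NormedSpace ℝ E] (F : E →L[ℝ] E), Ker F →
    ∀ (m : ℝ), 1 ≤ m → ∀ (n : ℕ) (g : E ≃ₗᵢ[ℝ] E), Reach F n g →
      ∃ W : Submodule ℝ E, FiniteDimensional ℝ W ∧ kr F g ≤ W ∧ ∀ L : Submodule ℝ E, W ≤ L →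
        ∀ b : E →ₗ[ℝ] E →ₗ[ℝ] ℝ, Star F m L b → ∀ c : ℝ, 0 ≤ c →
          ((∀ k ∈ rg F, b k k ≤ c * ‖k‖ ^ 2) → ∀ k ∈ kr F g, b k k ≤ (2 * m) ^ n * c * ‖k‖ ^ 2) ∧
          ((∀ k ∈ rg F, c * ‖k‖ ^ 2 ≤ b k k) → ∀ k ∈ kr F g, c / (2 * m) ^ n * ‖k‖ ^ 2 ≤ b k k)

/-- LIM (150-220 lines, uses FORM and REACH).  Index set: finite sets `s` of `E` (directed), `L_s = span s ⊔ rg F`,
`b_s` from FORM, scaled such that `b_s k k ≤ ‖k‖²` on `rg F` with equality for some unit `k_s ∈ rg F` (compactness),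
`𝒰` = `Ultrafilter.of Filter.atTop`.  Let `E₀` be the set of `u` with `∃ C, ∀ᶠ s in 𝒰, b_s u u ≤ C`: a linear
subspace, `cj F g E₀ ⊆ E₀` for all `g` (for `s` large `kr F g ≤ L_s`, `u ∈ L_s`), and by REACH all `kr F g` with
`Reach F n g` are in `E₀`.  For any `g` and unit `k ∈ kr F g` choose (Chains) `h`, `Reach F n h`, `h x₁` near `k`:
`cj F g (h x₁) ∈ E₀ ⊓ kr F g` is near `cj F g k = k`; so `E₀ ⊓ kr F g`, finite-dimensional, hence closed,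
contains `k`.  By transitivity every unit vector is `g x₁ ∈ kr F g`, so `E₀ = E`.
`B u v = lim_𝒰 b_s u v` (bounded by Cauchy-Schwarz) is bilinear, symmetric, `≥ 0`, has `Star` with `L = ⊤`;
`B k k ≤ ‖k‖²` on `rg F` and some `k ∈ rg F` has `B k k > 0` (`rg F` is finite-dimensional: `b_s → B` uniformly on its
unit sphere; or take the limit of `k_s`).  Bound: for `h` reached, `B (h x₁) (h x₁) ≤ (2 m)^n`; for a unit vector
`k ∈ kr F g`: `B (cj F g (h x₁)) (..) ≤ m (2 m)^n`, and `cj F g (h x₁) → k` in the finite-dimensional `kr F g`,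
where `u ↦ B u u` is continuous. -/
def S_LIM : Prop :=
  ∀ (E : Type) [NormedAddCommGroup E] [NormedSpace ℝ E], Trans E →
    ∀ F : E →L[ℝ] E, Ker F → ∀ x₁ ∈ rg F, ‖x₁‖ = 1 → ∀ n : ℕ, Chains F x₁ n →
      ∃ (m : ℝ) (B : E →ₗ[ℝ] E →ₗ[ℝ] ℝ) (C : ℝ), 1 ≤ m ∧ Star F m ⊤ B ∧ (∃ u, 0 < B u u) ∧
        ∀ u, B u u ≤ C * ‖u‖ ^ 2

/-- POS (60-90 lines).  The translate `B (g⁻¹ ·) (g⁻¹ ·)` has `Star` with `L = ⊤` again
(`g⁻¹ (cj F h u) = cj F (g⁻¹ h) (g⁻¹ u)`), and so have finite sums.  `u ↦ B u u` is continuous (`B` is bounded by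
Cauchy-Schwarz).  For every unit `k ∈ rg F` there is `g` with `g⁻¹ k = u / ‖u‖`, `B u u > 0`; by compactness of
the unit sphere of `rg F` finitely many `g` are enough. -/
def S_POS : Prop :=
  ∀ (E : Type) [NormedAddCommGroup E] [NormedSpace ℝ E], Trans E →
    ∀ F : E →L[ℝ] E, Ker F → ∀ (m : ℝ) (B : E →ₗ[ℝ] E →ₗ[ℝ] ℝ) (C : ℝ), Star F m ⊤ B →
      (∃ u, 0 < B u u) → (∀ u, B u u ≤ C * ‖u‖ ^ 2) →
      ∃ (B' : E →ₗ[ℝ] E →ₗ[ℝ] ℝ) (C' c : ℝ), Star F m ⊤ B' ∧ 0 < c ∧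
        (∀ u, B' u u ≤ C' * ‖u‖ ^ 2) ∧ ∀ k ∈ rg F, c * ‖k‖ ^ 2 ≤ B' k k

/-- FIN (50-70 lines, uses REACH with `L = ⊤`).  `B' (h x₁) (h x₁) ≥ c / (2 m)^n` for all reached `h`; these `h x₁` are
dense in the unit sphere, and `u ↦ B' u u` is continuous. -/
def S_FIN : Prop :=
  ∀ (E : Type) [NormedAddCommGroup E] [NormedSpace ℝ E] (F : E →L[ℝ] E), Ker F →
    ∀ x₁ ∈ rg F, ‖x₁‖ = 1 → ∀ n : ℕ, Chains F x₁ n →
      ∀ (m : ℝ) (B : E →ₗ[ℝ] E →ₗ[ℝ] ℝ) (C c : ℝ), 1 ≤ m → Star F m ⊤ B → 0 < c →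
        (∀ u, B u u ≤ C * ‖u‖ ^ 2) → (∀ k ∈ rg F, c * ‖k‖ ^ 2 ≤ B k k) →
        ∃ c' : ℝ, 0 < c' ∧ ∀ u, c' * ‖u‖ ^ 2 ≤ B u u

/-- HIL (60-90 lines).  `InnerProductSpace.ofCore` on a type synonym (or on `E` with a new norm: e.g. a
structure wrapper), the identity is a linear homeomorphism, so it is complete. -/
def S_HIL : Prop :=
  ∀ (E : Type) [NormedAddCommGroup E] [NormedSpace ℝ E] [CompleteSpace E]
    (B : E →ₗ[ℝ] E →ₗ[ℝ] ℝ) (C c : ℝ), (∀ u v, B u v = B v u) → 0 < c →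
    (∀ u, B u u ≤ C * ‖u‖ ^ 2) → (∀ u, c * ‖u‖ ^ 2 ≤ B u u) →
    ∃ (H : Type) (_ : NormedAddCommGroup H) (_ : InnerProductSpace ℝ H) (_ : CompleteSpace H),
      Nonempty (E ≃L[ℝ] H)

end Pool.Agent.H80.MR
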