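import Pool.Agent.H80.MR.Stm

/-!
# Project MB (second part of MR): almost transitive norms, any density, uniform version

THEOREM. For all `n` and `ε > 0` there is `δ > 0`: if `E` is an infinite-dimensional real Banach space (any density)
with almost transitive norm and some operator `F` of rank `≤ n` has `‖1 - F‖ < 1 + δ ‖F‖`, then the parallelogram
law holds in the unit ball of `E` up to `ε`.  So `E` is isometric to a Hilbert space or for every `n` there is `c > 0` with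
`‖1 - F‖ ≥ 1 + c ‖F‖` for all operators `F` of rank `≤ n`.

Proof. If there is no `c` for some `n`, take powers of the contractions (PW) and an ultrapower (ULTRA): a
Banach space `E' ⊇ E` with TRANSITIVE norm and a contraction `T ≠ 1` with `T - 1` of finite rank; so (library,
`Erg.lean`) `Ker F` for some `F`.  (LIMB) As in MR the forms of JOHN for the finite-dimensional subspaces, normalised
on the range of `F`, are bounded along an ultrafilter on a nonzero subspace which is invariant under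
all `g F g⁻¹`; by (IRR) this is everything.  (BDD) Baire: the limit form is bounded. (SEQ, LOWA, LOWB) it is
bounded below.  So `E'` and `E` are isomorphic to Hilbert spaces.  (SEP) `E` is the union of separable almost
transitive subspaces invariant under the operators, to which the library theorem `CompactDichotomy` applies.
-/

set_option autoImplicit false

namespace Pool.Agent.H80.MR

open Filter Topology

/-- the norm is almost transitive -/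
def AT (E : Type) [NormedAddCommGroup E] [NormedSpace ℝ E] : Prop :=
  ∀ x y : E, ‖x‖ = 1 → ‖y‖ = 1 → ∀ ε : ℝ, 0 < ε → ∃ T : E ≃ₗᵢ[ℝ] E, ‖T x - y‖ < ε

/-- there is a contraction `T ≠ 1` with `T - 1` of finite rank -/
def HasContr (E : Type) [NormedAddCommGroup E] [NormedSpace ℝ E] : Prop :=
  ∃ T : E →L[ℝ] E, T ≠ 1 ∧ ‖T‖ ≤ 1 ∧
    FiniteDimensional ℝ (LinearMap.range ((T - 1 : E →L[ℝ] E) : E →ₗ[ℝ] E))

/-- IRR (100 lines).  Call a subspace invariant if it is invariant under all `cj F g`; `A u` = the smallest invariant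
subspace containing `u` (`sInf`).  `A (h u) = h (A u)`, `kr F (h * g) = h (kr F g)`, `cj F g` is the identity on
`kr F g`, `‖cj F g x‖ ≤ 2 ‖x‖`.  Every vector `u` of norm one is in some `kr F g` (transitivity, `rg F ≠ 0`).
Let `j` be the minimum of `finrank (A u ⊓ kr F g)` over the pairs with `‖u‖ = 1`, `u ∈ kr F g`; by transitivity for every unit
`u` some `g` with `u ∈ kr F g` attains `j`.
(1) `‖u‖ = 1`, `w ∈ A u`, `‖w - u‖ < 1/2` ⟹ `A w = A u`: with this `g`, `w' = cj F g w ∈ A w ⊓ kr F g` is not `0`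
(`‖w' - u‖ ≤ 2 ‖w - u‖ < 1`), `A w' ⊓ kr F g ≤ A u ⊓ kr F g` has finrank `≥ j` (rescale `w'`), so they are equal,
`u ∈ A w' ≤ A w`.
(2) `u ≠ 0`, `w ∈ A u`, `w ≠ 0` ⟹ `A w = A u`: rescale to norm one; `A (-w) = A w`, so assume `‖u + w‖ ≥ 1`; go from `u` to `w`
in 33 steps through the unit vectors `z / ‖z‖`, `z = (1 - s) u + s w ∈ A u`, `‖z‖ ≥ 1/4` (see CHAIN), and use (1).
(3) So `A x ⊓ A y ≠ ⊥` implies `A x = A y` (`x, y ≠ 0`).  Suppose `A v ≠ ⊤`, `‖v‖ = 1`, `v ∈ kr F g`.  Let `x ∉ A v`, `w = v + x`.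
`A x ⊓ A v = ⊥`; `A w ⊓ A x = ⊥` (else `w ∈ A x`, so `v = w - x ∈ A x ⊓ A v`).  `w - cj F g w = x - cj F g x ∈ A w ⊓ A x`, so
`x = cj F g x ∈ kr F g`.  Hence `E` is the union of the subspaces `A v` and `kr F g`, so one of them is `⊤`; not `kr F g`
(finite-dimensional).  So `A v = ⊤` for all `v ≠ 0`, and `E₀ ≥ A v` for any nonzero `v ∈ E₀`. -/
def S_IRR : Prop :=
  ∀ (E : Type) [NormedAddCommGroup E] [NormedSpace ℝ E], ¬ FiniteDimensional ℝ E → Trans E →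
    ∀ F : E →L[ℝ] E, Ker F → ∀ E₀ : Submodule ℝ E, E₀ ≠ ⊥ →
      (∀ g : E ≃ₗᵢ[ℝ] E, ∀ u ∈ E₀, cj F g u ∈ E₀) → E₀ = ⊤

/-- ULIM (60-80 lines).  `B u v = lim b_i u v` along the ultrafilter (bounded: `|b u v| ≤ (b u u + b v v) / 2`;
`IsCompact.ultrafilter_le_nhds` on `Set.Icc`, choice), bilinear by uniqueness of limits.  `kr F g` is finite-dimensional,
so `kr F g ≤ L i` for almost all `i`. -/
def S_ULIM : Prop :=
  ∀ (E : Type) [NormedAddCommGroup E] [NormedSpace ℝ E] (F : E →L[ℝ] E), Ker F → ∀ (m : ℝ),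
    ∀ (ι : Type) (𝒰 : Ultrafilter ι) (L : ι → Submodule ℝ E) (b : ι → E →ₗ[ℝ] E →ₗ[ℝ] ℝ),
      (∀ i, Star F m (L i) (b i)) → (∀ u, ∀ᶠ i in (𝒰 : Filter ι), u ∈ L i) →
      (∀ u, ∃ C : ℝ, ∀ᶠ i in (𝒰 : Filter ι), b i u u ≤ C) →
      ∃ B : E →ₗ[ℝ] E →ₗ[ℝ] ℝ, Star F m ⊤ B ∧
        ∀ u v, Tendsto (fun i => b i u v) (𝒰 : Filter ι) (𝓝 (B u v))

/-- LIMB (80-120 lines, uses FORM, IRR, ULIM).  As LIM in `Stm.lean`, but shorter: index set `Finset E`, `L_s = span s ⊔ rg F`,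
`b_s` from FORM scaled such that `b_s k k ≤ ‖k‖²` on `rg F`, with equality for some unit `k_s ∈ rg F`.  The subspace
`E₀ = {u | ∃ C, ∀ᶠ s, b_s u u ≤ C}` contains `rg F ≠ ⊥` and is invariant under all `cj F g` (`m = 2 finrank`), so `E₀ = ⊤` by IRR.  The limit
`B` is not zero: `k_s → k` along the ultrafilter (compactness of the unit sphere of `rg F`), `b_s (k_s - k) (k_s - k) ≤ ‖k_s - k‖² → 0`,
so `B k k = lim b_s k k = 1`. -/
def S_LIMB : Prop :=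
  ∀ (E : Type) [NormedAddCommGroup E] [NormedSpace ℝ E], ¬ FiniteDimensional ℝ E → Trans E →
    ∀ F : E →L[ℝ] E, Ker F →
      ∃ (m : ℝ) (B : E →ₗ[ℝ] E →ₗ[ℝ] ℝ), 1 ≤ m ∧ Star F m ⊤ B ∧ ∃ u, 0 < B u u

/-- BDD (80-100 lines).  `β u = √(B u u)` is a seminorm.  Baire: for some `n` the closure of `{β ≤ n}` (convex, symmetric) contains a
ball around some point, hence around `0`, so with another `n` it contains the ball of radius `3` around `0`.  Let `y` be a unit vector of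
`kr F g` for which `M = β y` is maximal (finite-dimensional space).  There is `u`, `β u ≤ n`, `‖u - y‖ ≤ 1/8`; `cj F g u ∈ kr F g`,
`‖cj F g u - y‖ = ‖cj F g (u - y)‖ ≤ 1/4`, so `3/4 M ≤ β (cj F g u) ≤ √m n`.  By transitivity every unit vector is in some `kr F g`. -/
def S_BDD : Prop :=
  ∀ (E : Type) [NormedAddCommGroup E] [NormedSpace ℝ E] [CompleteSpace E], Trans E →
    ∀ F : E →L[ℝ] E, Ker F → ∀ (m : ℝ) (B : E →ₗ[ℝ] E →ₗ[ℝ] ℝ), 1 ≤ m → Star F m ⊤ B →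
      ∃ C : ℝ, ∀ u, B u u ≤ C * ‖u‖ ^ 2

/-- SEQ (80-100 lines, uses IRR, BDD).  Each `b i` is bounded (BDD), so `u ↦ b i u u` is continuous.  For each `u` the sequence `b i u u` is
bounded: otherwise `b (φ i) u u > i` for some `φ : ℕ → ℕ`; with `𝒰 = Filter.hyperfilter ℕ` the subspace
`{v | ∃ C, ∀ᶠ i in 𝒰, b (φ i) v v ≤ C}` contains `rg F ≠ ⊥`, is invariant under all `cj F g`, but does not contain `u`: contradiction
to IRR.  The closed sets `{u | ∀ i, b i u u ≤ n}` cover `E`: Baire (or `banach_steinhaus`-like), as in BDD. -/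
def S_SEQ : Prop :=
  ∀ (E : Type) [NormedAddCommGroup E] [NormedSpace ℝ E] [CompleteSpace E],
    ¬ FiniteDimensional ℝ E → Trans E → ∀ F : E →L[ℝ] E, Ker F → ∀ (m : ℝ), 1 ≤ m →
      ∀ b : ℕ → E →ₗ[ℝ] E →ₗ[ℝ] ℝ, (∀ i, Star F m ⊤ (b i)) →
        (∀ i, ∀ k ∈ rg F, b i k k ≤ ‖k‖ ^ 2) → ∃ C : ℝ, ∀ i u, b i u u ≤ C * ‖u‖ ^ 2

/-- LOWA (60-80 lines, uses IRR, SEQ).  Otherwise for all `i` there is `g_i` with `μ_i = max {B k k | k ∈ kr F g_i, ‖k‖ = 1} < 1/(i+1)`.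
`μ_i > 0`: else `kr F g_i` is in the subspace `{u | B u u = 0}`, which is invariant, so it would be `⊤` (IRR).  The forms
`b i u v = B (g_i u) (g_i v) / μ_i` have Star (`g_i (cj F g u) = cj F (g_i g) (g_i u)`) and are `≤ ‖·‖²` on `rg F`; SEQ gives
`B (g_i u) (g_i u) ≤ C μ_i ‖u‖²` for all `u`, so `B u u ≤ C μ_i ‖u‖²` for all `u`, `i`: `B = 0`. -/
def S_LOWA : Prop :=
  ∀ (E : Type) [NormedAddCommGroup E] [NormedSpace ℝ E] [CompleteSpace E],
    ¬ FiniteDimensional ℝ E → Trans E → ∀ F : E →L[ℝ] E, Ker F → ∀ (m : ℝ), 1 ≤ m →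
      ∀ B : E →ₗ[ℝ] E →ₗ[ℝ] ℝ, Star F m ⊤ B → (∃ u, 0 < B u u) →
        ∃ c : ℝ, 0 < c ∧ ∀ g : E ≃ₗᵢ[ℝ] E, ∃ k ∈ kr F g, ‖k‖ = 1 ∧ c ≤ B k k

/-- LOWB (80-100 lines, uses IRR, BDD, ULIM, LOWA).  Otherwise there are unit `y_i` with `B y_i y_i < 1/(i+1)`, `y_i ∈ kr F g_i`.  The forms
`b i u v = B (g_i u) (g_i v)` have Star, are `≤ C ‖·‖²`, and there are unit `l_i = g_i⁻¹ y_i`, `k_i` in `rg F` with `b i l_i l_i < 1/(i+1)`,
`b i k_i k_i ≥ c` (LOWA).  Along `hyperfilter ℕ`: `b i → b` (ULIM), `l_i → l`, `k_i → k` in `rg F`; `b l l = 0`, `b k k ≥ c`, `‖l‖ = 1`.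
The invariant subspace `{u | b u u = 0}` contains `l ≠ 0` but not `k`: contradiction to IRR. -/
def S_LOWB : Prop :=
  ∀ (E : Type) [NormedAddCommGroup E] [NormedSpace ℝ E] [CompleteSpace E],
    ¬ FiniteDimensional ℝ E → Trans E → ∀ F : E →L[ℝ] E, Ker F → ∀ (m : ℝ), 1 ≤ m →
      ∀ B : E →ₗ[ℝ] E →ₗ[ℝ] ℝ, Star F m ⊤ B → (∃ u, 0 < B u u) →
        ∃ c : ℝ, 0 < c ∧ ∀ u, c * ‖u‖ ^ 2 ≤ B u u

/-- PW (60-80 lines).  `‖F‖ > 0`, `‖F‖ ≤ 1 + ‖1 - F‖ ≤ 2 + ε ‖F‖` so `‖F‖ ≤ 4`.  If `‖F‖ ≥ 1/4` take `F' = F`.  Otherwise let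
`N = ⌊1 / (2 ‖F‖)⌋₊`, `s = N ‖F‖ ∈ [1/4, 1/2]`, `F' = 1 - (1 - F)^N` (`= F ∘ ∑ (1 - F)^k`, so the range is in that of `F`):
`‖1 - F'‖ ≤ (1 + ε ‖F‖)^N ≤ exp (ε s) ≤ 1 + ε`; `‖F' - N F‖ ≤ (1 + ‖F‖)^N - 1 - N ‖F‖ ≤ exp s - 1 - s ≤ s²` (induction on `N` or
the binomial theorem), so `‖F'‖ ≥ s - s² ≥ 1/8`. -/
def S_PW : Prop :=
  ∀ (E : Type) [NormedAddCommGroup E] [NormedSpace ℝ E] [Nontrivial E] (F : E →L[ℝ] E) (ε : ℝ),
    0 < ε → ε ≤ 1 / 2 → ‖(1 : E →L[ℝ] E) - F‖ < 1 + ε * ‖F‖ →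
      ∃ F' : E →L[ℝ] E, LinearMap.range (F' : E →ₗ[ℝ] E) ≤ LinearMap.range (F : E →ₗ[ℝ] E) ∧
        1 / 8 ≤ ‖F'‖ ∧ ‖F'‖ ≤ 4 ∧ ‖(1 : E →L[ℝ] E) - F'‖ ≤ 1 + 4 * ε

/-- ULTRA (200-280 lines).  The ultraproduct of the `E n`: `V` = bounded sequences (`lp (fun n : ℕ => E n) ∞`),
`Z = {x | ‖x_n‖ → 0 along 𝒰}` (closed submodule), `𝒰 = hyperfilter ℕ`, `E' = V ⧸ Z` (complete: instance for quotients), and
`‖mk x‖ = lim_𝒰 ‖x_n‖` (for `≤` change `x` to `0` outside `{n | ‖x_n‖ ≤ lim + ε}`).  A sequence of isometries `g_n` acts on `V`, preserves `Z`, and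
induces an isometry of `E'`; if `lim ‖x_n‖ = lim ‖y_n‖ = 1` choose `g_n` with `‖g_n (x_n / ‖x_n‖) - y_n / ‖y_n‖‖ < 1/(n+1)`: `E'` is transitive.
`T = 1 - F'`, `F' (mk x) = mk (F_n x_n)`: `‖T‖ ≤ 1`, `F' ≠ 0` as `‖F_n‖ ≥ 1/8`; rank `≤ r`: of any `r + 1` vectors `mk (F_n x^i_n)` for each `n`
some combination with `max |a^i_n| = 1` vanishes; take the limit of `a^i_n` along `𝒰`.  `E'` is infinite-dimensional: for every `k` the
space `E n` contains `k` unit vectors with mutual distances `≥ 1/2` (Riesz lemma), so does `E'`; with `k = ∞` (diagonal: the `i`-th vector of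
`E n` for all `i`) there is a sequence in the unit ball of `E'` without convergent subsequence. -/
def S_ULTRA : Prop :=
  ∀ (E : ℕ → Type) [∀ n, NormedAddCommGroup (E n)] [∀ n, NormedSpace ℝ (E n)]
    [∀ n, CompleteSpace (E n)], (∀ n, ¬ FiniteDimensional ℝ (E n)) → (∀ n, AT (E n)) →
    ∀ (r : ℕ) (F : ∀ n, E n →L[ℝ] E n),
      (∀ n, FiniteDimensional ℝ (LinearMap.range (F n : E n →ₗ[ℝ] E n)) ∧
        Module.finrank ℝ (LinearMap.range (F n : E n →ₗ[ℝ] E n)) ≤ r) →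
      (∀ n, 1 / 8 ≤ ‖F n‖ ∧ ‖F n‖ ≤ 4) →
      (∀ n : ℕ, ‖(1 : E n →L[ℝ] E n) - F n‖ ≤ 1 + 4 / ((n : ℝ) + 2)) →
      ∀ x y : ∀ n, E n, (∀ n, ‖x n‖ ≤ 1 ∧ ‖y n‖ ≤ 1) →
      ∃ (E' : Type) (_ : NormedAddCommGroup E') (_ : NormedSpace ℝ E') (_ : CompleteSpace E')
        (x' y' : E'), ¬ FiniteDimensional ℝ E' ∧ Trans E' ∧ HasContr E' ∧
        Tendsto (fun n => ‖x n‖) (hyperfilter ℕ : Filter ℕ) (𝓝 ‖x'‖) ∧
        Tendsto (fun n => ‖y n‖) (hyperfilter ℕ : Filter ℕ) (𝓝 ‖y'‖) ∧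
        Tendsto (fun n => ‖x n + y n‖) (hyperfilter ℕ : Filter ℕ) (𝓝 ‖x' + y'‖) ∧
        Tendsto (fun n => ‖x n - y n‖) (hyperfilter ℕ : Filter ℕ) (𝓝 ‖x' - y'‖)

/-- SEP (120-160 lines).  Choose `τ x y n : E ≃ₗᵢ E` with `‖τ x y n x - y‖ < 1/(n+1)` for unit `x`, `y`.  Let `D` be the smallest set which
contains the `z j` and is closed under `+`, rational multiples, `x ↦ ‖x‖⁻¹ • x`, all `F j`, and `w ↦ τ x y n w`, `w ↦ (τ x y n)⁻¹ w` for `x, y ∈ D`: it is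
countable (`D = ⋃ D_k`, `D_{k+1}` is obtained from `D_k` by countably many operations with at most three arguments).
`E₀ = (span ℝ D).topologicalClosure`: separable, `D` is dense in it, invariant under `F j` and under `τ x y n` and its inverse for `x, y ∈ D`, so these
restrict to isometries of `E₀`; unit vectors of `E₀` are limits of unit vectors of `D`. -/
def S_SEP : Prop :=
  ∀ (E : Type) [NormedAddCommGroup E] [NormedSpace ℝ E], AT E →
    ∀ (F : ℕ → E →L[ℝ] E) (z : ℕ → E), ∃ E₀ : Submodule ℝ E, IsClosed (E₀ : Set E) ∧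
      TopologicalSpace.SeparableSpace E₀ ∧ (∀ j, z j ∈ E₀) ∧ (∀ j, ∀ u ∈ E₀, F j u ∈ E₀) ∧ AT E₀

end Pool.Agent.H80.MR
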