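import Pool.Agent.H80.MR.Stm2
import Pool.Agent.H80.MR.LIM

/-!
# Stub MB-ULIM
-/

set_option autoImplicit false

namespace Pool.Agent.H80.MR

open Filter Topology

/-- a finite-dimensional space is in almost all `L i` if every vector is -/
theorem ev_le {E ι : Type} [NormedAddCommGroup E] [NormedSpace ℝ E] {l : Filter ι}
    {L : ι → Submodule ℝ E} (h : ∀ u, ∀ᶠ i in l, u ∈ L i) (W : Submodule ℝ E)
    (hW : FiniteDimensional ℝ W) : ∀ᶠ i in l, W ≤ L i := by
  obtain ⟨t, ht⟩ := (Submodule.fg_iff_finiteDimensional W).2 hW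
  have h1 : ∀ᶠ i in l, ∀ u ∈ t, u ∈ L i :=
    (Filter.eventually_all_finset t).2 fun u _ => h u
  filter_upwards [h1] with i hi
  rw [← ht, Submodule.span_le]
  exact fun u hu => hi u hu

theorem ulim : S_ULIM := by
  intro E _ _ F hF m ι 𝒰 L b hb hL hbd
  have hfin : FiniteDimensional ℝ (rg F) := hF.fin
  have hpsd : ∀ i, Psd (b i) := fun i => (hb i).psd
  have hstar : ∀ (g : E ≃ₗᵢ[ℝ] E) (u : E), ∀ᶠ s in (𝒰 : Filter ι),
      b s (cj F g u) (cj F g u) ≤ m * b s u u := by
    intro g u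
    filter_upwards [ev_le hL (kr F g) inferInstance, hL u] with s h1 h2
    exact (hb s).star g h1 u h2
  have hlim : ∀ u v : E, ∃ l : ℝ, Tendsto (fun s => b s u v) (𝒰 : Filter ι) (𝓝 l) := by
    intro u v
    obtain ⟨C, hC⟩ := hbd u
    obtain ⟨C', hC'⟩ := hbd v
    refine ultra_lim 𝒰 _ ((C + C') / 2) ?_
    filter_upwards [hC, hC'] with s h1 h2
    have := (hpsd s).abs_le u v
    linarith
  choose β hβ using hlim
  have huniq : ∀ (u v : E) (l : ℝ), Tendsto (fun s => b s u v) (𝒰 : Filter ι) (𝓝 l) →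
      β u v = l := fun u v l h => tendsto_nhds_unique (hβ u v) h
  let B : E →ₗ[ℝ] E →ₗ[ℝ] ℝ := LinearMap.mk₂ ℝ β
    (fun u u' v => huniq _ _ _ (by simpa using (hβ u v).add (hβ u' v)))
    (fun c u v => huniq _ _ _ (by simpa using (hβ u v).const_mul c))
    (fun u v v' => huniq _ _ _ (by simpa using (hβ u v).add (hβ u v')))
    (fun c u v => huniq _ _ _ (by simpa using (hβ u v).const_mul c))
  have hB : ∀ u v, Tendsto (fun s => b s u v) (𝒰 : Filter ι) (𝓝 (B u v)) := hβ
  refine ⟨B, ⟨fun u v => ?_, fun u => ?_, fun g _ u _ => ?_⟩, hB⟩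
  · refine huniq u v _ ?_
    refine (hB v u).congr fun s => ?_
    exact (hpsd s).symm v u
  · exact ge_of_tendsto (hB u u) (Eventually.of_forall fun s => (hpsd s).nonneg u)
  · exact le_of_tendsto_of_tendsto (hB _ _) ((hB u u).const_mul m) (hstar g u)

end Pool.Agent.H80.MR
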