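import Pool.Agent.H80.MR.Stm2

/-!
# Project MB: the ultraproduct (stub ULTRA)
-/

set_option autoImplicit false

namespace Pool.Agent.H80.MR

open Filter Topology

namespace Ultra

/-- the free ultrafilter on `ℕ` -/
noncomputable abbrev U : Filter ℕ := ((hyperfilter ℕ : Ultrafilter ℕ) : Filter ℕ)

/-- bounded sequences -/
abbrev V (E : ℕ → Type) [∀ n, NormedAddCommGroup (E n)] : Type := lp E ⊤

variable {E : ℕ → Type} [∀ n, NormedAddCommGroup (E n)] [∀ n, NormedSpace ℝ (E n)]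

omit [∀ n, NormedSpace ℝ (E n)] in
theorem norm_coe_le (x : V E) (n : ℕ) : ‖x n‖ ≤ ‖x‖ := lp.norm_apply_le_norm (by simp) x n

/-- sequences which tend to zero along the ultrafilter -/
def Z (E : ℕ → Type) [∀ n, NormedAddCommGroup (E n)] [∀ n, NormedSpace ℝ (E n)] :
    Submodule ℝ (V E) where
  carrier := {x | Tendsto (fun n => ‖x n‖) U (𝓝 0)}
  zero_mem' := by
    simp only [Set.mem_ofPred_eq, lp.coeFn_zero, Pi.zero_apply, norm_zero]
    exact tendsto_const_nhds
  add_mem' := by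
    intro x y hx hy
    simp only [Set.mem_ofPred_eq] at hx hy ⊢
    have h := hx.add hy
    rw [add_zero] at h
    exact squeeze_zero (fun n => norm_nonneg _) (fun n => norm_add_le (x n) (y n)) h
  smul_mem' := by
    intro c x hx
    simp only [Set.mem_ofPred_eq] at hx ⊢
    have h := hx.const_mul ‖c‖
    rw [mul_zero] at h
    refine h.congr (fun n => ?_)
    rw [lp.coeFn_smul, Pi.smul_apply, norm_smul]

theorem mem_Z {x : V E} : x ∈ Z E ↔ Tendsto (fun n => ‖x n‖) U (𝓝 0) := Iff.rfl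

instance isClosed_Z : IsClosed ((Z E : Submodule ℝ (V E)) : Set (V E)) := by
  rw [← isSeqClosed_iff_isClosed]
  intro s x hs hx
  rw [SetLike.mem_coe, mem_Z, Metric.tendsto_nhds]
  intro ε hε
  rw [Metric.tendsto_atTop] at hx
  obtain ⟨N, hN⟩ := hx (ε / 2) (by positivity)
  have h1 := hs N
  rw [SetLike.mem_coe, mem_Z, Metric.tendsto_nhds] at h1
  filter_upwards [h1 (ε / 2) (by positivity)] with n hn
  have h2 := hN N le_rfl
  have h3 : ‖s N n - x n‖ ≤ dist (s N) x := by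
    rw [dist_eq_norm]
    exact norm_coe_le (s N - x) n
  rw [Real.dist_eq, sub_zero, abs_norm] at hn ⊢
  have h4 : ‖x n‖ ≤ ‖s N n‖ + ‖s N n - x n‖ := by
    have h5 := norm_sub_norm_le (x n) (s N n)
    rw [norm_sub_rev] at h5
    linarith
  linarith

/-- the ultraproduct -/
abbrev Q (E : ℕ → Type) [∀ n, NormedAddCommGroup (E n)] [∀ n, NormedSpace ℝ (E n)] : Type :=
  V E ⧸ (Z E)

/-- the class of a sequence -/
noncomputable def mk (x : V E) : Q E := Submodule.Quotient.mk x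

omit [∀ n, NormedSpace ℝ (E n)] in
theorem mem_of_bdd {f : ∀ n, E n} {C : ℝ} (h : ∀ n, ‖f n‖ ≤ C) : Memℓp f ⊤ :=
  memℓp_infty ⟨C, by rintro _ ⟨n, rfl⟩; exact h n⟩

/-- a bounded sequence as an element of `V` -/
noncomputable def seq (f : ∀ n, E n) (C : ℝ) (h : ∀ n, ‖f n‖ ≤ C) : V E :=
  ⟨f, mem_of_bdd h⟩

omit [∀ n, NormedSpace ℝ (E n)] in
theorem seq_apply (f : ∀ n, E n) (C : ℝ) (h : ∀ n, ‖f n‖ ≤ C) (n : ℕ) : seq f C h n = f n := rfl

theorem mk_eq {x y : V E} (h : Tendsto (fun n => ‖x n - y n‖) U (𝓝 0)) : mk x = mk y := by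
  rw [mk, mk, Submodule.Quotient.eq, mem_Z]
  exact h

theorem tend_norm (x : V E) : Tendsto (fun n => ‖x n‖) U (𝓝 ‖mk x‖) := by
  obtain ⟨L, hL, hL'⟩ := (isCompact_Icc (a := (0 : ℝ)) (b := ‖x‖)).ultrafilter_le_nhds
    ((hyperfilter ℕ).map (fun n => ‖x n‖)) (by
      rw [Filter.le_principal_iff]
      have h0 : ∀ᶠ n in U, ‖x n‖ ∈ Set.Icc 0 ‖x‖ :=
        Filter.Eventually.of_forall (fun n => ⟨norm_nonneg _, norm_coe_le x n⟩)
      exact h0)
  have hT : Tendsto (fun n => ‖x n‖) U (𝓝 L) := hL'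
  have h1 : ‖mk x‖ ≤ L := by
    refine le_of_forall_pos_le_add (fun ε hε => ?_)
    classical
    have hy : ∀ n, ‖(if ‖x n‖ ≤ L + ε then x n else 0 : E n)‖ ≤ L + ε := by
      intro n
      split_ifs with h
      · exact h
      · rw [norm_zero]; linarith [hL.1]
    have h2 : mk x = mk (seq _ _ hy) := by
      refine mk_eq ?_
      have h3 : ∀ᶠ n in U, (fun _ : ℕ => (0 : ℝ)) n = ‖x n - seq _ _ hy n‖ := by
        filter_upwards [hT (Iio_mem_nhds (show L < L + ε by linarith))] with n hn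
        rw [seq_apply, if_pos (le_of_lt hn), sub_self, norm_zero]
      exact tendsto_const_nhds.congr' h3
    rw [h2]
    refine le_trans (Submodule.Quotient.norm_mk_le (Z E) _) ?_
    exact lp.norm_le_of_forall_le (by linarith [hL.1]) hy
  have h2 : L ≤ ‖mk x‖ := by
    refine (QuotientAddGroup.le_norm_iff (S := (Z E).toAddSubgroup)).2 (fun y hy => ?_)
    have h3 : y - x ∈ Z E := by
      have := (Submodule.Quotient.eq (Z E) (x := y) (y := x)).1 hy
      exact this
    rw [mem_Z] at h3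
    have h4 : Tendsto (fun n => ‖x n‖ - ‖(y - x) n‖) U (𝓝 (L - 0)) := hT.sub h3
    rw [sub_zero] at h4
    refine le_of_tendsto h4 (Eventually.of_forall (fun n => ?_))
    have h5 : ‖x n‖ ≤ ‖(y - x) n‖ + ‖y n‖ := by
      have : x n = y n - (y - x) n := by
        rw [lp.coeFn_sub, Pi.sub_apply]; abel
      rw [this]
      have h6 := norm_sub_le (y n) ((y - x) n)
      linarith
    have h6 := norm_coe_le y n
    linarith
  rw [le_antisymm h1 h2]
  exact hT

theorem mk_surj (q : Q E) : ∃ x : V E, mk x = q := Submodule.Quotient.mk_surjective _ q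

/-- a bounded sequence of operators acts on the sequences -/
noncomputable def opV (A : ∀ n, E n →L[ℝ] E n) (C : ℝ) (hA : ∀ n, ‖A n‖ ≤ C) :
    V E →ₗ[ℝ] V E where
  toFun x := seq (fun n => A n (x n)) (C * ‖x‖) (fun n => by
    have hC : 0 ≤ C := le_trans (norm_nonneg _) (hA 0)
    exact le_trans ((A n).le_opNorm _) (mul_le_mul (hA n) (norm_coe_le x n) (norm_nonneg _) hC))
  map_add' x y := by
    ext n
    simp [seq_apply]
  map_smul' c x := by
    ext n
    simp [seq_apply]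

theorem opV_apply (A : ∀ n, E n →L[ℝ] E n) (C : ℝ) (hA : ∀ n, ‖A n‖ ≤ C) (x : V E) (n : ℕ) :
    opV A C hA x n = A n (x n) := rfl

/-- a bounded sequence of operators acts on the ultraproduct -/
noncomputable def opQ (A : ∀ n, E n →L[ℝ] E n) (C : ℝ) (hA : ∀ n, ‖A n‖ ≤ C) :
    Q E →ₗ[ℝ] Q E :=
  (Z E).mapQ (Z E) (opV A C hA) (by
    intro x hx
    rw [Submodule.mem_comap, mem_Z]
    rw [mem_Z] at hx
    have h := hx.const_mul C
    rw [mul_zero] at h
    refine squeeze_zero (fun n => norm_nonneg _) (fun n => ?_) h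
    rw [opV_apply]
    exact le_trans ((A n).le_opNorm _) (mul_le_mul_of_nonneg_right (hA n) (norm_nonneg _)))

theorem opQ_mk (A : ∀ n, E n →L[ℝ] E n) (C : ℝ) (hA : ∀ n, ‖A n‖ ≤ C) (x : V E) :
    opQ A C hA (mk x) = mk (opV A C hA x) := rfl

section
variable {F : Type} [NormedAddCommGroup F] [NormedSpace ℝ F]

/-- an isometry as an operator -/
def toOp (g : F ≃ₗᵢ[ℝ] F) : F →L[ℝ] F := (g.toContinuousLinearEquiv : F →L[ℝ] F)

theorem toOp_apply (g : F ≃ₗᵢ[ℝ] F) (x : F) : toOp g x = g x := rfl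

theorem toOp_norm (g : F ≃ₗᵢ[ℝ] F) : ‖toOp g‖ ≤ 1 := by
  refine ContinuousLinearMap.opNorm_le_bound _ zero_le_one (fun x => ?_)
  rw [toOp_apply, g.norm_map, one_mul]

end

/-- a sequence of isometries acts on the ultraproduct -/
noncomputable def isoQ (g : ∀ n, E n ≃ₗᵢ[ℝ] E n) : Q E ≃ₗᵢ[ℝ] Q E where
  toLinearEquiv := LinearEquiv.ofLinearMap
    (opQ (fun n => toOp (g n)) 1 (fun n => toOp_norm _))
    (opQ (fun n => toOp (g n).symm) 1 (fun n => toOp_norm _))
    (by
      refine LinearMap.ext (fun q => ?_)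
      obtain ⟨x, rfl⟩ := mk_surj q
      rw [LinearMap.comp_apply, opQ_mk, opQ_mk, LinearMap.id_apply]
      congr 1
      ext n
      rw [opV_apply, opV_apply, toOp_apply, toOp_apply, LinearIsometryEquiv.apply_symm_apply])
    (by
      refine LinearMap.ext (fun q => ?_)
      obtain ⟨x, rfl⟩ := mk_surj q
      rw [LinearMap.comp_apply, opQ_mk, opQ_mk, LinearMap.id_apply]
      congr 1
      ext n
      rw [opV_apply, opV_apply, toOp_apply, toOp_apply, LinearIsometryEquiv.symm_apply_apply])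
  norm_map' := by
    intro q
    obtain ⟨x, rfl⟩ := mk_surj q
    rw [LinearEquiv.coe_ofLinearMap, opQ_mk]
    refine tendsto_nhds_unique (tend_norm _) ((tend_norm x).congr (fun n => ?_))
    rw [opV_apply, toOp_apply, LinearIsometryEquiv.norm_map]

theorem isoQ_mk (g : ∀ n, E n ≃ₗᵢ[ℝ] E n) (x : V E) :
    isoQ g (mk x) = mk (opV (fun n => toOp (g n)) 1 (fun _ => toOp_norm _) x) := rfl

theorem inv_tend : Tendsto (fun n : ℕ => 1 / ((n : ℝ) + 1)) U (𝓝 0) :=
  (tendsto_one_div_add_atTop_nhds_zero_nat (𝕜 := ℝ)).mono_left Nat.hyperfilter_le_atTop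

theorem trans (hE : ∀ n, AT (E n)) : Trans (Q E) := by
  intro x' y' hx hy
  obtain ⟨x, rfl⟩ := mk_surj x'
  obtain ⟨y, rfl⟩ := mk_surj y'
  have h : ∀ n : ℕ, ∃ g : E n ≃ₗᵢ[ℝ] E n, ‖g (x n) - y n‖ ≤ ‖x n‖ * (1 / ((n : ℝ) + 1)) +
      |‖x n‖ - ‖y n‖| := by
    intro n
    have hn : (0 : ℝ) < 1 / ((n : ℝ) + 1) := Nat.one_div_pos_of_nat
    by_cases h1 : x n = 0
    · refine ⟨LinearIsometryEquiv.refl ℝ (E n), ?_⟩
      rw [LinearIsometryEquiv.coe_refl, id, h1, norm_zero, zero_sub, norm_neg, zero_mul, zero_add,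
        zero_sub, abs_neg, abs_norm]
    by_cases h2 : y n = 0
    · refine ⟨LinearIsometryEquiv.refl ℝ (E n), ?_⟩
      rw [LinearIsometryEquiv.coe_refl, id, h2, norm_zero, sub_zero, sub_zero, abs_norm]
      have := mul_nonneg (norm_nonneg (x n)) hn.le
      linarith
    have h3 : ‖x n‖ ≠ 0 := norm_ne_zero_iff.2 h1
    have h4 : ‖y n‖ ≠ 0 := norm_ne_zero_iff.2 h2
    obtain ⟨g, hg⟩ := hE n (‖x n‖⁻¹ • x n) (‖y n‖⁻¹ • y n)
      (by rw [norm_smul, norm_inv, norm_norm, inv_mul_cancel₀ h3])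
      (by rw [norm_smul, norm_inv, norm_norm, inv_mul_cancel₀ h4]) _ hn
    refine ⟨g, ?_⟩
    have h5 : g (x n) - y n = ‖x n‖ • (g (‖x n‖⁻¹ • x n) - ‖y n‖⁻¹ • y n) +
        (‖x n‖ - ‖y n‖) • (‖y n‖⁻¹ • y n) := by
      rw [g.map_smul, smul_sub, smul_smul, mul_inv_cancel₀ h3, one_smul, sub_smul, smul_smul ‖y n‖,
        mul_inv_cancel₀ h4, one_smul]
      abel
    rw [h5]
    refine le_trans (norm_add_le _ _) (add_le_add ?_ ?_)
    · rw [norm_smul, norm_norm]
      exact mul_le_mul_of_nonneg_left hg.le (norm_nonneg _)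
    · rw [norm_smul, norm_smul, norm_inv, norm_norm, inv_mul_cancel₀ h4, mul_one, Real.norm_eq_abs]
  choose g hg using h
  refine ⟨isoQ g, ?_⟩
  rw [isoQ_mk]
  refine mk_eq ?_
  have h6 := ((tend_norm x).mul inv_tend).add (((tend_norm x).sub (tend_norm y)).abs)
  rw [hx, hy, mul_zero, zero_add, sub_self, abs_zero] at h6
  refine squeeze_zero (fun n => norm_nonneg _) (fun n => ?_) h6
  rw [opV_apply, toOp_apply]
  exact hg n

theorem rank_le {r : ℕ} {F : ∀ n, E n →L[ℝ] E n} {C : ℝ} (hC : ∀ n, ‖F n‖ ≤ C)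
    (hF : ∀ n, FiniteDimensional ℝ (LinearMap.range (F n : E n →ₗ[ℝ] E n)) ∧
        Module.finrank ℝ (LinearMap.range (F n : E n →ₗ[ℝ] E n)) ≤ r)
    (v : Fin (r + 1) → Q E) (hv : ∀ i, ∃ q, v i = opQ F C hC q) : ¬ LinearIndependent ℝ v := by
  have h1 : ∀ i, ∃ x : V E, v i = mk (opV F C hC x) := by
    intro i
    obtain ⟨q, hq⟩ := hv i
    obtain ⟨x, rfl⟩ := mk_surj q
    exact ⟨x, hq⟩
  choose x hx using h1
  have h2 : ∀ n, ∃ a : Fin (r + 1) → ℝ, ‖a‖ = 1 ∧ ∑ i, a i • F n (x i n) = 0 := by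
    intro n
    obtain ⟨h3, h4⟩ := hF n
    have h5 : ¬ LinearIndependent ℝ (fun i : Fin (r + 1) =>
        (⟨F n (x i n), ⟨x i n, rfl⟩⟩ : LinearMap.range (F n : E n →ₗ[ℝ] E n))) := by
      intro h
      have := h.fintype_card_le_finrank
      rw [Fintype.card_fin] at this
      omega
    rw [Fintype.not_linearIndependent_iff] at h5
    obtain ⟨a, ha, j, hj⟩ := h5
    have h6 : ‖a‖ ≠ 0 := by
      rw [norm_ne_zero_iff]
      intro h
      exact hj (by rw [h]; rfl)
    refine ⟨‖a‖⁻¹ • a, ?_, ?_⟩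
    · rw [norm_smul, norm_inv, norm_norm, inv_mul_cancel₀ h6]
    · have h7 := congrArg (Subtype.val) ha
      rw [Submodule.coe_sum] at h7
      simp only [Submodule.coe_smul, Submodule.coe_zero] at h7
      simp only [Pi.smul_apply, smul_eq_mul, mul_smul]
      rw [← Finset.smul_sum, h7, smul_zero]
  choose a ha ha' using h2
  obtain ⟨b, hb, hb'⟩ := (isCompact_sphere (0 : Fin (r + 1) → ℝ) 1).ultrafilter_le_nhds
    ((hyperfilter ℕ).map a) (by
      rw [Filter.le_principal_iff]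
      have h0 : ∀ᶠ n in U, a n ∈ Metric.sphere (0 : Fin (r + 1) → ℝ) 1 :=
        Filter.Eventually.of_forall (fun n => by rw [mem_sphere_zero_iff_norm]; exact ha n)
      exact h0)
  have hT : Tendsto a U (𝓝 b) := hb'
  rw [mem_sphere_zero_iff_norm] at hb
  rw [Fintype.not_linearIndependent_iff]
  refine ⟨b, ?_, ?_⟩
  · have h8 : ∑ i, b i • v i = mk (∑ i, b i • opV F C hC (x i)) := by
      have h14 : mk (∑ i, b i • opV F C hC (x i)) =
          (Z E).mkQ (∑ i, b i • opV F C hC (x i)) := rfl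
      rw [h14, map_sum]
      refine Finset.sum_congr rfl (fun i _ => ?_)
      rw [hx i, map_smul]
      rfl
    rw [h8]
    have h9 : (0 : Q E) = mk 0 := rfl
    rw [h9]
    refine mk_eq ?_
    have h10 : Tendsto (fun n => ∑ i, |b i - a n i| * (C * ‖x i‖)) U (𝓝 0) := by
      have h11 : Tendsto (fun n => ∑ i, |b i - a n i| * (C * ‖x i‖)) U
          (𝓝 (∑ i, |b i - b i| * (C * ‖x i‖))) := by
        refine tendsto_finsetSum _ (fun i _ => ?_)
        refine Tendsto.mul_const _ ?_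
        refine Tendsto.abs ?_
        exact tendsto_const_nhds.sub ((tendsto_pi_nhds.1 hT) i)
      simpa using h11
    refine squeeze_zero (fun n => norm_nonneg _) (fun n => ?_) h10
    have h12 : (∑ i, b i • opV F C hC (x i)) n - (0 : V E) n =
        ∑ i, (b i - a n i) • F n (x i n) := by
      have h13 : (∑ i, b i • opV F C hC (x i)) n = ∑ i, b i • F n (x i n) := by
        rw [lp.coeFn_sum, Finset.sum_apply]
        rfl
      rw [h13, lp.coeFn_zero, Pi.zero_apply, sub_zero]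
      simp only [sub_smul]
      rw [Finset.sum_sub_distrib, ha' n, sub_zero]
    rw [h12]
    refine le_trans (norm_sum_le _ _) (Finset.sum_le_sum (fun i _ => ?_))
    rw [norm_smul, Real.norm_eq_abs]
    refine mul_le_mul_of_nonneg_left ?_ (abs_nonneg _)
    have hC0 : 0 ≤ C := le_trans (norm_nonneg _) (hC 0)
    exact le_trans ((F n).le_opNorm _)
      (mul_le_mul (hC n) (norm_coe_le (x i) n) (norm_nonneg _) hC0)
  · by_contra h
    push Not at h
    have : b = 0 := funext h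
    rw [this, norm_zero] at hb
    exact zero_ne_one hb

theorem infdim (hinf : ∀ n, ¬ FiniteDimensional ℝ (E n)) : ¬ FiniteDimensional ℝ (Q E) := by
  intro hfd
  have h1 : ∀ n, ∃ f : ℕ → E n, (∀ i, ‖f i‖ ≤ 3) ∧ Pairwise fun i j => 1 ≤ ‖f i - f j‖ := by
    intro n
    refine exists_seq_norm_le_one_le_norm_sub' (𝕜 := ℝ) (c := 2) ?_ ?_ (hinf n)
    · rw [Real.norm_eq_abs, abs_of_pos] <;> norm_num
    · rw [Real.norm_eq_abs, abs_of_pos] <;> norm_num
  choose f hf hf' using h1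
  let z : ℕ → Q E := fun i => mk (seq (fun n => f n i) 3 (fun n => hf n i))
  have hz : ∀ i, z i ∈ Metric.closedBall (0 : Q E) 3 := by
    intro i
    rw [mem_closedBall_zero_iff]
    exact le_of_tendsto (tend_norm _) (Eventually.of_forall (fun n => hf n i))
  have hz' : ∀ i j, i ≠ j → 1 ≤ ‖z i - z j‖ := by
    intro i j hij
    have h2 : z i - z j = mk (seq (fun n => f n i) 3 (fun n => hf n i) -
      seq (fun n => f n j) 3 (fun n => hf n j)) := rfl
    rw [h2]
    exact ge_of_tendsto (tend_norm _) (Eventually.of_forall (fun n => hf' n hij))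
  haveI : ProperSpace (Q E) := FiniteDimensional.proper ℝ (Q E)
  obtain ⟨a, _, φ, hφ, ha⟩ := (isCompact_closedBall (0 : Q E) 3).tendsto_subseq hz
  have hc := ha.cauchySeq
  rw [Metric.cauchySeq_iff] at hc
  obtain ⟨N, hN⟩ := hc 1 one_pos
  have h3 := hN N le_rfl (N + 1) (Nat.le_succ N)
  rw [dist_eq_norm] at h3
  have h4 := hz' (φ N) (φ (N + 1)) (hφ.injective.ne (Nat.succ_ne_self N).symm)
  exact absurd h3 (not_lt.2 h4)

end Ultra

open Ultra in
theorem ultra : S_ULTRA := by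
  intro E _ _ _ hinf hAT r F hF hb hc x0 y0 hxy
  have hC : ∀ n, ‖F n‖ ≤ 4 := fun n => (hb n).2
  have hbd : ∀ q : Q E, ‖opQ F 4 hC q‖ ≤ 4 * ‖q‖ := by
    intro q
    obtain ⟨x, rfl⟩ := mk_surj q
    rw [opQ_mk]
    refine le_of_tendsto_of_tendsto' (tend_norm _) ((tend_norm x).const_mul 4) (fun n => ?_)
    rw [opV_apply]
    exact le_trans ((F n).le_opNorm _) (mul_le_mul_of_nonneg_right (hC n) (norm_nonneg _))
  let F' : Q E →L[ℝ] Q E := (opQ F 4 hC).mkContinuous 4 hbd
  have hF' : ∀ q, F' q = opQ F 4 hC q := fun q => rfl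
  refine ⟨Q E, inferInstance, inferInstance, inferInstance,
    mk (seq x0 1 (fun n => (hxy n).1)), mk (seq y0 1 (fun n => (hxy n).2)), infdim hinf, trans hAT,
    ⟨1 - F', ?_, ?_, ?_⟩, tend_norm _, tend_norm _,
    tend_norm (seq x0 1 (fun n => (hxy n).1) + seq y0 1 (fun n => (hxy n).2)),
    tend_norm (seq x0 1 (fun n => (hxy n).1) - seq y0 1 (fun n => (hxy n).2))⟩
  · intro h
    have h1 : ∀ n, ∃ x : E n, ‖x‖ < 1 ∧ 1 / 16 < ‖F n x‖ := by
      intro n
      exact (F n).exists_lt_apply_of_lt_opNorm (lt_of_lt_of_le (by norm_num) (hb n).1)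
    choose x hx hx' using h1
    have h2 : F' (mk (seq x 1 (fun n => (hx n).le))) = 0 := by
      have h3 : (1 - F') (mk (seq x 1 (fun n => (hx n).le))) =
          mk (seq x 1 (fun n => (hx n).le)) := by rw [h]; rfl
      rw [sub_apply, one_apply_eq_self, sub_eq_self] at h3
      exact h3
    have h4 : (1 / 16 : ℝ) ≤ ‖F' (mk (seq x 1 (fun n => (hx n).le)))‖ := by
      rw [hF', opQ_mk]
      refine ge_of_tendsto' (tend_norm _) (fun n => ?_)
      rw [opV_apply, seq_apply]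
      exact (hx' n).le
    rw [h2, norm_zero] at h4
    norm_num at h4
  · refine ContinuousLinearMap.opNorm_le_bound _ zero_le_one (fun q => ?_)
    obtain ⟨x, rfl⟩ := mk_surj q
    have h1 : (1 - F') (mk x) = mk (x - opV F 4 hC x) := rfl
    rw [h1, one_mul]
    have h2 : Tendsto (fun n : ℕ => (1 + 4 * (1 / ((n : ℝ) + 1))) * ‖x n‖) U
        (𝓝 ((1 + 4 * 0) * ‖mk x‖)) :=
      ((inv_tend.const_mul 4).const_add 1).mul (tend_norm x)
    rw [mul_zero, add_zero, one_mul] at h2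
    refine le_of_tendsto_of_tendsto' (tend_norm _) h2 (fun n => ?_)
    have h3 : (x - opV F 4 hC x) n = ((1 : E n →L[ℝ] E n) - F n) (x n) := rfl
    rw [h3]
    refine le_trans (ContinuousLinearMap.le_opNorm _ _) (mul_le_mul_of_nonneg_right ?_ (norm_nonneg _))
    refine le_trans (hc n) ?_
    have h4 : (4 : ℝ) / ((n : ℝ) + 2) ≤ 4 * (1 / ((n : ℝ) + 1)) := by
      rw [mul_one_div]
      exact div_le_div_of_nonneg_left (by norm_num) (by positivity) (by linarith)
    linarith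
  · have h1 : (1 - F' - 1 : Q E →L[ℝ] Q E) = -F' := by abel
    rw [h1]
    have h2 : Module.rank ℝ (LinearMap.range ((-F' : Q E →L[ℝ] Q E) : Q E →ₗ[ℝ] Q E)) ≤ (r : ℕ) := by
      refine _root_.rank_le (fun s hs => ?_)
      by_contra hcard
      push Not at hcard
      obtain ⟨t, ht, ht'⟩ := Finset.exists_subset_card_eq (show r + 1 ≤ s.card by omega)
      have h3 : LinearIndependent ℝ (fun i : t =>
          (i : LinearMap.range ((-F' : Q E →L[ℝ] Q E) : Q E →ₗ[ℝ] Q E))) :=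
        hs.comp (fun i : t => (⟨i.1, ht i.2⟩ : s)) (fun i j hij => by
          have := congrArg Subtype.val hij
          exact Subtype.ext this)
      have h4 := h3.comp (t.equivFinOfCardEq ht').symm (t.equivFinOfCardEq ht').symm.injective
      have h5 := h4.map' (Submodule.subtype _) (Submodule.ker_subtype _)
      refine rank_le hC hF _ (fun i => ?_) h5
      obtain ⟨q, hq⟩ := ((t.equivFinOfCardEq ht').symm i).1.2
      refine ⟨-q, ?_⟩
      rw [map_neg]
      exact hq.symm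
    exact Module.rank_lt_aleph0_iff.1 (lt_of_le_of_lt h2 Cardinal.natCast_lt_aleph0)

end Pool.Agent.H80.MR
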